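import Pool.Agent.H230R2.IPP.Count

set_option autoImplicit false

/-!
Asymptotics, and the identifiable parent property.
-/

namespace Pool.Agent.H230R2.IPP

open Finset

theorem code_asymp (ℓ u k : ℕ) (hu : 2 ≤ u) (hℓ : k * (u - 1) + 1 ≤ ℓ) (ε : ℝ) (hε : 0 < ε) :
    ∃ Q : ℕ, ∀ q : ℕ, Q ≤ q → ∃ C : Finset (Fin ℓ → Fin q),
      (q : ℝ) ^ ((k : ℝ) + 1 - ε) < C.card ∧
      ∀ V ⊆ C, V.card ≤ u → ∃ j, Set.InjOn (fun c : Fin ℓ → Fin q => c j) V := by
  obtain ⟨c, B, hcode⟩ := code_exists ℓ u k hu hℓ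
  -- the parameters
  obtain ⟨D0, hD0⟩ := exists_nat_gt (8 / ε)
  set D : ℕ := D0 + 4 with hD
  have hD4 : 4 ≤ D := by omega
  have hDε : 8 < ε * D := by
    have h1 : (8 : ℝ) / ε < D := hD0.trans_le (by rw [hD]; push_cast; linarith)
    rw [div_lt_iff₀ hε] at h1
    linarith
  obtain ⟨N0, hN0⟩ := exists_nat_gt (2 * ((k : ℝ) + 1) * B / ε)
  set N : ℕ := N0 + 1 with hN
  have hN1 : 1 ≤ N := by omega
  have hNε : 2 * ((k : ℝ) + 1) * B < ε * N := by
    have h1 : 2 * ((k : ℝ) + 1) * B / ε < N := hN0.trans_le (by rw [hN]; push_cast; linarith)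
    rw [div_lt_iff₀ hε] at h1
    linarith
  set A : ℕ := (N + B) * D with hA
  have hA1 : 1 ≤ A := by
    rw [hA]; exact Nat.one_le_iff_ne_zero.2 (by positivity)
  have hApos : (0 : ℝ) < A := by exact_mod_cast hA1
  set E : ℕ := N * D * (k + 1) - 4 * N with hE
  have hE' : E + 4 * N = N * D * (k + 1) := by
    have : 4 * N ≤ N * D * (k + 1) := by
      calc 4 * N = N * 4 * 1 := by ring
        _ ≤ N * D * (k + 1) := Nat.mul_le_mul (Nat.mul_le_mul_left _ hD4) (by omega)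
    omega
  set δ : ℝ := (E : ℝ) / A - ((k : ℝ) + 1 - ε) with hδ
  have hδpos : 0 < δ := by
    rw [hδ, sub_pos, lt_div_iff₀ hApos]
    have hEr : (E : ℝ) = N * D * (k + 1) - 4 * N := by
      have : ((E + 4 * N : ℕ) : ℝ) = ((N * D * (k + 1) : ℕ) : ℝ) := by rw [hE']
      push_cast at this
      linarith
    have hAr : (A : ℝ) = (N + B) * D := by rw [hA]; push_cast; ring
    rw [hEr, hAr]
    have hNpos : (0 : ℝ) < N := by exact_mod_cast hN1
    have hDpos : (0 : ℝ) < D := by positivity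
    have hBnn : (0 : ℝ) ≤ B := Nat.cast_nonneg _
    have h1 : 8 * N < ε * D * N := mul_lt_mul_of_pos_right hDε hNpos
    have h2 : 2 * ((k : ℝ) + 1) * B * D < ε * N * D := mul_lt_mul_of_pos_right hNε hDpos
    nlinarith [mul_nonneg (mul_nonneg hε.le hBnn) hDpos.le]
  set K : ℝ := ((2 * D * N : ℕ) : ℝ) ^ (2 * N) * (2 * (2 * (c : ℝ) + 1)) ^ E with hK
  have hKpos : 0 < K := by
    rw [hK]
    have : 0 < 2 * D * N := by positivity
    positivity
  -- eventually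
  have ev1 : ∀ᶠ y : ℝ in Filter.atTop, 2 * (2 * (c : ℝ) + 1) ≤ y ^ ((1 : ℝ) / A) :=
    (tendsto_rpow_atTop (by positivity)).eventually_ge_atTop _
  have ev2 : ∀ᶠ y : ℝ in Filter.atTop, K < y ^ δ :=
    (tendsto_rpow_atTop hδpos).eventually_gt_atTop _
  obtain ⟨y0, hy0⟩ := Filter.eventually_atTop.1 (ev1.and ev2)
  obtain ⟨Q0, hQ0⟩ := exists_nat_ge y0
  refine ⟨Q0 + 1, ?_⟩
  intro q hq
  have hqpos : (0 : ℝ) < q := by
    have : 0 < q := by omega
    exact_mod_cast this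
  obtain ⟨h1, h2⟩ := hy0 q (hQ0.trans (by
    have : Q0 ≤ q := by omega
    exact_mod_cast this))
  set y : ℝ := (q : ℝ) ^ ((1 : ℝ) / A) with hy
  have hc0 : (0 : ℝ) < 2 * (c : ℝ) + 1 := by positivity
  have hypos : 0 < y := by linarith
  set M : ℕ := ⌊y / (2 * (c : ℝ) + 1)⌋₊ with hM
  have hM1 : (M : ℝ) ≤ y / (2 * c + 1) := Nat.floor_le (by positivity)
  have hM2 : y / (2 * (2 * (c : ℝ) + 1)) ≤ M := by
    have h3 : y / (2 * (c : ℝ) + 1) < M + 1 := Nat.lt_floor_add_one _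
    have h4 : 1 ≤ y / (2 * (2 * (c : ℝ) + 1)) := by
      rw [one_le_div (by positivity)]; exact h1
    have h5 : y / (2 * (c : ℝ) + 1) = 2 * (y / (2 * (2 * (c : ℝ) + 1))) := by
      field_simp
    rw [h5] at h3
    linarith
  have hMpos : 1 ≤ M := by
    have h4 : 1 ≤ y / (2 * (2 * (c : ℝ) + 1)) := by
      rw [one_le_div (by positivity)]; exact h1
    have : (1 : ℝ) ≤ M := h4.trans hM2
    exact_mod_cast this
  have hyA : y ^ A = q := by
    rw [hy, ← Real.rpow_natCast, ← Real.rpow_mul hqpos.le, one_div, inv_mul_cancel₀ hApos.ne',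
      Real.rpow_one]
  have hqA : (2 * (c * M) + 1) ^ ((N + B) * D) ≤ q := by
    have h3 : (2 * (c * M) + 1 : ℝ) ≤ y := by
      have h4 : (2 * (c : ℝ) + 1) * M ≤ y := by
        have := mul_le_mul_of_nonneg_left hM1 hc0.le
        rwa [mul_div_cancel₀ _ hc0.ne'] at this
      have h5 : (1 : ℝ) ≤ M := by exact_mod_cast hMpos
      nlinarith
    have h4 : ((2 * (c * M) + 1 : ℝ)) ^ A ≤ q := by
      rw [← hyA]
      exact pow_le_pow_left₀ (by positivity) h3 A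
    have h5 : (((2 * (c * M) + 1) ^ A : ℕ) : ℝ) ≤ (q : ℝ) := by
      push_cast; exact h4
    exact_mod_cast h5
  obtain ⟨C, hC1, hC2⟩ := hcode M N D q hqA
  refine ⟨C, ?_, hC2⟩
  -- size
  have hMr : (0 : ℝ) < M := by exact_mod_cast hMpos
  have h3 : (M : ℝ) ^ (E + 4 * N) ≤
      ((2 * D * N : ℕ) : ℝ) ^ (2 * N) * (M : ℝ) ^ (4 * N) * C.card := by
    have h4 : M ^ (N * D * (k + 1)) ≤ (2 * D * N * M ^ 2) ^ (2 * N) * C.card := by
      refine hC1.trans (Nat.mul_le_mul_right _ (Nat.pow_le_pow_left ?_ _))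
      have : 1 ≤ D * (N * M ^ 2) := Nat.one_le_iff_ne_zero.2 (by positivity)
      calc D * (N * M ^ 2) + 1 ≤ D * (N * M ^ 2) + D * (N * M ^ 2) := by omega
        _ = 2 * D * N * M ^ 2 := by ring
    rw [hE']
    have h5 : ((M ^ (N * D * (k + 1)) : ℕ) : ℝ) ≤
      (((2 * D * N * M ^ 2) ^ (2 * N) * C.card : ℕ) : ℝ) := by exact_mod_cast h4
    push_cast at h5 ⊢
    refine h5.trans (le_of_eq ?_)
    rw [mul_pow, ← pow_mul]
    ring
  have h4 : (M : ℝ) ^ E ≤ ((2 * D * N : ℕ) : ℝ) ^ (2 * N) * C.card := by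
    rw [pow_add] at h3
    have h5 : (M : ℝ) ^ (4 * N) * (M : ℝ) ^ E ≤
        (M : ℝ) ^ (4 * N) * (((2 * D * N : ℕ) : ℝ) ^ (2 * N) * C.card) := by linarith
    exact le_of_mul_le_mul_left h5 (by positivity)
  have h5 : (y / (2 * (2 * (c : ℝ) + 1))) ^ E ≤ (M : ℝ) ^ E :=
    pow_le_pow_left₀ (by positivity) hM2 E
  have h6 : y ^ E ≤ K * C.card := by
    rw [div_pow, div_le_iff₀ (by positivity)] at h5
    calc y ^ E ≤ (M : ℝ) ^ E * (2 * (2 * (c : ℝ) + 1)) ^ E := h5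
      _ ≤ (((2 * D * N : ℕ) : ℝ) ^ (2 * N) * C.card) * (2 * (2 * (c : ℝ) + 1)) ^ E :=
        mul_le_mul_of_nonneg_right h4 (by positivity)
      _ = K * C.card := by rw [hK]; ring
  have h7 : y ^ E = (q : ℝ) ^ ((k : ℝ) + 1 - ε) * (q : ℝ) ^ δ := by
    rw [← Real.rpow_add hqpos, hy, ← Real.rpow_natCast, ← Real.rpow_mul hqpos.le]
    congr 1
    rw [hδ]; ring
  rw [h7] at h6
  have hqp : 0 < (q : ℝ) ^ ((k : ℝ) + 1 - ε) := Real.rpow_pos_of_pos hqpos _
  have h8 : (q : ℝ) ^ ((k : ℝ) + 1 - ε) * K < K * C.card :=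
    (mul_lt_mul_of_pos_left h2 hqp).trans_le h6
  have h9 : K * (q : ℝ) ^ ((k : ℝ) + 1 - ε) < K * C.card := by linarith
  exact lt_of_mul_lt_mul_left h9 hKpos.le

/-- separated codes have the identifiable parent property -/
theorem ipp_of_sep {ℓ q k : ℕ} (hℓ : 1 ≤ ℓ) (C : Finset (Fin ℓ → Fin q))
    (hC : ∀ V ⊆ C, V.card ≤ (k + 2) ^ 2 / 4 → ∃ j, Set.InjOn (fun c : Fin ℓ → Fin q => c j) V)
    (x : Fin ℓ → Fin q)
    (hx : ∃ X : Finset (Fin ℓ → Fin q), X ⊆ C ∧ X.card ≤ k ∧ ∀ i : Fin ℓ, ∃ y ∈ X, y i = x i) :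
    ∃ c ∈ C, ∀ X : Finset (Fin ℓ → Fin q), X ⊆ C → X.card ≤ k →
      (∀ i : Fin ℓ, ∃ y ∈ X, y i = x i) → c ∈ X := by
  classical
  by_contra hcon
  push Not at hcon
  set P : Finset (Finset (Fin ℓ → Fin q)) :=
    C.powerset.filter (fun X => X.card ≤ k ∧ ∀ i : Fin ℓ, ∃ y ∈ X, y i = x i) with hP
  have hfam : (P.powerset.filter (fun F => ∀ c ∈ C, ∃ X ∈ F, c ∉ X)).Nonempty := by
    refine ⟨P, ?_⟩
    rw [Finset.mem_filter]
    refine ⟨Finset.mem_powerset_self _, ?_⟩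
    intro c hc
    obtain ⟨X, h1, h2, h3, h4⟩ := hcon c hc
    exact ⟨X, by rw [hP, Finset.mem_filter, Finset.mem_powerset]; exact ⟨h1, h2, h3⟩, h4⟩
  obtain ⟨F, hF, hmin⟩ := Finset.exists_min_image _ Finset.card hfam
  rw [Finset.mem_filter, Finset.mem_powerset] at hF
  obtain ⟨hFP, hFC⟩ := hF
  have hFmem : ∀ X ∈ F, X ⊆ C ∧ X.card ≤ k ∧ ∀ i : Fin ℓ, ∃ y ∈ X, y i = x i := by
    intro X hX
    have := hFP hX
    rw [hP, Finset.mem_filter, Finset.mem_powerset] at this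
    exact ⟨this.1, this.2.1, this.2.2⟩
  have hw : ∀ X ∈ F, ∃ y, y ∈ C ∧ ∀ X' ∈ F.erase X, y ∈ X' := by
    intro X hX
    by_contra h
    push Not at h
    have := hmin (F.erase X) (by
      rw [Finset.mem_filter, Finset.mem_powerset]
      exact ⟨(Finset.erase_subset _ _).trans hFP, fun c hc => h c hc⟩)
    have := Finset.card_erase_lt_of_mem hX
    omega
  haveI : Nonempty (Fin ℓ → Fin q) := ⟨x⟩
  choose! w hwC hw using hw
  have hw' : ∀ X ∈ F, w X ∉ X := by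
    intro X hX h
    obtain ⟨X', hX', h'⟩ := hFC (w X) (hwC X hX)
    by_cases heq : X' = X
    · rw [heq] at h'; exact h' h
    · exact h' (hw X hX X' (Finset.mem_erase.2 ⟨heq, hX'⟩))
  have hwinj : Set.InjOn w F := by
    intro X hX X' hX' h
    by_contra hne
    have h1 := hw X' hX' X (Finset.mem_erase.2 ⟨hne, hX⟩)
    rw [← h] at h1
    exact hw' X hX h1
  set Y := F.image w with hY
  have hYc : Y.card = F.card := Finset.card_image_of_injOn hwinj
  set V := F.biUnion id with hV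
  have hVC : V ⊆ C := by
    intro v hv
    rw [hV, Finset.mem_biUnion] at hv
    obtain ⟨X, hX, hvX⟩ := hv
    exact (hFmem X hX).1 hvX
  -- nonempty
  have hFne : F.Nonempty := by
    obtain ⟨X, h1, _, h3⟩ := hx
    obtain ⟨y, hy, _⟩ := h3 ⟨0, hℓ⟩
    obtain ⟨X', hX', _⟩ := hFC y (h1 hy)
    exact ⟨X', hX'⟩
  have hXY : ∀ X ∈ F, (X \ Y).card + (F.card - 1) ≤ k := by
    intro X hX
    have h1 : (Y.erase (w X)) ⊆ X ∩ Y := by
      intro y hy
      rw [Finset.mem_erase, hY, Finset.mem_image] at hy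
      obtain ⟨hne, X', hX', rfl⟩ := hy
      rw [Finset.mem_inter]
      refine ⟨hw X' hX' X (Finset.mem_erase.2 ⟨?_, hX⟩), Finset.mem_image_of_mem _ hX'⟩
      rintro rfl
      exact hne rfl
    have h2 := Finset.card_le_card h1
    rw [Finset.card_erase_of_mem (Finset.mem_image_of_mem _ hX), hYc] at h2
    have h3 := Finset.card_sdiff_add_card_inter X Y
    have h4 := (hFmem X hX).2.1
    omega
  have hVcard : V.card ≤ (k + 2) ^ 2 / 4 := by
    have h1 : V ⊆ Y ∪ F.biUnion (fun X => X \ Y) := by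
      intro v hv
      rw [hV, Finset.mem_biUnion] at hv
      obtain ⟨X, hX, hvX⟩ := hv
      rw [Finset.mem_union]
      by_cases hvY : v ∈ Y
      · exact Or.inl hvY
      · exact Or.inr (Finset.mem_biUnion.2 ⟨X, hX, Finset.mem_sdiff.2 ⟨hvX, hvY⟩⟩)
    have h2 : V.card ≤ F.card + F.card * (k + 1 - F.card) := by
      refine (Finset.card_le_card h1).trans ((Finset.card_union_le _ _).trans ?_)
      rw [hYc]
      apply Nat.add_le_add_left
      apply Finset.card_biUnion_le_card_mul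
      intro X hX
      have := hXY X hX
      have := Finset.card_pos.2 hFne
      omega
    obtain ⟨X0, hX0⟩ := hFne
    have h3 := hXY X0 hX0
    have h4 : 1 ≤ F.card := Finset.card_pos.2 ⟨X0, hX0⟩
    obtain ⟨m, hm⟩ : ∃ m, k + 1 = F.card + m := ⟨k + 1 - F.card, by omega⟩
    rw [hm, Nat.add_sub_cancel_left] at h2
    rw [Nat.le_div_iff_mul_le (by norm_num)]
    have h5 : k + 2 = F.card + (m + 1) := by omega
    rw [h5]
    have h6 : F.card + F.card * m = F.card * (m + 1) := by ring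
    rw [h6] at h2
    have h7 : 4 * (F.card * (m + 1)) ≤ (F.card + (m + 1)) ^ 2 := by
      have := four_mul_le_sq_add F.card (m + 1)
      linarith
    omega
  obtain ⟨j, hj⟩ := hC V hVC hVcard
  obtain ⟨X0, hX0⟩ := hFne
  obtain ⟨y0, hy0, hy0j⟩ := (hFmem X0 hX0).2.2 j
  have hy0V : y0 ∈ V := Finset.mem_biUnion.2 ⟨X0, hX0, hy0⟩
  obtain ⟨X1, hX1, hy1⟩ := hFC y0 (hVC hy0V)
  obtain ⟨y1, hy1', hy1j⟩ := (hFmem X1 hX1).2.2 j
  have hy1V : y1 ∈ V := Finset.mem_biUnion.2 ⟨X1, hX1, hy1'⟩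
  have : y1 = y0 := hj hy1V hy0V (by simp only; rw [hy1j, hy0j])
  exact hy1 (this ▸ hy1')

end Pool.Agent.H230R2.IPP
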