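import Mathlib
import Pool.Agent.H126R2.CDC.PackK

set_option autoImplicit false

/-!
Circuits of the `k`-fold union of a graphic matroid, and generic vectors for them.
-/

namespace Pool.Agent.H230R2.IPP

open Finset
open Pool.Agent.Helper879.ECD (sp Ind sp_mono mem_sp)

variable {ℓ u : ℕ}

/-- the vector `e_p - e_q` of an edge `(p,q)` -/
def xv (e : Fin ℓ → Fin u × Fin u) (j : Fin ℓ) : Fin u → ℚ :=
  Pi.single (e j).1 1 - Pi.single (e j).2 1

/-- rank of a set of edges -/
noncomputable def rk (e : Fin ℓ → Fin u × Fin u) (J : Finset (Fin ℓ)) : ℕ :=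
  Module.finrank ℚ (sp ℚ (xv e) J)

/-- circuits of the `k`-fold union of the graphic matroid -/
def Circ (k : ℕ) (e : Fin ℓ → Fin u × Fin u) (J : Finset (Fin ℓ)) : Prop :=
  J.card = k * rk e J + 1 ∧ ∀ J' ⊂ J, J'.card ≤ k * rk e J'

lemma rk_mono (e : Fin ℓ → Fin u × Fin u) {J J' : Finset (Fin ℓ)} (h : J ⊆ J') :
    rk e J ≤ rk e J' := Submodule.finrank_mono (sp_mono h)

lemma sum_xv (e : Fin ℓ → Fin u × Fin u) (j : Fin ℓ) : ∑ v, xv e j v = 0 := by
  simp [xv, Finset.sum_sub_distrib]

lemma rk_le (e : Fin ℓ → Fin u × Fin u) (J : Finset (Fin ℓ)) (hu : 1 ≤ u) : rk e J ≤ u - 1 := by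
  classical
  let φ : (Fin u → ℚ) →ₗ[ℚ] ℚ := ∑ v, LinearMap.proj v
  have hφ : ∀ w, φ w = ∑ v, w v := by intro w; simp [φ]
  have h1 : sp ℚ (xv e) J ≤ LinearMap.ker φ := by
    unfold sp
    rw [Submodule.span_le]
    rintro _ ⟨j, _, rfl⟩
    change φ (xv e j) = 0
    rw [hφ, sum_xv]
  have h2 := LinearMap.finrank_range_add_finrank_ker φ
  have h3 : LinearMap.range φ = ⊤ := by
    rw [LinearMap.range_eq_top]
    intro r
    refine ⟨Pi.single ⟨0, hu⟩ r, ?_⟩
    rw [hφ]; simp
  rw [h3, finrank_top] at h2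
  simp only [Module.finrank_self, Module.finrank_fintype_fun_eq_card, Fintype.card_fin] at h2
  have h4 : rk e J ≤ Module.finrank ℚ (LinearMap.ker φ) := Submodule.finrank_mono h1
  omega

lemma exists_circ (k : ℕ) (e : Fin ℓ → Fin u × Fin u) (hu : 1 ≤ u) (hℓ : k * (u - 1) + 1 ≤ ℓ) :
    ∃ J, Circ k e J := by
  classical
  have hne : (univ.filter (fun J : Finset (Fin ℓ) => k * rk e J + 1 ≤ J.card)).Nonempty := by
    refine ⟨univ, ?_⟩
    rw [Finset.mem_filter]
    refine ⟨Finset.mem_univ _, ?_⟩
    rw [Finset.card_univ, Fintype.card_fin]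
    have := Nat.mul_le_mul_left k (rk_le e univ hu)
    omega
  obtain ⟨J, hJ, hmin⟩ := Finset.exists_min_image _ Finset.card hne
  rw [Finset.mem_filter] at hJ
  have hprop : ∀ J' ⊂ J, J'.card ≤ k * rk e J' := by
    intro J' hJ'
    by_contra hcon
    push Not at hcon
    have := hmin J' (by rw [Finset.mem_filter]; exact ⟨Finset.mem_univ _, hcon⟩)
    have := Finset.card_lt_card hJ'
    omega
  refine ⟨J, ?_, hprop⟩
  have hpos : 0 < J.card := by omega
  obtain ⟨j, hj⟩ := Finset.card_pos.1 hpos
  have h1 := hprop (J.erase j) (Finset.erase_ssubset hj)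
  rw [Finset.card_erase_of_mem hj] at h1
  have h2 := Nat.mul_le_mul_left k (rk_mono e (Finset.erase_subset j J))
  omega

/-- the tensor `a_j ⊗ x_j` -/
def tv (k : ℕ) (a : Fin ℓ → Fin k → ℚ) (e : Fin ℓ → Fin u × Fin u) (j : Fin ℓ) :
    Fin k × Fin u → ℚ := fun cv => a j cv.1 * xv e j cv.2

lemma rk_erase {k : ℕ} {e : Fin ℓ → Fin u × Fin u} {J : Finset (Fin ℓ)} (h : Circ k e J)
    {j : Fin ℓ} (hj : j ∈ J) : k * rk e (J.erase j) = k * rk e J := by
  have h1 := h.2 (J.erase j) (Finset.erase_ssubset hj)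
  rw [Finset.card_erase_of_mem hj, h.1] at h1
  have h2 := Nat.mul_le_mul_left k (rk_mono e (Finset.erase_subset j J))
  omega

lemma sp_subtype (e : Fin ℓ → Fin u × Fin u) (T : Finset (Fin ℓ)) (R : Finset T) :
    sp ℚ (fun j : T => xv e j) R = sp ℚ (xv e) (R.map (Function.Embedding.subtype _)) := by
  unfold sp
  congr 1
  ext w
  simp only [Set.mem_image, Finset.mem_coe, Finset.mem_map, Function.Embedding.subtype_apply]
  constructor
  · rintro ⟨j, hj, rfl⟩
    exact ⟨j, ⟨j, hj, rfl⟩, rfl⟩
  · rintro ⟨j, ⟨i, hi, rfl⟩, rfl⟩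
    exact ⟨i, hi, rfl⟩

/-- packing of bases: colouring of `J \ {j}` by `k` colours, each class independent -/
lemma exists_colour {k : ℕ} {e : Fin ℓ → Fin u × Fin u} {J : Finset (Fin ℓ)} (h : Circ k e J)
    {j : Fin ℓ} (hj : j ∈ J) : ∃ I : Fin k → Finset (Fin ℓ),
      (∀ c c', c ≠ c' → Disjoint (I c) (I c')) ∧ (∀ c, Ind ℚ (xv e) (I c)) ∧
      ∀ i ∈ J.erase j, ∃ c, i ∈ I c := by
  classical
  set T := J.erase j with hT
  have hcard : T.card = k * rk e J := by
    rw [hT, Finset.card_erase_of_mem hj, h.1]; omega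
  have hrkT : k * rk e T = k * rk e J := rk_erase h hj
  have huniv : sp ℚ (fun j : T => xv e j) univ = sp ℚ (xv e) T := by
    rw [sp_subtype]
    congr 1
    ext i
    simp
  have hH : ∀ R : Finset T, Fintype.card (Fin k) *
      Module.finrank ℚ (sp ℚ (fun j : T => xv e j) univ) ≤
      Fintype.card (Fin k) * Module.finrank ℚ (sp ℚ (fun j : T => xv e j) R) +
        (univ.filter (fun i : T => ¬ xv e i ∈ sp ℚ (fun j : T => xv e j) R)).card := by
    intro R
    rw [Fintype.card_fin, huniv]
    -- the flat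
    set R' : Finset (Fin ℓ) := T.filter (fun i => xv e i ∈ sp ℚ (fun j : T => xv e j) R) with hR'
    have h0 : sp ℚ (xv e) R' = sp ℚ (fun j : T => xv e j) R := by
      apply le_antisymm
      · rw [sp, Submodule.span_le]
        rintro _ ⟨i, hi, rfl⟩
        rw [Finset.mem_coe, hR', Finset.mem_filter] at hi
        exact hi.2
      · rw [sp_subtype]
        apply sp_mono
        intro i hi
        rw [Finset.mem_map] at hi
        obtain ⟨i', hi', rfl⟩ := hi
        rw [hR', Finset.mem_filter]
        exact ⟨i'.2, mem_sp hi'⟩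
    have h1 : rk e R' = Module.finrank ℚ (sp ℚ (fun j : T => xv e j) R) := by
      unfold rk
      rw [h0]
    have hR'J : R' ⊂ J := by
      apply Finset.ssubset_of_subset_of_ssubset (Finset.filter_subset _ _)
      exact Finset.erase_ssubset hj
    have h2 := h.2 R' hR'J
    have h3 : (univ.filter (fun i : T => ¬ xv e i ∈ sp ℚ (fun j : T => xv e j) R)).card
        + R'.card = T.card := by
      have h4 : (univ.filter (fun i : T => ¬ xv e i ∈ sp ℚ (fun j : T => xv e j) R)).card
          = (T.filter (fun i => ¬ xv e i ∈ sp ℚ (fun j : T => xv e j) R)).card := by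
        rw [← Finset.card_map (Function.Embedding.subtype _)]
        congr 1
        ext i
        simp only [Finset.mem_map, Finset.mem_filter, Finset.mem_univ, true_and,
          Function.Embedding.subtype_apply]
        constructor
        · rintro ⟨i', hi', rfl⟩
          exact ⟨i'.2, hi'⟩
        · rintro ⟨hi, hi'⟩
          exact ⟨⟨i, hi⟩, hi', rfl⟩
      rw [h4, hR', add_comm]
      exact Finset.card_filter_add_card_filter_not _
    rw [← h1]
    have : k * Module.finrank ℚ (sp ℚ (xv e) T) = k * rk e J := hrkT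
    omega
  obtain ⟨I, hI1, hI2⟩ := Pool.Agent.H126R2.CDC.packK (F := ℚ) (K := Fin k)
    (x := fun j : T => xv e j) hH
  -- sizes
  have hr : ∀ c, rk e T ≤ (I c).card := by
    intro c
    have h1 : rk e T = Module.finrank ℚ (sp ℚ (fun j : T => xv e j) (I c)) := by
      rw [hI2 c, huniv]; rfl
    rw [h1]
    unfold sp
    have := finrank_span_finset_le_card (R := ℚ) ((I c).image (fun j : T => xv e j))
    rw [Finset.coe_image] at this
    exact this.trans Finset.card_image_le
  have hsum : ∑ c, (I c).card ≤ T.card := by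
    rw [← Finset.card_biUnion (by intro c _ c' _ hcc; exact hI1 c c' hcc)]
    have := Finset.card_le_univ (univ.biUnion I)
    simpa using this
  have hsum2 : ∑ c : Fin k, rk e T = k * rk e T := by
    rw [Finset.sum_const, Finset.card_univ, Fintype.card_fin, smul_eq_mul]
  have heq : ∀ c, (I c).card = rk e T := by
    intro c
    by_contra hcon
    have : ∑ c : Fin k, rk e T < ∑ c, (I c).card := by
      apply Finset.sum_lt_sum
      · intro c _; exact hr c
      · exact ⟨c, Finset.mem_univ _, lt_of_le_of_ne (hr c) (Ne.symm hcon)⟩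
    omega
  have hcover : univ.biUnion I = univ := by
    rw [← Finset.card_eq_iff_eq_univ]
    rw [Finset.card_biUnion (by intro c _ c' _ hcc; exact hI1 c c' hcc)]
    rw [Finset.sum_congr rfl (fun c _ => heq c), hsum2, Fintype.card_coe, hcard, hrkT]
  refine ⟨fun c => (I c).map (Function.Embedding.subtype _), ?_, ?_, ?_⟩
  · intro c c' hcc
    rw [Finset.disjoint_map]
    exact hI1 c c' hcc
  · intro c
    unfold Ind
    have h1 : LinearIndepOn ℚ (fun j : T => xv e j) (I c : Set T) := by
      rw [LinearIndepOn]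
      rw [linearIndependent_iff_card_eq_finrank_span]
      have h2 : Set.finrank ℚ (Set.range fun i : (I c : Set T) => xv e (i : T)) = rk e T := by
        unfold Set.finrank
        have h3 : (Set.range fun i : (I c : Set T) => xv e (i : T)) =
            (fun j : T => xv e j) '' (I c : Set T) := by
          rw [Set.image_eq_range]
        rw [h3]
        have := hI2 c
        unfold sp at this huniv
        unfold rk sp
        rw [this, huniv]
      rw [h2]
      simp [heq c]
    have h4 : ((I c).map (Function.Embedding.subtype _) : Set (Fin ℓ)) =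
        (fun j : T => (j : Fin ℓ)) '' (I c : Set T) := by
      ext i; simp
    rw [Finset.coe_map]
    exact (LinearIndepOn.image_of_comp (Function.Embedding.subtype _) (xv e) h1)
  · intro i hi
    have : (⟨i, hi⟩ : T) ∈ univ.biUnion I := by rw [hcover]; exact Finset.mem_univ _
    rw [Finset.mem_biUnion] at this
    obtain ⟨c, _, hc⟩ := this
    exact ⟨c, Finset.mem_map.2 ⟨⟨i, hi⟩, hc, rfl⟩⟩

end Pool.Agent.H230R2.IPP
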