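import Pool.Agent.H230R2.IPP.Sep2
import Pool.Agent.H230R2.IPP.Asymp

set_option autoImplicit false

/-!
Codes in which few words have few coordinates with collisions.
-/

namespace Pool.Agent.H230R2.IPP

open Finset Polynomial

open Classical in
/-- coordinates in which two different words of `V` agree -/
noncomputable def coll {ℓ q : ℕ} (V : Finset (Fin ℓ → Fin q)) : Finset (Fin ℓ) :=
  univ.filter (fun j => ∃ c ∈ V, ∃ c' ∈ V, c ≠ c' ∧ c j = c' j)

theorem code_exists_sub (ℓ u k : ℕ) (hu : 2 ≤ u) (hℓ : k + 1 ≤ ℓ) :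
    ∃ Cst Bd : ℕ, ∀ M N D q : ℕ,
      (2 * (Cst * M) + 1) ^ ((N + Bd) * D) ≤ q →
      ∃ C : Finset (Fin ℓ → Fin q),
        M ^ (N * D * (k + 1)) ≤ (D * (N * M ^ 2) + 1) ^ (2 * N) * C.card ∧
        ∀ V ⊆ C, V.Nonempty → V.card ≤ u → (coll V).card ≤ k * (V.card - 1) := by
  classical
  obtain ⟨a, b, hab⟩ := separation_sub ℓ u k
  refine ⟨cst a b, bd b, ?_⟩
  intro M N D q hq
  set H := cst a b * M with hH
  set L := N + bd b with hL
  obtain ⟨ι⟩ : Nonempty ((Fin D → Fin L → Fin (2 * H + 1)) ↪ Fin q) := by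
    rw [Function.Embedding.nonempty_iff_card_le]
    simp only [Fintype.card_fun, Fintype.card_fin]
    rw [← pow_mul]
    exact hq
  -- the words
  let Ψ : Par k D N M → Fin ℓ → Fin q := fun w j => ι (fun i => enc L H (frm a b j w i))
  have hΨ : ∀ w w' j, Ψ w j = Ψ w' j → ∀ i, frm a b j w i = frm a b j w' i := by
    intro w w' j h i
    have h1 := congrFun (ι.injective h) i
    apply enc_inj L H _ _ _ _ h1
    · intro n; exact_mod_cast frm_coeff_le a b j w i n
    · intro n; exact_mod_cast frm_coeff_le a b j w' i n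
    · intro n hn; exact frm_coeff_zero a b j w i hn
    · intro n hn; exact frm_coeff_zero a b j w' i hn
  obtain ⟨y, hy⟩ := exists_fiber (sdig : (Fin D → Fin N → Fin M) → _)
  set S : Finset (Fin D → Fin N → Fin M) := univ.filter (fun s => sdig s = y) with hS
  set W : Finset (Par k D N M) := univ ×ˢ S with hW
  have hsph : ∀ w ∈ W, ∀ w' ∈ W, sph w.2 = sph w'.2 := by
    intro w hw w' hw'
    rw [hW, Finset.mem_product, hS, Finset.mem_filter] at hw hw'
    exact sdig_inj (hw.2.2.trans hw'.2.2.symm)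
  -- key: families of parameters with agreements
  have key : ∀ (g : Fin u → Par k D N M) (e : Fin ℓ → Fin u × Fin u) (T : Finset (Fin ℓ))
      (S : Finset (Fin u)), S.Nonempty → (∀ j ∈ T, (e j).1 ∈ S ∧ (e j).2 ∈ S) →
      k * (S.card - 1) + 1 ≤ T.card → (∀ v, g v ∈ W) →
      (∀ j ∈ T, Ψ (g (e j).1) j = Ψ (g (e j).2) j) → ∃ j ∈ T, g (e j).1 = g (e j).2 := by
    intro g e T S hSne hS hT hg he
    have hr : k * rk e T + 1 ≤ T.card := by
      have := Nat.mul_le_mul_left k (rk_le_of_support e T S hSne hS)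
      omega
    obtain ⟨j, hjT, hj1, hj2⟩ := hab D (fun v c i => pl ((g v).1 c i))
      (fun v i => pl ((g v).2 i))
      (sph (g ⟨0, by omega⟩).2) e T hr (fun v => hsph _ (hg v) _ (hg _))
      (fun j hj i => hΨ _ _ j (he j hj) i)
    refine ⟨j, hjT, Prod.ext ?_ ?_⟩
    · funext c i
      exact pl_inj (congrFun (congrFun hj1 c) i)
    · funext i
      exact pl_inj (congrFun hj2 i)
  have hinj : Set.InjOn Ψ W := by
    intro w hw w' hw' h
    obtain ⟨j, _, hj⟩ := key (fun v => if (v : ℕ) = 0 then w else w')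
      (fun _ => (⟨0, by omega⟩, ⟨1, by omega⟩)) univ
      {(⟨0, by omega⟩ : Fin u), (⟨1, by omega⟩ : Fin u)} ⟨⟨0, by omega⟩, by simp⟩ (by simp) (by
        rw [Finset.card_pair (by simp), Finset.card_univ, Fintype.card_fin]; omega) (by
        intro v
        by_cases hv : (v : ℕ) = 0
        · simp only [hv, if_true]; exact hw
        · simp only [hv, if_false]; exact hw') (by
        intro j _
        simp only [if_true, one_ne_zero, if_false]
        rw [h])
    simpa using hj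
  refine ⟨W.image Ψ, ?_, ?_⟩
  · rw [Finset.card_image_of_injOn hinj, hW, Finset.card_product]
    have h1 : Fintype.card (Fin D → Fin N → Fin M) = M ^ (N * D) := by
      simp only [Fintype.card_fun, Fintype.card_fin, ← pow_mul]
    have h2 : (univ : Finset (Fin k → Fin D → Fin N → Fin M)).card = M ^ (N * D * k) := by
      simp only [Finset.card_univ, Fintype.card_fun, Fintype.card_fin, ← pow_mul]
    have h3 : Fintype.card (Fin (2 * N) → Fin (D * (N * M ^ 2) + 1)) =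
        (D * (N * M ^ 2) + 1) ^ (2 * N) := by
      simp only [Fintype.card_fun, Fintype.card_fin]
    rw [h2]
    rw [h1, h3] at hy
    calc M ^ (N * D * (k + 1)) = M ^ (N * D * k) * M ^ (N * D) := by
          rw [← pow_add]; congr 1
      _ ≤ M ^ (N * D * k) * ((D * (N * M ^ 2) + 1) ^ (2 * N) * S.card) :=
          Nat.mul_le_mul_left _ hy
      _ = _ := by ring
  · intro V hV hVne hVu
    by_contra hcon
    push Not at hcon
    obtain ⟨x0, hx0⟩ := hVne
    have h1 : ∀ j, ∃ c c', c ∈ V ∧ c' ∈ V ∧ (j ∈ coll V → c j = c' j ∧ c ≠ c') := by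
      intro j
      by_cases hj : j ∈ coll V
      · have hj' := hj
        unfold coll at hj'
        rw [Finset.mem_filter] at hj'
        obtain ⟨_, c, hc, c', hc', h2, h3⟩ := hj'
        exact ⟨c, c', hc, hc', fun _ => ⟨h3, h2⟩⟩
      · exact ⟨x0, x0, hx0, hx0, fun h => absurd h hj⟩
    choose c c' hc hc' heq using h1
    obtain ⟨φ⟩ : Nonempty (V ↪ Fin u) := by
      rw [Function.Embedding.nonempty_iff_card_le]
      simpa using hVu
    have hlift : ∀ x : V, ∃ w ∈ W, Ψ w = x := by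
      intro x
      exact Finset.mem_image.1 (hV x.2)
    choose lift hlift1 hlift2 using hlift
    let g : Fin u → Par k D N M := fun v =>
      if h : ∃ x : V, φ x = v then lift h.choose else lift ⟨x0, hx0⟩
    have hg : ∀ v, g v ∈ W := by
      intro v
      by_cases h : ∃ x : V, φ x = v
      · simp only [g, h, dite_true]
        exact hlift1 _
      · simp only [g, h, dite_false]
        exact hlift1 _
    have hgφ : ∀ x : V, g (φ x) = lift x := by
      intro x
      have h : ∃ x' : V, φ x' = φ x := ⟨x, rfl⟩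
      simp only [g, h, dite_true]
      rw [φ.injective h.choose_spec]
    obtain ⟨j, hjT, hj⟩ := key g (fun j => (φ ⟨c j, hc j⟩, φ ⟨c' j, hc' j⟩)) (coll V)
      (univ.map φ) ⟨φ ⟨x0, hx0⟩, Finset.mem_map_of_mem _ (Finset.mem_univ _)⟩
      (fun j _ => ⟨Finset.mem_map_of_mem _ (Finset.mem_univ _),
        Finset.mem_map_of_mem _ (Finset.mem_univ _)⟩)
      (by
        rw [Finset.card_map, Finset.card_univ, Fintype.card_coe]
        omega) hg (by
      intro j hj
      simp only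
      rw [hgφ, hgφ, hlift2, hlift2]
      exact (heq j hj).1)
    simp only at hj
    rw [hgφ, hgφ] at hj
    apply (heq j hjT).2
    have h5 := hlift2 ⟨c j, hc j⟩
    have h6 := hlift2 ⟨c' j, hc' j⟩
    simp only at h5 h6
    rw [← h5, ← h6, hj]

theorem code_asymp_sub (ℓ u k : ℕ) (hu : 2 ≤ u) (hℓ : k + 1 ≤ ℓ) (ε : ℝ) (hε : 0 < ε) :
    ∃ Q : ℕ, ∀ q : ℕ, Q ≤ q → ∃ C : Finset (Fin ℓ → Fin q),
      (q : ℝ) ^ ((k : ℝ) + 1 - ε) < C.card ∧
      ∀ V ⊆ C, V.Nonempty → V.card ≤ u → (coll V).card ≤ k * (V.card - 1) := by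
  obtain ⟨c, B, hcode⟩ := code_exists_sub ℓ u k hu hℓ
  -- the parameters
  obtain ⟨D0, hD0⟩ := exists_nat_gt (8 / ε)
  set D : ℕ := D0 + 4 with hD
  have hD4 : 4 ≤ D := by omega
  have hDε : 8 < ε * D := by
    have h1 : (8 : ℝ) / ε < D := hD0.trans_le (by rw [hD]; push_cast; linarith)
    rw [div_lt_iff₀ hε] at h1
    linarith
  obtain ⟨N0, hN0⟩ := exists_nat_gt (2 * ((k : ℝ) + 1) * B / ε)
  set N : ℕ := N0 + 1 with hN
  have hN1 : 1 ≤ N := by omega
  have hNε : 2 * ((k : ℝ) + 1) * B < ε * N := by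
    have h1 : 2 * ((k : ℝ) + 1) * B / ε < N := hN0.trans_le (by rw [hN]; push_cast; linarith)
    rw [div_lt_iff₀ hε] at h1
    linarith
  set A : ℕ := (N + B) * D with hA
  have hA1 : 1 ≤ A := by
    rw [hA]; exact Nat.one_le_iff_ne_zero.2 (by positivity)
  have hApos : (0 : ℝ) < A := by exact_mod_cast hA1
  set E : ℕ := N * D * (k + 1) - 4 * N with hE
  have hE' : E + 4 * N = N * D * (k + 1) := by
    have : 4 * N ≤ N * D * (k + 1) := by
      calc 4 * N = N * 4 * 1 := by ring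
        _ ≤ N * D * (k + 1) := Nat.mul_le_mul (Nat.mul_le_mul_left _ hD4) (by omega)
    omega
  set δ : ℝ := (E : ℝ) / A - ((k : ℝ) + 1 - ε) with hδ
  have hδpos : 0 < δ := by
    rw [hδ, sub_pos, lt_div_iff₀ hApos]
    have hEr : (E : ℝ) = N * D * (k + 1) - 4 * N := by
      have : ((E + 4 * N : ℕ) : ℝ) = ((N * D * (k + 1) : ℕ) : ℝ) := by rw [hE']
      push_cast at this
      linarith
    have hAr : (A : ℝ) = (N + B) * D := by rw [hA]; push_cast; ring
    rw [hEr, hAr]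
    have hNpos : (0 : ℝ) < N := by exact_mod_cast hN1
    have hDpos : (0 : ℝ) < D := by positivity
    have hBnn : (0 : ℝ) ≤ B := Nat.cast_nonneg _
    have h1 : 8 * N < ε * D * N := mul_lt_mul_of_pos_right hDε hNpos
    have h2 : 2 * ((k : ℝ) + 1) * B * D < ε * N * D := mul_lt_mul_of_pos_right hNε hDpos
    nlinarith [mul_nonneg (mul_nonneg hε.le hBnn) hDpos.le]
  set K : ℝ := ((2 * D * N : ℕ) : ℝ) ^ (2 * N) * (2 * (2 * (c : ℝ) + 1)) ^ E with hK
  have hKpos : 0 < K := by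
    rw [hK]
    have : 0 < 2 * D * N := by positivity
    positivity
  -- eventually
  have ev1 : ∀ᶠ y : ℝ in Filter.atTop, 2 * (2 * (c : ℝ) + 1) ≤ y ^ ((1 : ℝ) / A) :=
    (tendsto_rpow_atTop (by positivity)).eventually_ge_atTop _
  have ev2 : ∀ᶠ y : ℝ in Filter.atTop, K < y ^ δ :=
    (tendsto_rpow_atTop hδpos).eventually_gt_atTop _
  obtain ⟨y0, hy0⟩ := Filter.eventually_atTop.1 (ev1.and ev2)
  obtain ⟨Q0, hQ0⟩ := exists_nat_ge y0
  refine ⟨Q0 + 1, ?_⟩
  intro q hq
  have hqpos : (0 : ℝ) < q := by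
    have : 0 < q := by omega
    exact_mod_cast this
  obtain ⟨h1, h2⟩ := hy0 q (hQ0.trans (by
    have : Q0 ≤ q := by omega
    exact_mod_cast this))
  set y : ℝ := (q : ℝ) ^ ((1 : ℝ) / A) with hy
  have hc0 : (0 : ℝ) < 2 * (c : ℝ) + 1 := by positivity
  have hypos : 0 < y := by linarith
  set M : ℕ := ⌊y / (2 * (c : ℝ) + 1)⌋₊ with hM
  have hM1 : (M : ℝ) ≤ y / (2 * c + 1) := Nat.floor_le (by positivity)
  have hM2 : y / (2 * (2 * (c : ℝ) + 1)) ≤ M := by
    have h3 : y / (2 * (c : ℝ) + 1) < M + 1 := Nat.lt_floor_add_one _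
    have h4 : 1 ≤ y / (2 * (2 * (c : ℝ) + 1)) := by
      rw [one_le_div (by positivity)]; exact h1
    have h5 : y / (2 * (c : ℝ) + 1) = 2 * (y / (2 * (2 * (c : ℝ) + 1))) := by
      field_simp
    rw [h5] at h3
    linarith
  have hMpos : 1 ≤ M := by
    have h4 : 1 ≤ y / (2 * (2 * (c : ℝ) + 1)) := by
      rw [one_le_div (by positivity)]; exact h1
    have : (1 : ℝ) ≤ M := h4.trans hM2
    exact_mod_cast this
  have hyA : y ^ A = q := by
    rw [hy, ← Real.rpow_natCast, ← Real.rpow_mul hqpos.le, one_div, inv_mul_cancel₀ hApos.ne',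
      Real.rpow_one]
  have hqA : (2 * (c * M) + 1) ^ ((N + B) * D) ≤ q := by
    have h3 : (2 * (c * M) + 1 : ℝ) ≤ y := by
      have h4 : (2 * (c : ℝ) + 1) * M ≤ y := by
        have := mul_le_mul_of_nonneg_left hM1 hc0.le
        rwa [mul_div_cancel₀ _ hc0.ne'] at this
      have h5 : (1 : ℝ) ≤ M := by exact_mod_cast hMpos
      nlinarith
    have h4 : ((2 * (c * M) + 1 : ℝ)) ^ A ≤ q := by
      rw [← hyA]
      exact pow_le_pow_left₀ (by positivity) h3 A
    have h5 : (((2 * (c * M) + 1) ^ A : ℕ) : ℝ) ≤ (q : ℝ) := by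
      push_cast; exact h4
    exact_mod_cast h5
  obtain ⟨C, hC1, hC2⟩ := hcode M N D q hqA
  refine ⟨C, ?_, hC2⟩
  -- size
  have hMr : (0 : ℝ) < M := by exact_mod_cast hMpos
  have h3 : (M : ℝ) ^ (E + 4 * N) ≤
      ((2 * D * N : ℕ) : ℝ) ^ (2 * N) * (M : ℝ) ^ (4 * N) * C.card := by
    have h4 : M ^ (N * D * (k + 1)) ≤ (2 * D * N * M ^ 2) ^ (2 * N) * C.card := by
      refine hC1.trans (Nat.mul_le_mul_right _ (Nat.pow_le_pow_left ?_ _))
      have : 1 ≤ D * (N * M ^ 2) := Nat.one_le_iff_ne_zero.2 (by positivity)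
      calc D * (N * M ^ 2) + 1 ≤ D * (N * M ^ 2) + D * (N * M ^ 2) := by omega
        _ = 2 * D * N * M ^ 2 := by ring
    rw [hE']
    have h5 : ((M ^ (N * D * (k + 1)) : ℕ) : ℝ) ≤
      (((2 * D * N * M ^ 2) ^ (2 * N) * C.card : ℕ) : ℝ) := by exact_mod_cast h4
    push_cast at h5 ⊢
    refine h5.trans (le_of_eq ?_)
    rw [mul_pow, ← pow_mul]
    ring
  have h4 : (M : ℝ) ^ E ≤ ((2 * D * N : ℕ) : ℝ) ^ (2 * N) * C.card := by
    rw [pow_add] at h3
    have h5 : (M : ℝ) ^ (4 * N) * (M : ℝ) ^ E ≤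
        (M : ℝ) ^ (4 * N) * (((2 * D * N : ℕ) : ℝ) ^ (2 * N) * C.card) := by linarith
    exact le_of_mul_le_mul_left h5 (by positivity)
  have h5 : (y / (2 * (2 * (c : ℝ) + 1))) ^ E ≤ (M : ℝ) ^ E :=
    pow_le_pow_left₀ (by positivity) hM2 E
  have h6 : y ^ E ≤ K * C.card := by
    rw [div_pow, div_le_iff₀ (by positivity)] at h5
    calc y ^ E ≤ (M : ℝ) ^ E * (2 * (2 * (c : ℝ) + 1)) ^ E := h5
      _ ≤ (((2 * D * N : ℕ) : ℝ) ^ (2 * N) * C.card) * (2 * (2 * (c : ℝ) + 1)) ^ E :=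
        mul_le_mul_of_nonneg_right h4 (by positivity)
      _ = K * C.card := by rw [hK]; ring
  have h7 : y ^ E = (q : ℝ) ^ ((k : ℝ) + 1 - ε) * (q : ℝ) ^ δ := by
    rw [← Real.rpow_add hqpos, hy, ← Real.rpow_natCast, ← Real.rpow_mul hqpos.le]
    congr 1
    rw [hδ]; ring
  rw [h7] at h6
  have hqp : 0 < (q : ℝ) ^ ((k : ℝ) + 1 - ε) := Real.rpow_pos_of_pos hqpos _
  have h8 : (q : ℝ) ^ ((k : ℝ) + 1 - ε) * K < K * C.card :=
    (mul_lt_mul_of_pos_left h2 hqp).trans_le h6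
  have h9 : K * (q : ℝ) ^ ((k : ℝ) + 1 - ε) < K * C.card := by linarith
  exact lt_of_mul_lt_mul_left h9 hKpos.le


end Pool.Agent.H230R2.IPP
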