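import Pool.Agent.H230R2.IPP.Sep

set_option autoImplicit false

/-!
Codes over `Fin q` from the separation theorem, with exact counting.
-/

namespace Pool.Agent.H230R2.IPP

open Finset Polynomial

/-- polynomial with given digits -/
noncomputable def pl {N M : ℕ} (f : Fin N → Fin M) : ℤ[X] :=
  ∑ n, C ((f n : ℕ) : ℤ) * X ^ (n : ℕ)

lemma pl_coeff {N M : ℕ} (f : Fin N → Fin M) (m : ℕ) :
    (pl f).coeff m = if h : m < N then ((f ⟨m, h⟩ : ℕ) : ℤ) else 0 := by
  unfold pl
  rw [finsetSum_coeff]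
  simp only [coeff_C_mul, coeff_X_pow]
  split_ifs with h
  · rw [Finset.sum_eq_single ⟨m, h⟩]
    · simp
    · intro b _ hb
      have : m ≠ (b : ℕ) := by
        rintro rfl
        exact hb rfl
      simp [this]
    · intro h'; exact absurd (Finset.mem_univ _) h'
  · apply Finset.sum_eq_zero
    intro b _
    have : m ≠ (b : ℕ) := by
      rintro rfl
      exact h b.2
    simp [this]

lemma pl_inj {N M : ℕ} : Function.Injective (pl : (Fin N → Fin M) → ℤ[X]) := by
  intro f g h
  funext n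
  have h1 := congrArg (fun p => p.coeff (n : ℕ)) h
  simp only [pl_coeff, n.2, dite_true, Fin.eta] at h1
  exact Fin.ext (by exact_mod_cast h1)

lemma pl_coeff_nonneg {N M : ℕ} (f : Fin N → Fin M) (m : ℕ) : 0 ≤ (pl f).coeff m := by
  rw [pl_coeff]; split_ifs <;> simp

lemma pl_coeff_le {N M : ℕ} (f : Fin N → Fin M) (m : ℕ) : (pl f).coeff m ≤ M := by
  rw [pl_coeff]; split_ifs with h
  · exact_mod_cast (f ⟨m, h⟩).2.le
  · simp

lemma pl_coeff_zero {N M : ℕ} (f : Fin N → Fin M) {m : ℕ} (h : N ≤ m) : (pl f).coeff m = 0 := by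
  rw [pl_coeff, dif_neg (not_lt.2 h)]

/-- `L^1`-norm of a polynomial -/
noncomputable def nrm (b : ℤ[X]) : ℤ := ∑ i ∈ b.support, |b.coeff i|

lemma nrm_nonneg (b : ℤ[X]) : 0 ≤ nrm b := Finset.sum_nonneg (fun _ _ => abs_nonneg _)

lemma sum_le_nrm (b : ℤ[X]) (s : Finset ℕ) : ∑ i ∈ s, |b.coeff i| ≤ nrm b := by
  classical
  have h1 : ∑ i ∈ s, |b.coeff i| = ∑ i ∈ s ∩ b.support, |b.coeff i| := by
    symm
    apply Finset.sum_subset Finset.inter_subset_left
    intro i hi hi'
    have : i ∉ b.support := fun h => hi' (Finset.mem_inter.2 ⟨hi, h⟩)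
    rw [notMem_support_iff.1 this, abs_zero]
  rw [h1]
  exact Finset.sum_le_sum_of_subset_of_nonneg Finset.inter_subset_right
    (fun _ _ _ => abs_nonneg _)

lemma abs_coeff_mul_le (b p : ℤ[X]) (H : ℤ) (hp : ∀ m, |p.coeff m| ≤ H) (n : ℕ) :
    |(b * p).coeff n| ≤ nrm b * H := by
  have hH : 0 ≤ H := (abs_nonneg _).trans (hp 0)
  rw [coeff_mul, Finset.Nat.sum_antidiagonal_eq_sum_range_succ (fun i j => b.coeff i * p.coeff j)]
  calc |∑ i ∈ range n.succ, b.coeff i * p.coeff (n - i)|
      ≤ ∑ i ∈ range n.succ, |b.coeff i * p.coeff (n - i)| := Finset.abs_sum_le_sum_abs _ _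
    _ ≤ ∑ i ∈ range n.succ, |b.coeff i| * H := by
        apply Finset.sum_le_sum
        intro i _
        rw [abs_mul]
        exact mul_le_mul_of_nonneg_left (hp _) (abs_nonneg _)
    _ = (∑ i ∈ range n.succ, |b.coeff i|) * H := by rw [Finset.sum_mul]
    _ ≤ nrm b * H := mul_le_mul_of_nonneg_right (sum_le_nrm b _) hH

lemma coeff_mul_zero (b p : ℤ[X]) {N n : ℕ} (hp : ∀ m, N ≤ m → p.coeff m = 0)
    (hn : N + b.natDegree + 1 ≤ n) : (b * p).coeff n = 0 := by
  rw [coeff_mul]
  apply Finset.sum_eq_zero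
  intro ij hij
  rw [Finset.HasAntidiagonal.mem_antidiagonal] at hij
  by_cases h : N ≤ ij.2
  · rw [hp _ h, mul_zero]
  · rw [coeff_eq_zero_of_natDegree_lt (by omega), zero_mul]

section Code

variable {ℓ k : ℕ} (a : Fin ℓ → Fin k → ℤ) (b : Fin ℓ → ℤ[X])

/-- parameters -/
abbrev Par (k D N M : ℕ) : Type := (Fin k → Fin D → Fin N → Fin M) × (Fin D → Fin N → Fin M)

/-- the linear forms -/
noncomputable def frm {D N M : ℕ} (j : Fin ℓ) (w : Par k D N M) (i : Fin D) : ℤ[X] :=
  ∑ c, C (a j c) * pl (w.1 c i) + b j * pl (w.2 i)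

/-- bound for the coefficients -/
noncomputable def cst : ℕ := (∑ j, (∑ c, |a j c| + nrm (b j))).toNat + 1

/-- bound for the degrees -/
noncomputable def bd : ℕ := ∑ j, (b j).natDegree + 1

lemma le_cst (j : Fin ℓ) : ∑ c, |a j c| + nrm (b j) ≤ cst a b := by
  unfold cst
  have h1 : ∀ j ∈ (univ : Finset (Fin ℓ)), 0 ≤ ∑ c, |a j c| + nrm (b j) := by
    intro j _
    exact add_nonneg (Finset.sum_nonneg (fun _ _ => abs_nonneg _)) (nrm_nonneg _)
  have h2 := Finset.single_le_sum h1 (Finset.mem_univ j)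
  have h3 : 0 ≤ ∑ j, (∑ c, |a j c| + nrm (b j)) := Finset.sum_nonneg h1
  push_cast
  rw [Int.toNat_of_nonneg h3]
  linarith

lemma frm_coeff_le {D N M : ℕ} (j : Fin ℓ) (w : Par k D N M) (i : Fin D) (n : ℕ) :
    |(frm a b j w i).coeff n| ≤ cst a b * M := by
  unfold frm
  rw [coeff_add, finsetSum_coeff]
  have hpl : ∀ (f : Fin N → Fin M) m, |(pl f).coeff m| ≤ (M : ℤ) := by
    intro f m
    rw [abs_of_nonneg (pl_coeff_nonneg f m)]
    exact pl_coeff_le f m
  have h1 : |∑ c, (C (a j c) * pl (w.1 c i)).coeff n| ≤ (∑ c, |a j c|) * M := by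
    calc |∑ c, (C (a j c) * pl (w.1 c i)).coeff n|
        ≤ ∑ c, |(C (a j c) * pl (w.1 c i)).coeff n| := Finset.abs_sum_le_sum_abs _ _
      _ ≤ ∑ c, |a j c| * M := by
          apply Finset.sum_le_sum
          intro c _
          rw [coeff_C_mul, abs_mul]
          exact mul_le_mul_of_nonneg_left (hpl _ _) (abs_nonneg _)
      _ = _ := by rw [Finset.sum_mul]
  have h2 := abs_coeff_mul_le (b j) (pl (w.2 i)) M (hpl _) n
  calc |∑ c, (C (a j c) * pl (w.1 c i)).coeff n + (b j * pl (w.2 i)).coeff n|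
      ≤ |∑ c, (C (a j c) * pl (w.1 c i)).coeff n| + |(b j * pl (w.2 i)).coeff n| := abs_add_le _ _
    _ ≤ (∑ c, |a j c|) * M + nrm (b j) * M := add_le_add h1 h2
    _ = (∑ c, |a j c| + nrm (b j)) * M := by ring
    _ ≤ cst a b * M := mul_le_mul_of_nonneg_right (le_cst a b j) (by positivity)

lemma frm_coeff_zero {D N M : ℕ} (j : Fin ℓ) (w : Par k D N M) (i : Fin D) {n : ℕ}
    (hn : N + bd b ≤ n) : (frm a b j w i).coeff n = 0 := by
  unfold frm
  have hbd : (b j).natDegree + 1 ≤ bd b := by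
    unfold bd
    have := Finset.single_le_sum (f := fun j => (b j).natDegree) (fun _ _ => Nat.zero_le _)
      (Finset.mem_univ j)
    omega
  rw [coeff_add, finsetSum_coeff, coeff_mul_zero (b j) (pl (w.2 i)) (N := N)
    (fun m hm => pl_coeff_zero _ hm) (by omega), add_zero]
  apply Finset.sum_eq_zero
  intro c _
  rw [coeff_C_mul, pl_coeff_zero _ (by omega), mul_zero]

/-- encoding of polynomials with bounded coefficients -/
def enc (L H : ℕ) (g : ℤ[X]) : Fin L → Fin (2 * H + 1) :=
  fun n => ⟨min (g.coeff n + H).toNat (2 * H), by omega⟩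

lemma enc_inj (L H : ℕ) {g g' : ℤ[X]} (hg : ∀ n, |g.coeff n| ≤ H) (hg' : ∀ n, |g'.coeff n| ≤ H)
    (h0 : ∀ n, L ≤ n → g.coeff n = 0) (h0' : ∀ n, L ≤ n → g'.coeff n = 0)
    (h : enc L H g = enc L H g') : g = g' := by
  ext n
  by_cases hn : n < L
  · have h1 := congrFun h ⟨n, hn⟩
    simp only [enc, Fin.mk.injEq] at h1
    have h2 := abs_le.1 (hg n)
    have h3 := abs_le.1 (hg' n)
    omega
  · rw [h0 n (by omega), h0' n (by omega)]

end Code

lemma sq_coeff_le {N M : ℕ} (f : Fin N → Fin M) (n : ℕ) :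
    0 ≤ ((pl f) ^ 2).coeff n ∧ ((pl f) ^ 2).coeff n ≤ (N * M ^ 2 : ℕ) := by
  rw [sq, coeff_mul,
    Finset.Nat.sum_antidiagonal_eq_sum_range_succ (fun i j => (pl f).coeff i * (pl f).coeff j)]
  constructor
  · exact Finset.sum_nonneg (fun i _ => mul_nonneg (pl_coeff_nonneg f _) (pl_coeff_nonneg f _))
  · calc ∑ i ∈ range n.succ, (pl f).coeff i * (pl f).coeff (n - i)
        ≤ ∑ i ∈ range n.succ, if i < N then ((M : ℤ) ^ 2) else 0 := by
          apply Finset.sum_le_sum
          intro i _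
          split_ifs with h
          · rw [sq]
            exact mul_le_mul (pl_coeff_le f _) (pl_coeff_le f _) (pl_coeff_nonneg f _)
              (by positivity)
          · rw [pl_coeff_zero f (by omega), zero_mul]
      _ = ((range n.succ).filter (fun i => i < N)).card * (M : ℤ) ^ 2 := by
          rw [← Finset.sum_filter, Finset.sum_const, nsmul_eq_mul]
      _ ≤ (N : ℤ) * (M : ℤ) ^ 2 := by
          apply mul_le_mul_of_nonneg_right _ (by positivity)
          have : ((range n.succ).filter (fun i => i < N)).card ≤ (range N).card := by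
            apply Finset.card_le_card
            intro i hi
            rw [Finset.mem_filter] at hi
            exact Finset.mem_range.2 hi.2
          rw [Finset.card_range] at this
          exact_mod_cast this
      _ = (N * M ^ 2 : ℕ) := by push_cast; ring

lemma sq_coeff_zero {N M : ℕ} (f : Fin N → Fin M) {n : ℕ} (hn : 2 * N ≤ n) :
    ((pl f) ^ 2).coeff n = 0 := by
  rw [sq, coeff_mul]
  apply Finset.sum_eq_zero
  intro ij hij
  rw [Finset.HasAntidiagonal.mem_antidiagonal] at hij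
  by_cases h : N ≤ ij.1
  · rw [pl_coeff_zero f h, zero_mul]
  · rw [pl_coeff_zero f (m := ij.2) (by omega), mul_zero]

/-- the norm -/
noncomputable def sph {D N M : ℕ} (s : Fin D → Fin N → Fin M) : ℤ[X] := ∑ i, (pl (s i)) ^ 2

lemma sph_coeff_le {D N M : ℕ} (s : Fin D → Fin N → Fin M) (n : ℕ) :
    0 ≤ (sph s).coeff n ∧ (sph s).coeff n ≤ (D * (N * M ^ 2) : ℕ) := by
  unfold sph
  rw [finsetSum_coeff]
  constructor
  · exact Finset.sum_nonneg (fun i _ => (sq_coeff_le _ _).1)
  · calc ∑ i, ((pl (s i)) ^ 2).coeff n ≤ ∑ _i : Fin D, ((N * M ^ 2 : ℕ) : ℤ) :=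
        Finset.sum_le_sum (fun i _ => (sq_coeff_le _ _).2)
      _ = (D * (N * M ^ 2) : ℕ) := by
        rw [Finset.sum_const, Finset.card_univ, Fintype.card_fin, nsmul_eq_mul]
        push_cast; ring

lemma sph_coeff_zero {D N M : ℕ} (s : Fin D → Fin N → Fin M) {n : ℕ} (hn : 2 * N ≤ n) :
    (sph s).coeff n = 0 := by
  unfold sph
  rw [finsetSum_coeff]
  exact Finset.sum_eq_zero (fun i _ => sq_coeff_zero _ hn)

/-- digits of the norm -/
noncomputable def sdig {D N M : ℕ} (s : Fin D → Fin N → Fin M) :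
    Fin (2 * N) → Fin (D * (N * M ^ 2) + 1) :=
  fun n => ⟨((sph s).coeff n).toNat, by
    have h1 := sph_coeff_le s n
    omega⟩

lemma sdig_inj {D N M : ℕ} {s s' : Fin D → Fin N → Fin M} (h : sdig s = sdig s') :
    sph s = sph s' := by
  ext n
  by_cases hn : n < 2 * N
  · have h1 := congrFun h ⟨n, hn⟩
    simp only [sdig, Fin.mk.injEq] at h1
    have h2 := (sph_coeff_le s n).1
    have h3 := (sph_coeff_le s' n).1
    omega
  · rw [sph_coeff_zero s (by omega), sph_coeff_zero s' (by omega)]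

lemma exists_fiber {α β : Type} [Fintype α] [Fintype β] [Nonempty β] [DecidableEq β] (f : α → β) :
    ∃ y, Fintype.card α ≤ Fintype.card β * (univ.filter (fun x => f x = y)).card := by
  by_contra hcon
  push Not at hcon
  have h1 : ∑ y : β, Fintype.card β * (univ.filter (fun x => f x = y)).card <
      ∑ _y : β, Fintype.card α :=
    Finset.sum_lt_sum_of_nonempty Finset.univ_nonempty (fun y _ => hcon y)
  rw [← Finset.mul_sum, Finset.sum_const, smul_eq_mul, Finset.card_univ] at h1
  have h2 : ∑ y : β, (univ.filter (fun x => f x = y)).card = Fintype.card α := by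
    rw [← Finset.card_univ (α := α)]
    exact (Finset.card_eq_sum_card_fiberwise (fun x _ => Finset.mem_univ (f x))).symm
  rw [h2] at h1
  omega

theorem code_exists (ℓ u k : ℕ) (hu : 2 ≤ u) (hℓ : k * (u - 1) + 1 ≤ ℓ) :
    ∃ Cst Bd : ℕ, ∀ M N D q : ℕ,
      (2 * (Cst * M) + 1) ^ ((N + Bd) * D) ≤ q →
      ∃ C : Finset (Fin ℓ → Fin q),
        M ^ (N * D * (k + 1)) ≤ (D * (N * M ^ 2) + 1) ^ (2 * N) * C.card ∧
        ∀ V ⊆ C, V.card ≤ u → ∃ j, Set.InjOn (fun c : Fin ℓ → Fin q => c j) V := by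
  classical
  obtain ⟨a, b, hab⟩ := separation ℓ u k (by omega) hℓ
  refine ⟨cst a b, bd b, ?_⟩
  intro M N D q hq
  set H := cst a b * M with hH
  set L := N + bd b with hL
  obtain ⟨ι⟩ : Nonempty ((Fin D → Fin L → Fin (2 * H + 1)) ↪ Fin q) := by
    rw [Function.Embedding.nonempty_iff_card_le]
    simp only [Fintype.card_fun, Fintype.card_fin]
    rw [← pow_mul]
    exact hq
  -- the words
  let Ψ : Par k D N M → Fin ℓ → Fin q := fun w j => ι (fun i => enc L H (frm a b j w i))
  have hΨ : ∀ w w' j, Ψ w j = Ψ w' j → ∀ i, frm a b j w i = frm a b j w' i := by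
    intro w w' j h i
    have h1 := congrFun (ι.injective h) i
    apply enc_inj L H _ _ _ _ h1
    · intro n; exact_mod_cast frm_coeff_le a b j w i n
    · intro n; exact_mod_cast frm_coeff_le a b j w' i n
    · intro n hn; exact frm_coeff_zero a b j w i hn
    · intro n hn; exact frm_coeff_zero a b j w' i hn
  obtain ⟨y, hy⟩ := exists_fiber (sdig : (Fin D → Fin N → Fin M) → _)
  set S : Finset (Fin D → Fin N → Fin M) := univ.filter (fun s => sdig s = y) with hS
  set W : Finset (Par k D N M) := univ ×ˢ S with hW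
  have hsph : ∀ w ∈ W, ∀ w' ∈ W, sph w.2 = sph w'.2 := by
    intro w hw w' hw'
    rw [hW, Finset.mem_product, hS, Finset.mem_filter] at hw hw'
    exact sdig_inj (hw.2.2.trans hw'.2.2.symm)
  -- key: families of parameters with agreements
  have key : ∀ (g : Fin u → Par k D N M) (e : Fin ℓ → Fin u × Fin u), (∀ v, g v ∈ W) →
      (∀ j, Ψ (g (e j).1) j = Ψ (g (e j).2) j) → ∃ j, g (e j).1 = g (e j).2 := by
    intro g e hg he
    obtain ⟨j, hj1, hj2⟩ := hab D (fun v c i => pl ((g v).1 c i)) (fun v i => pl ((g v).2 i))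
      (sph (g ⟨0, by omega⟩).2) e (fun v => hsph _ (hg v) _ (hg _))
      (fun j i => hΨ _ _ j (he j) i)
    refine ⟨j, Prod.ext ?_ ?_⟩
    · funext c i
      exact pl_inj (congrFun (congrFun hj1 c) i)
    · funext i
      exact pl_inj (congrFun hj2 i)
  have hinj : Set.InjOn Ψ W := by
    intro w hw w' hw' h
    obtain ⟨j, hj⟩ := key (fun v => if (v : ℕ) = 0 then w else w')
      (fun _ => (⟨0, by omega⟩, ⟨1, by omega⟩)) (by
        intro v
        by_cases hv : (v : ℕ) = 0
        · simp only [hv, if_true]; exact hw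
        · simp only [hv, if_false]; exact hw') (by
        intro j
        simp only [if_true, one_ne_zero, if_false]
        rw [h])
    simpa using hj
  refine ⟨W.image Ψ, ?_, ?_⟩
  · rw [Finset.card_image_of_injOn hinj, hW, Finset.card_product]
    have h1 : Fintype.card (Fin D → Fin N → Fin M) = M ^ (N * D) := by
      simp only [Fintype.card_fun, Fintype.card_fin, ← pow_mul]
    have h2 : (univ : Finset (Fin k → Fin D → Fin N → Fin M)).card = M ^ (N * D * k) := by
      simp only [Finset.card_univ, Fintype.card_fun, Fintype.card_fin, ← pow_mul]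
    have h3 : Fintype.card (Fin (2 * N) → Fin (D * (N * M ^ 2) + 1)) =
        (D * (N * M ^ 2) + 1) ^ (2 * N) := by
      simp only [Fintype.card_fun, Fintype.card_fin]
    rw [h2]
    rw [h1, h3] at hy
    calc M ^ (N * D * (k + 1)) = M ^ (N * D * k) * M ^ (N * D) := by
          rw [← pow_add]; congr 1
      _ ≤ M ^ (N * D * k) * ((D * (N * M ^ 2) + 1) ^ (2 * N) * S.card) :=
          Nat.mul_le_mul_left _ hy
      _ = _ := by ring
  · intro V hV hVu
    by_contra hcon
    push Not at hcon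
    have hVne : V.Nonempty := by
      rw [Finset.nonempty_iff_ne_empty]
      rintro rfl
      exact hcon ⟨0, by omega⟩ (by simp)
    have h1 : ∀ j, ∃ c c', c ∈ V ∧ c' ∈ V ∧ c j = c' j ∧ c ≠ c' := by
      intro j
      have := hcon j
      unfold Set.InjOn at this
      push Not at this
      obtain ⟨c, hc, c', hc', h2, h3⟩ := this
      exact ⟨c, c', hc, hc', h2, h3⟩
    choose c c' hc hc' heq hne using h1
    obtain ⟨φ⟩ : Nonempty (V ↪ Fin u) := by
      rw [Function.Embedding.nonempty_iff_card_le]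
      simpa using hVu
    have hlift : ∀ x : V, ∃ w ∈ W, Ψ w = x := by
      intro x
      exact Finset.mem_image.1 (hV x.2)
    choose lift hlift1 hlift2 using hlift
    obtain ⟨x0, hx0⟩ := hVne
    let g : Fin u → Par k D N M := fun v =>
      if h : ∃ x : V, φ x = v then lift h.choose else lift ⟨x0, hx0⟩
    have hg : ∀ v, g v ∈ W := by
      intro v
      by_cases h : ∃ x : V, φ x = v
      · simp only [g, h, dite_true]
        exact hlift1 _
      · simp only [g, h, dite_false]
        exact hlift1 _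
    have hgφ : ∀ x : V, g (φ x) = lift x := by
      intro x
      have h : ∃ x' : V, φ x' = φ x := ⟨x, rfl⟩
      simp only [g, h, dite_true]
      rw [φ.injective h.choose_spec]
    obtain ⟨j, hj⟩ := key g (fun j => (φ ⟨c j, hc j⟩, φ ⟨c' j, hc' j⟩)) hg (by
      intro j
      simp only
      rw [hgφ, hgφ, hlift2, hlift2]
      exact heq j)
    simp only at hj
    rw [hgφ, hgφ] at hj
    apply hne j
    have h5 := hlift2 ⟨c j, hc j⟩
    have h6 := hlift2 ⟨c' j, hc' j⟩
    simp only at h5 h6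
    rw [← h5, ← h6, hj]

end Pool.Agent.H230R2.IPP
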