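import Pool.Agent.H230R2.IPP.Circ

set_option autoImplicit false

/-!
Generic integer vectors: for every circuit `J` the tensors `a_j ⊗ x_j`, `j ∈ J \ {j₀}`, are
linearly independent.
-/

namespace Pool.Agent.H230R2.IPP

open Finset
open Pool.Agent.Helper879.ECD (sp Ind sp_mono mem_sp)

variable {ℓ u : ℕ}

lemma special {k : ℕ} {e : Fin ℓ → Fin u × Fin u} {J : Finset (Fin ℓ)} (h : Circ k e J)
    {j : Fin ℓ} (hj : j ∈ J) :
    ∃ a : Fin ℓ → Fin k → ℤ, Ind ℚ (tv k (fun i c => (a i c : ℚ)) e) (J.erase j) := by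
  classical
  obtain ⟨I, hI1, hI2, hI3⟩ := exists_colour h hj
  refine ⟨fun i c => if i ∈ I c then 1 else 0, ?_⟩
  unfold Ind
  rw [linearIndepOn_finset_iff]
  intro g hg i hi
  obtain ⟨c, hc⟩ := hI3 i hi
  set s := (J.erase j).filter (fun i => i ∈ I c) with hs
  have hInd : Ind ℚ (xv e) s := by
    apply (hI2 c).subset
    intro i' hi'
    rw [hs, Finset.mem_filter] at hi'
    exact hi'.2
  have h1 : ∑ i' ∈ s, g i' • xv e i' = 0 := by
    ext v
    have h2 := congrFun hg (c, v)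
    rw [Finset.sum_apply] at h2
    rw [Finset.sum_apply, hs, Finset.sum_filter]
    rw [Pi.zero_apply] at h2 ⊢
    refine Eq.trans ?_ h2
    apply Finset.sum_congr rfl
    intro i' _
    by_cases hi' : i' ∈ I c
    · simp [tv, hi']
    · simp [tv, hi']
  have h3 := linearIndepOn_finset_iff.1 hInd g h1 i (by
    rw [hs, Finset.mem_filter]; exact ⟨hi, hc⟩)
  exact h3

section Gram

variable {ι κ : Type} [Fintype ι] [DecidableEq ι] [Fintype κ]

lemma gram_iff (w : ι → κ → ℚ) : LinearIndependent ℚ w ↔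
    (Matrix.of fun i i' => ∑ x, w i x * w i' x).det ≠ 0 := by
  classical
  set G : Matrix ι ι ℚ := Matrix.of fun i i' => ∑ x, w i x * w i' x with hG
  have key : ∀ v : ι → ℚ, ∀ i', Matrix.vecMul v G i' = ∑ x, (∑ i, v i * w i x) * w i' x := by
    intro v i'
    simp only [Matrix.vecMul, dotProduct, hG, Matrix.of_apply]
    simp_rw [Finset.mul_sum, Finset.sum_mul]
    rw [Finset.sum_comm]
    apply Finset.sum_congr rfl; intro x _
    apply Finset.sum_congr rfl; intro i _
    ring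
  rw [Fintype.linearIndependent_iff]
  constructor
  · intro h hdet
    obtain ⟨v, hv, hv0⟩ := Matrix.exists_vecMul_eq_zero_iff.2 hdet
    apply hv
    have h1 : ∑ x, (∑ i, v i * w i x) ^ 2 = 0 := by
      have h2 : ∑ i', (Matrix.vecMul v G i') * v i' = 0 := by
        rw [hv0]; simp
      rw [← h2]
      have h5 : ∀ i', (Matrix.vecMul v G i') * v i' =
          ∑ x, (∑ i, v i * w i x) * (v i' * w i' x) := by
        intro i'
        rw [key, Finset.sum_mul]
        apply Finset.sum_congr rfl; intro x _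
        ring
      rw [Finset.sum_congr rfl (fun i' _ => h5 i'), Finset.sum_comm]
      apply Finset.sum_congr rfl; intro x _
      rw [sq, ← Finset.mul_sum]
    have h3 : ∀ x, ∑ i, v i * w i x = 0 := by
      intro x
      have := (Finset.sum_eq_zero_iff_of_nonneg (fun x _ => sq_nonneg (∑ i, v i * w i x))).1 h1 x
        (Finset.mem_univ _)
      exact pow_eq_zero_iff (two_ne_zero) |>.1 this
    have h4 := h v (by
      ext x
      rw [Finset.sum_apply]
      simpa using h3 x)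
    funext i
    exact h4 i
  · intro hdet g hg
    have h1 : Matrix.vecMul g G = 0 := by
      funext i'
      rw [key]
      apply Finset.sum_eq_zero
      intro x _
      have : ∑ i, g i * w i x = 0 := by
        have := congrFun hg x
        rw [Finset.sum_apply] at this
        simpa using this
      rw [this, zero_mul]
    have h2 : g = 0 := by
      by_contra hne
      exact hdet (Matrix.exists_vecMul_eq_zero_iff.1 ⟨g, hne, h1⟩)
    intro i
    rw [h2]; rfl

end Gram

/-- integer version of `xv` -/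
def xz (e : Fin ℓ → Fin u × Fin u) (j : Fin ℓ) : Fin u → ℤ :=
  Pi.single (e j).1 1 - Pi.single (e j).2 1

lemma xz_cast (e : Fin ℓ → Fin u × Fin u) (j : Fin ℓ) (v : Fin u) :
    ((xz e j v : ℤ) : ℚ) = xv e j v := by
  unfold xz xv
  simp only [Pi.sub_apply, Pi.single_apply]
  push_cast
  rfl

open MvPolynomial in
/-- the Gram determinant as a polynomial -/
noncomputable def gp (k : ℕ) (e : Fin ℓ → Fin u × Fin u) (T : Finset (Fin ℓ)) :
    MvPolynomial (Fin ℓ × Fin k) ℤ :=
  (Matrix.of fun (i i' : T) => ∑ cv : Fin k × Fin u,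
    (X ((i : Fin ℓ), cv.1) * C (xz e i cv.2)) * (X ((i' : Fin ℓ), cv.1) * C (xz e i' cv.2))).det

lemma gp_eval (k : ℕ) (e : Fin ℓ → Fin u × Fin u) (T : Finset (Fin ℓ))
    (a : Fin ℓ × Fin k → ℤ) :
    ((MvPolynomial.eval a (gp k e T) : ℤ) : ℚ) =
      (Matrix.of fun (i i' : T) => ∑ cv : Fin k × Fin u,
        tv k (fun i c => (a (i, c) : ℚ)) e i cv * tv k (fun i c => (a (i, c) : ℚ)) e i' cv).det := by
  unfold gp
  rw [RingHom.map_det]
  have h1 := RingHom.map_det (Int.castRingHom ℚ) ((MvPolynomial.eval a).mapMatrix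
    (Matrix.of fun (i i' : T) => ∑ cv : Fin k × Fin u,
    (MvPolynomial.X ((i : Fin ℓ), cv.1) * MvPolynomial.C (xz e i cv.2)) *
      (MvPolynomial.X ((i' : Fin ℓ), cv.1) * MvPolynomial.C (xz e i' cv.2))))
  rw [eq_intCast] at h1
  rw [h1]
  congr 1
  ext i i'
  simp only [RingHom.mapMatrix_apply, Matrix.map_apply, Matrix.of_apply, map_sum, map_mul,
    MvPolynomial.eval_X, MvPolynomial.eval_C, tv]
  simp only [eq_intCast, xz_cast]

lemma gp_iff (k : ℕ) (e : Fin ℓ → Fin u × Fin u) (T : Finset (Fin ℓ))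
    (a : Fin ℓ × Fin k → ℤ) :
    MvPolynomial.eval a (gp k e T) ≠ 0 ↔ Ind ℚ (tv k (fun i c => (a (i, c) : ℚ)) e) T := by
  have h1 := gram_iff (fun (i : T) => tv k (fun i c => (a (i, c) : ℚ)) e i)
  rw [← gp_eval] at h1
  have h2 : Ind ℚ (tv k (fun i c => (a (i, c) : ℚ)) e) T ↔
      LinearIndependent ℚ (fun (i : T) => tv k (fun i c => (a (i, c) : ℚ)) e i) := Iff.rfl
  rw [h2, h1]
  norm_cast

/-- generic integer vectors -/
theorem exists_generic (ℓ u k : ℕ) : ∃ a : Fin ℓ → Fin k → ℤ,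
    ∀ (e : Fin ℓ → Fin u × Fin u) (J : Finset (Fin ℓ)), Circ k e J → ∀ j ∈ J,
      Ind ℚ (tv k (fun i c => (a i c : ℚ)) e) (J.erase j) := by
  classical
  let Ω := ((Fin ℓ → Fin u × Fin u) × Finset (Fin ℓ))
  let good : Finset Ω := univ.filter (fun ω => gp k ω.1 ω.2 ≠ 0)
  have hne : ∏ ω ∈ good, gp k ω.1 ω.2 ≠ 0 := by
    rw [Finset.prod_ne_zero_iff]
    intro ω hω
    rw [Finset.mem_filter] at hω
    exact hω.2
  obtain ⟨a, ha⟩ : ∃ a : Fin ℓ × Fin k → ℤ,
      MvPolynomial.eval a (∏ ω ∈ good, gp k ω.1 ω.2) ≠ 0 := by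
    by_contra hcon
    push Not at hcon
    apply hne
    apply MvPolynomial.funext
    intro a
    rw [hcon a, map_zero]
  rw [map_prod, Finset.prod_ne_zero_iff] at ha
  refine ⟨fun i c => a (i, c), ?_⟩
  intro e J hJ j hj
  have h1 : gp k e (J.erase j) ≠ 0 := by
    obtain ⟨a0, ha0⟩ := special hJ hj
    intro hcon
    have := (gp_iff k e (J.erase j) (fun ic => a0 ic.1 ic.2)).2 ha0
    rw [hcon, map_zero] at this
    exact this rfl
  have h2 := ha (e, J.erase j) (by
    rw [Finset.mem_filter]; exact ⟨Finset.mem_univ _, h1⟩)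
  exact (gp_iff k e (J.erase j) a).1 h2

/-- the space of the tensors -/
noncomputable def lmap (k : ℕ) (e : Fin ℓ → Fin u × Fin u) (J : Finset (Fin ℓ)) :
    (Fin k → sp ℚ (xv e) J) →ₗ[ℚ] (Fin k × Fin u → ℚ) where
  toFun w cv := (w cv.1 : Fin u → ℚ) cv.2
  map_add' w w' := by ext cv; simp
  map_smul' r w := by ext cv; simp

lemma lmap_inj (k : ℕ) (e : Fin ℓ → Fin u × Fin u) (J : Finset (Fin ℓ)) :
    Function.Injective (lmap k e J) := by
  intro w w' h
  ext c v
  exact congrFun h (c, v)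

lemma finrank_W (k : ℕ) (e : Fin ℓ → Fin u × Fin u) (J : Finset (Fin ℓ)) :
    Module.finrank ℚ (LinearMap.range (lmap k e J)) = k * rk e J := by
  rw [LinearMap.finrank_range_of_inj (lmap_inj k e J), Module.finrank_pi_fintype]
  simp [rk]

lemma tv_mem (k : ℕ) (a : Fin ℓ → Fin k → ℚ) (e : Fin ℓ → Fin u × Fin u) (J : Finset (Fin ℓ))
    {j : Fin ℓ} (hj : j ∈ J) : tv k a e j ∈ LinearMap.range (lmap k e J) := by
  refine ⟨fun c => a j c • ⟨xv e j, mem_sp hj⟩, ?_⟩
  ext cv
  simp [lmap, tv]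

lemma exists_dep {k : ℕ} {a : Fin ℓ → Fin k → ℚ} {e : Fin ℓ → Fin u × Fin u}
    {J : Finset (Fin ℓ)} (h : Circ k e J) (ha : ∀ j ∈ J, Ind ℚ (tv k a e) (J.erase j)) :
    ∃ lam : Fin ℓ → ℚ, (∀ j ∈ J, lam j ≠ 0) ∧ ∑ j ∈ J, lam j • tv k a e j = 0 := by
  classical
  have hnot : ¬ LinearIndepOn ℚ (tv k a e) (J : Set (Fin ℓ)) := by
    intro hli
    have h0 : Ind ℚ (tv k a e) J := hli
    have h1 : Module.finrank ℚ (sp ℚ (tv k a e) J) = J.card := h0.card
    have h2 : sp ℚ (tv k a e) J ≤ LinearMap.range (lmap k e J) := by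
      rw [sp, Submodule.span_le]
      rintro _ ⟨j, hj, rfl⟩
      exact tv_mem k a e J hj
    have h3 := Submodule.finrank_mono h2
    rw [finrank_W, h1, h.1] at h3
    omega
  rw [linearIndepOn_finset_iff] at hnot
  push Not at hnot
  obtain ⟨g, hg, i, hi, hgi⟩ := hnot
  refine ⟨g, ?_, hg⟩
  intro j hj hgj
  have h1 : ∑ i ∈ J.erase j, g i • tv k a e i = 0 := by
    rw [← Finset.add_sum_erase J _ hj, hgj, zero_smul, zero_add] at hg
    exact hg
  have hij : i ≠ j := by
    rintro rfl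
    exact hgi hgj
  exact hgi (linearIndepOn_finset_iff.1 (ha j hj) g h1 i (Finset.mem_erase.2 ⟨hij, hi⟩))

lemma rigid {k : ℕ} {a : Fin ℓ → Fin k → ℚ} {e : Fin ℓ → Fin u × Fin u}
    {J : Finset (Fin ℓ)} (h : Circ k e J) (ha : ∀ j ∈ J, Ind ℚ (tv k a e) (J.erase j))
    (z : Fin u → Fin k → ℝ)
    (hz : ∀ j ∈ J, ∑ c, (a j c : ℝ) * (z (e j).1 c - z (e j).2 c) = 0) :
    ∀ j ∈ J, ∀ c, z (e j).1 c = z (e j).2 c := by
  classical
  intro j hj c
  let T : (Fin k × Fin u → ℚ) →ₗ[ℚ] ℝ :=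
    { toFun := fun w => ∑ c, ∑ v, (w (c, v) : ℝ) * z v c
      map_add' := by
        intro w w'
        simp only [Pi.add_apply, Rat.cast_add, add_mul, Finset.sum_add_distrib]
      map_smul' := by
        intro r w
        simp only [Pi.smul_apply, smul_eq_mul, Rat.cast_mul, RingHom.id_apply, Rat.smul_def,
          Finset.mul_sum, mul_assoc] }
  have hx : ∀ (i : Fin ℓ) (c : Fin k), ∑ v, ((xv e i v : ℚ) : ℝ) * z v c =
      z (e i).1 c - z (e i).2 c := by
    intro i c
    simp only [xv, Pi.sub_apply, Pi.single_apply, Rat.cast_sub, sub_mul, Finset.sum_sub_distrib]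
    have h0 : ∀ (p : Fin u), ∑ v, (((if v = p then (1 : ℚ) else 0) : ℚ) : ℝ) * z v c = z p c := by
      intro p
      rw [Finset.sum_eq_single p]
      · simp
      · intro b _ hb; simp [hb]
      · intro hb; exact absurd (Finset.mem_univ _) hb
    rw [h0, h0]
  have hT : ∀ i ∈ J, T (tv k a e i) = 0 := by
    intro i hi
    rw [← hz i hi]
    change ∑ c, ∑ v, ((tv k a e i (c, v) : ℚ) : ℝ) * z v c = _
    apply Finset.sum_congr rfl
    intro c _
    rw [← hx, Finset.mul_sum]
    apply Finset.sum_congr rfl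
    intro v _
    simp only [tv]
    push_cast
    ring
  have hspan : sp ℚ (tv k a e) (J.erase j) = LinearMap.range (lmap k e J) := by
    apply Submodule.eq_of_le_of_finrank_eq
    · rw [sp, Submodule.span_le]
      rintro _ ⟨i, hi, rfl⟩
      exact tv_mem k a e J (Finset.mem_of_mem_erase (Finset.mem_coe.1 hi))
    · have h1 : Module.finrank ℚ (sp ℚ (tv k a e) (J.erase j)) = (J.erase j).card := (ha j hj).card
      rw [h1, finrank_W, Finset.card_erase_of_mem hj, h.1]
      omega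
  have hT0 : ∀ w ∈ LinearMap.range (lmap k e J), T w = 0 := by
    intro w hw
    rw [← hspan] at hw
    have : sp ℚ (tv k a e) (J.erase j) ≤ LinearMap.ker T := by
      rw [sp, Submodule.span_le]
      rintro _ ⟨i, hi, rfl⟩
      exact hT i (Finset.mem_of_mem_erase (Finset.mem_coe.1 hi))
    exact this hw
  have h1 := hT0 (lmap k e J (Pi.single c ⟨xv e j, mem_sp hj⟩)) ⟨_, rfl⟩
  have h2 : T (lmap k e J (Pi.single c ⟨xv e j, mem_sp hj⟩)) = z (e j).1 c - z (e j).2 c := by
    rw [← hx]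
    change ∑ c', ∑ v, (((lmap k e J (Pi.single c ⟨xv e j, mem_sp hj⟩)) (c', v) : ℚ) : ℝ) * z v c' = _
    rw [Finset.sum_eq_single c]
    · simp [lmap]
    · intro c' _ hc'
      apply Finset.sum_eq_zero
      intro v _
      simp [lmap, Pi.single_eq_of_ne hc']
    · intro hc
      exact absurd (Finset.mem_univ _) hc
  rw [h2] at h1
  linarith

end Pool.Agent.H230R2.IPP
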