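import Pool.Agent.H230R2.IPP.Sign

set_option autoImplicit false

/-!
The separation theorem: generic linear codes over `ℤ[X]` on a sphere.
-/

namespace Pool.Agent.H230R2.IPP

open Finset Polynomial

variable {ℓ u : ℕ}

lemma exists_interp {I : Type} [Fintype I] [DecidableEq I] {ℓ : ℕ} (β : I → Fin ℓ → ℤ) :
    ∃ (b : Fin ℓ → ℤ[X]) (τ : I → ℤ) (ρ : I → ℤ), (∀ i, 0 < ρ i) ∧
      ∀ i j, (b j).eval (τ i) = ρ i * β i j := by
  classical
  let τ : I → ℤ := fun i => ((Fintype.equivFin I i : ℕ) : ℤ)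
  have hτ : Function.Injective τ := by
    intro i i' h
    have h1 : ((Fintype.equivFin I i : ℕ) : ℤ) = ((Fintype.equivFin I i' : ℕ) : ℤ) := h
    have h2 : (Fintype.equivFin I i : ℕ) = (Fintype.equivFin I i' : ℕ) := by exact_mod_cast h1
    exact (Fintype.equivFin I).injective (Fin.ext h2)
  refine ⟨fun j => ∑ i, C (β i j) * ∏ i' ∈ univ.erase i, (X - C (τ i')) ^ 2, τ,
    fun i => ∏ i' ∈ univ.erase i, (τ i - τ i') ^ 2, ?_, ?_⟩
  · intro i
    apply Finset.prod_pos
    intro i' hi'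
    have h1 : τ i - τ i' ≠ 0 := by
      rw [sub_ne_zero]
      exact fun h => (Finset.ne_of_mem_erase hi') (hτ h).symm
    positivity
  · intro i j
    rw [eval_finsetSum, Finset.sum_eq_single i]
    · rw [eval_mul, eval_C, eval_prod, mul_comm]
      congr 1
      apply Finset.prod_congr rfl
      intro i' _
      simp
    · intro i' _ hi'
      rw [eval_mul, eval_prod]
      have : ∏ i'' ∈ univ.erase i', eval (τ i) ((X - C (τ i'')) ^ 2) = 0 := by
        apply Finset.prod_eq_zero (Finset.mem_erase.2 ⟨Ne.symm hi', Finset.mem_univ i⟩)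
        simp
      rw [this, mul_zero]
    · intro h; exact absurd (Finset.mem_univ _) h

lemma poly_eq {p q : ℤ[X]} {O : Set ℝ} (hO : O.Infinite)
    (h : ∀ τ ∈ O, aeval τ p = aeval τ q) : p = q := by
  have h1 : (p - q).map (Int.castRingHom ℝ) = 0 := by
    apply Polynomial.eq_zero_of_infinite_isRoot
    apply hO.mono
    intro τ hτ
    have h2 := h τ hτ
    rw [Set.mem_ofPred_eq, IsRoot.def, eval_map]
    have h3 : aeval τ (p - q) = 0 := by rw [map_sub, h2, sub_self]
    rw [aeval_def] at h3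
    exact h3
  have h2 : p - q = 0 :=
    (Polynomial.map_eq_zero_iff (RingHom.injective_int (Int.castRingHom ℝ))).1 h1
  exact sub_eq_zero.1 h2

lemma xv_sum (e : Fin ℓ → Fin u × Fin u) (j : Fin ℓ) (z : Fin u → ℝ) :
    ∑ v, ((xv e j v : ℚ) : ℝ) * z v = z (e j).1 - z (e j).2 := by
  simp only [xv, Pi.sub_apply, Pi.single_apply, Rat.cast_sub, sub_mul, Finset.sum_sub_distrib]
  have h0 : ∀ (p : Fin u), ∑ v, (((if v = p then (1 : ℚ) else 0) : ℚ) : ℝ) * z v = z p := by
    intro p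
    rw [Finset.sum_eq_single p]
    · simp
    · intro b _ hb; simp [hb]
    · intro hb; exact absurd (Finset.mem_univ _) hb
  rw [h0, h0]

/-- strict convexity at one real place -/
lemma place {k D : ℕ} {a : Fin ℓ → Fin k → ℤ} {e : Fin ℓ → Fin u × Fin u}
    {J : Finset (Fin ℓ)} {lam : Fin ℓ → ℚ}
    (hdep : ∑ j ∈ J, lam j • tv k (fun i c => (a i c : ℚ)) e j = 0)
    (B : Fin ℓ → ℝ) (v0 : Fin u)
    (hsign : ∀ v, v ≠ v0 → (∃ j ∈ J, v = (e j).1 ∨ v = (e j).2) →
      0 < ∑ j ∈ J, (lam j : ℝ) * B j * ((xv e j v : ℚ) : ℝ))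
    (x : Fin u → Fin k → Fin D → ℝ) (s : Fin u → Fin D → ℝ) (P : ℝ)
    (hP : ∀ v, ∑ i, s v i ^ 2 = P)
    (heq : ∀ j ∈ J, ∀ i, ∑ c, (a j c : ℝ) * (x (e j).1 c i - x (e j).2 c i)
      + B j * (s (e j).1 i - s (e j).2 i) = 0) :
    ∀ v, (∃ j ∈ J, v = (e j).1 ∨ v = (e j).2) → ∀ i, s v i = s v0 i := by
  classical
  set γ : Fin u → ℝ := fun v => ∑ j ∈ J, (lam j : ℝ) * B j * ((xv e j v : ℚ) : ℝ) with hγ
  -- step 1
  have h1 : ∀ i, ∑ j ∈ J, (lam j : ℝ) * ∑ c, (a j c : ℝ) * (x (e j).1 c i - x (e j).2 c i) = 0 := by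
    intro i
    have h2 : ∀ c v, ∑ j ∈ J, (lam j : ℝ) * ((a j c : ℝ) * ((xv e j v : ℚ) : ℝ)) = 0 := by
      intro c v
      have h3 := congrFun hdep (c, v)
      rw [Finset.sum_apply] at h3
      have h4 : ((∑ j ∈ J, lam j * ((a j c : ℚ) * xv e j v) : ℚ) : ℝ) = 0 := by
        have : ∑ j ∈ J, lam j * ((a j c : ℚ) * xv e j v) = 0 := h3
        rw [this]; simp
      rw [← h4]
      push_cast
      rfl
    calc ∑ j ∈ J, (lam j : ℝ) * ∑ c, (a j c : ℝ) * (x (e j).1 c i - x (e j).2 c i)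
        = ∑ j ∈ J, ∑ c, ∑ v, (lam j : ℝ) * ((a j c : ℝ) * ((xv e j v : ℚ) : ℝ)) * x v c i := by
          apply Finset.sum_congr rfl; intro j _
          rw [Finset.mul_sum]
          apply Finset.sum_congr rfl; intro c _
          rw [← xv_sum e j (fun v => x v c i), Finset.mul_sum, Finset.mul_sum]
          apply Finset.sum_congr rfl; intro v _
          ring
      _ = ∑ c, ∑ v, (∑ j ∈ J, (lam j : ℝ) * ((a j c : ℝ) * ((xv e j v : ℚ) : ℝ))) * x v c i := by
          rw [Finset.sum_comm]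
          apply Finset.sum_congr rfl; intro c _
          rw [Finset.sum_comm]
          apply Finset.sum_congr rfl; intro v _
          rw [Finset.sum_mul]
      _ = 0 := by
          apply Finset.sum_eq_zero; intro c _
          apply Finset.sum_eq_zero; intro v _
          rw [h2, zero_mul]
  -- step 2
  have h2 : ∀ i, ∑ v, γ v * s v i = 0 := by
    intro i
    have h3 : ∑ j ∈ J, (lam j : ℝ) * (B j * (s (e j).1 i - s (e j).2 i)) = 0 := by
      have h4 : ∀ j ∈ J, (lam j : ℝ) * (B j * (s (e j).1 i - s (e j).2 i)) =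
          - ((lam j : ℝ) * ∑ c, (a j c : ℝ) * (x (e j).1 c i - x (e j).2 c i)) := by
        intro j hj
        have := heq j hj i
        have h5 : B j * (s (e j).1 i - s (e j).2 i) =
          - ∑ c, (a j c : ℝ) * (x (e j).1 c i - x (e j).2 c i) := by linarith
        rw [h5]; ring
      rw [Finset.sum_congr rfl h4, Finset.sum_neg_distrib, h1 i, neg_zero]
    rw [← h3]
    simp only [hγ, Finset.sum_mul]
    rw [Finset.sum_comm]
    apply Finset.sum_congr rfl; intro j _
    rw [← xv_sum e j (fun v => s v i), Finset.mul_sum, Finset.mul_sum]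
    apply Finset.sum_congr rfl; intro v _
    ring
  have h3 : ∑ v, γ v = 0 := by
    simp only [hγ]
    rw [Finset.sum_comm]
    apply Finset.sum_eq_zero; intro j _
    rw [← Finset.mul_sum]
    have := xv_sum e j (fun _ => (1 : ℝ))
    simp only [mul_one, sub_self] at this
    rw [this, mul_zero]
  have h4 : ∀ i, ∑ v, γ v * (s v i - s v0 i) = 0 := by
    intro i
    simp_rw [mul_sub]
    rw [Finset.sum_sub_distrib, h2 i, ← Finset.sum_mul, h3]
    ring
  have h5 : ∀ v, ∑ i, (s v i - s v0 i) ^ 2 = ∑ i, (-2 * s v0 i) * (s v i - s v0 i) := by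
    intro v
    have h6 : ∑ i, (s v i - s v0 i) ^ 2 - ∑ i, (-2 * s v0 i) * (s v i - s v0 i) =
        ∑ i, s v i ^ 2 - ∑ i, s v0 i ^ 2 := by
      rw [← Finset.sum_sub_distrib, ← Finset.sum_sub_distrib]
      apply Finset.sum_congr rfl; intro i _
      ring
    rw [hP, hP, sub_self] at h6
    linarith
  have h6 : ∑ v, γ v * ∑ i, (s v i - s v0 i) ^ 2 = 0 := by
    calc ∑ v, γ v * ∑ i, (s v i - s v0 i) ^ 2
        = ∑ v, ∑ i, (-2 * s v0 i) * (γ v * (s v i - s v0 i)) := by
          apply Finset.sum_congr rfl; intro v _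
          rw [h5, Finset.mul_sum]
          apply Finset.sum_congr rfl; intro i _
          ring
      _ = ∑ i, (-2 * s v0 i) * ∑ v, (γ v * (s v i - s v0 i)) := by
          rw [Finset.sum_comm]
          apply Finset.sum_congr rfl; intro i _
          rw [Finset.mul_sum]
      _ = 0 := by
          apply Finset.sum_eq_zero; intro i _
          rw [h4, mul_zero]
  have h7 : ∀ v ∈ (univ : Finset (Fin u)), 0 ≤ γ v * ∑ i, (s v i - s v0 i) ^ 2 := by
    intro v _
    have hsq : 0 ≤ ∑ i, (s v i - s v0 i) ^ 2 := Finset.sum_nonneg (fun i _ => sq_nonneg _)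
    by_cases hv : v = v0
    · rw [hv]; simp
    by_cases ht : ∃ j ∈ J, v = (e j).1 ∨ v = (e j).2
    · exact mul_nonneg (hsign v hv ht).le hsq
    · push Not at ht
      have : γ v = 0 := by
        apply Finset.sum_eq_zero
        intro j hj
        obtain ⟨n1, n2⟩ := ht j hj
        simp [xv, n1, n2]
      rw [this, zero_mul]
  intro v hv i
  by_cases hv0 : v = v0
  · rw [hv0]
  have h8 := (Finset.sum_eq_zero_iff_of_nonneg h7).1 h6 v (Finset.mem_univ _)
  have h9 : ∑ i, (s v i - s v0 i) ^ 2 = 0 := by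
    rcases mul_eq_zero.1 h8 with h | h
    · exact absurd h (hsign v hv0 hv).ne'
    · exact h
  have h10 := (Finset.sum_eq_zero_iff_of_nonneg (fun i _ => sq_nonneg (s v i - s v0 i))).1 h9 i
    (Finset.mem_univ _)
  have h11 := pow_eq_zero_iff (two_ne_zero) |>.1 h10
  linarith

/-- The separation theorem. -/
theorem separation (ℓ u k : ℕ) (hu : 1 ≤ u) (hℓ : k * (u - 1) + 1 ≤ ℓ) :
    ∃ (a : Fin ℓ → Fin k → ℤ) (b : Fin ℓ → ℤ[X]), ∀ (D : ℕ)
      (x : Fin u → Fin k → Fin D → ℤ[X]) (s : Fin u → Fin D → ℤ[X]) (P : ℤ[X])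
      (e : Fin ℓ → Fin u × Fin u),
      (∀ v, ∑ i, s v i ^ 2 = P) →
      (∀ j i, ∑ c, C (a j c) * x (e j).1 c i + b j * s (e j).1 i =
        ∑ c, C (a j c) * x (e j).2 c i + b j * s (e j).2 i) →
      ∃ j, x (e j).1 = x (e j).2 ∧ s (e j).1 = s (e j).2 := by
  classical
  obtain ⟨a, ha⟩ := exists_generic ℓ u k
  have hcirc : ∀ e : Fin ℓ → Fin u × Fin u, ∃ J, Circ k e J := fun e => exists_circ k e hu hℓ
  choose J hJ using hcirc
  have hdep : ∀ e : Fin ℓ → Fin u × Fin u, ∃ lam : Fin ℓ → ℚ, (∀ j ∈ J e, lam j ≠ 0) ∧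
      ∑ j ∈ J e, lam j • tv k (fun i c => (a i c : ℚ)) e j = 0 :=
    fun e => exists_dep (hJ e) (ha e (J e) (hJ e))
  choose lam hlam hdep using hdep
  have hsign := fun e => exists_sign (hJ e) (hlam e)
  choose v0 β hβ using hsign
  obtain ⟨b, τ, ρ, hρ, hb⟩ := exists_interp β
  refine ⟨a, b, ?_⟩
  intro D x s P e hP heq
  -- the open set of places
  let γ : Fin u → ℝ → ℝ := fun v t => ∑ j ∈ J e, (lam e j : ℝ) * aeval t (b j) *
    ((xv e j v : ℚ) : ℝ)
  have hγc : ∀ v, Continuous (γ v) := by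
    intro v
    apply continuous_finsetSum
    intro j _
    exact (continuous_const.mul (Polynomial.continuous_aeval (b j))).mul continuous_const
  let O : Set ℝ := ⋂ v : Fin u, {t | v ≠ v0 e → (∃ j ∈ J e, v = (e j).1 ∨ v = (e j).2) → 0 < γ v t}
  have hOopen : IsOpen O := by
    apply isOpen_iInter_of_finite
    intro v
    by_cases h1 : v ≠ v0 e
    · by_cases h2 : ∃ j ∈ J e, v = (e j).1 ∨ v = (e j).2
      · have : {t | v ≠ v0 e → (∃ j ∈ J e, v = (e j).1 ∨ v = (e j).2) → 0 < γ v t} =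
            {t | 0 < γ v t} := by
          ext t; simp [h1, h2]
        rw [this]
        exact isOpen_lt continuous_const (hγc v)
      · have : {t | v ≠ v0 e → (∃ j ∈ J e, v = (e j).1 ∨ v = (e j).2) → 0 < γ v t} =
            Set.univ := by
          ext t; simp only [Set.mem_ofPred_eq, Set.mem_univ, iff_true]
          intro _ h; exact absurd h h2
        rw [this]; exact isOpen_univ
    · have : {t | v ≠ v0 e → (∃ j ∈ J e, v = (e j).1 ∨ v = (e j).2) → 0 < γ v t} =
            Set.univ := by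
          ext t; simp only [Set.mem_ofPred_eq, Set.mem_univ, iff_true]
          intro h; exact absurd h h1
      rw [this]; exact isOpen_univ
  have hOmem : ((τ e : ℤ) : ℝ) ∈ O := by
    rw [Set.mem_iInter]
    intro v hv ht
    have h1 := hβ e v hv ht
    have h2 : γ v ((τ e : ℤ) : ℝ) = (ρ e : ℝ) *
        ((∑ j ∈ J e, lam e j * (β e j : ℚ) * xv e j v : ℚ) : ℝ) := by
      push_cast
      rw [Finset.mul_sum]
      apply Finset.sum_congr rfl
      intro j _
      have h3 : aeval ((τ e : ℤ) : ℝ) (b j) = (ρ e : ℝ) * (β e j : ℝ) := by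
        have h4 := hb e j
        have h5 : aeval (algebraMap ℤ ℝ (τ e)) (b j) = algebraMap ℤ ℝ (eval (τ e) (b j)) := by
          rw [aeval_algebraMap_apply, coe_aeval_eq_eval]
        rw [eq_intCast, eq_intCast, h4] at h5
        rw [h5]; push_cast; ring
      rw [h3]; ring
    change 0 < γ v ((τ e : ℤ) : ℝ)
    rw [h2]
    have h6 : (0 : ℝ) < ρ e := by exact_mod_cast hρ e
    have h7 : (0 : ℝ) < ((∑ j ∈ J e, lam e j * (β e j : ℚ) * xv e j v : ℚ) : ℝ) := by
      exact_mod_cast h1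
    positivity
  have hOinf : O.Infinite := infinite_of_mem_nhds _ (hOopen.mem_nhds hOmem)
  have haev : ∀ (t : ℝ) (j : Fin ℓ) (i : Fin D),
      ∑ c, (a j c : ℝ) * (aeval t (x (e j).1 c i) - aeval t (x (e j).2 c i))
      + aeval t (b j) * (aeval t (s (e j).1 i) - aeval t (s (e j).2 i)) = 0 := by
    intro t j i
    have h1 := congrArg (aeval t) (heq j i)
    simp only [map_add, map_sum, map_mul, aeval_C] at h1
    simp only [algebraMap_int_eq, eq_intCast] at h1
    simp_rw [mul_sub]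
    rw [Finset.sum_sub_distrib]
    linarith
  -- the `s` agree
  have hs : ∀ v, (∃ j ∈ J e, v = (e j).1 ∨ v = (e j).2) → ∀ i, s v i = s (v0 e) i := by
    intro v hv i
    apply poly_eq hOinf
    intro t ht
    rw [Set.mem_iInter] at ht
    exact place (hdep e) (fun j => aeval t (b j)) (v0 e) (fun v => ht v)
      (fun v c i => aeval t (x v c i)) (fun v i => aeval t (s v i)) (aeval t P)
      (by
        intro v
        rw [← hP v, map_sum]
        simp only [map_pow])
      (fun j _ i => haev t j i) v hv i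
  have hsj : ∀ j ∈ J e, s (e j).1 = s (e j).2 := by
    intro j hj
    funext i
    rw [hs _ ⟨j, hj, Or.inl rfl⟩ i, hs _ ⟨j, hj, Or.inr rfl⟩ i]
  have hpos : 0 < (J e).card := by rw [(hJ e).1]; omega
  obtain ⟨j, hj⟩ := Finset.card_pos.1 hpos
  refine ⟨j, ?_, hsj j hj⟩
  funext c i
  apply poly_eq (O := Set.univ) Set.infinite_univ
  intro t _
  refine rigid (hJ e) (ha e (J e) (hJ e)) (fun v c => aeval t (x v c i)) ?_ j hj c
  intro j' hj'
  have h1 := haev t j' i
  rw [hsj j' hj', sub_self, mul_zero, add_zero] at h1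
  rw [← h1]
  apply Finset.sum_congr rfl
  intro c _
  push_cast
  rfl

end Pool.Agent.H230R2.IPP
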