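import Pool.Agent.H230R2.IPP.Sep

set_option autoImplicit false

/-!
The separation theorem, version for subsets of coordinates.
-/

namespace Pool.Agent.H230R2.IPP

open Finset Polynomial
open Pool.Agent.Helper879.ECD (sp Ind sp_mono mem_sp)

variable {ℓ u : ℕ}

lemma exists_circ_sub (k : ℕ) (e : Fin ℓ → Fin u × Fin u) (T : Finset (Fin ℓ))
    (hT : k * rk e T + 1 ≤ T.card) : ∃ J ⊆ T, Circ k e J := by
  classical
  have hne : (T.powerset.filter (fun J : Finset (Fin ℓ) => k * rk e J + 1 ≤ J.card)).Nonempty := by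
    refine ⟨T, ?_⟩
    rw [Finset.mem_filter]
    exact ⟨Finset.mem_powerset_self _, hT⟩
  obtain ⟨J, hJ, hmin⟩ := Finset.exists_min_image _ Finset.card hne
  rw [Finset.mem_filter, Finset.mem_powerset] at hJ
  have hprop : ∀ J' ⊂ J, J'.card ≤ k * rk e J' := by
    intro J' hJ'
    by_contra hcon
    push Not at hcon
    have := hmin J' (by
      rw [Finset.mem_filter, Finset.mem_powerset]; exact ⟨hJ'.1.trans hJ.1, hcon⟩)
    have := Finset.card_lt_card hJ'
    omega
  refine ⟨J, hJ.1, ?_, hprop⟩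
  have hpos : 0 < J.card := by omega
  obtain ⟨j, hj⟩ := Finset.card_pos.1 hpos
  have h1 := hprop (J.erase j) (Finset.erase_ssubset hj)
  rw [Finset.card_erase_of_mem hj] at h1
  have h2 := Nat.mul_le_mul_left k (rk_mono e (Finset.erase_subset j J))
  omega

lemma rk_le_of_support (e : Fin ℓ → Fin u × Fin u) (T : Finset (Fin ℓ)) (S : Finset (Fin u))
    (hS : S.Nonempty) (h : ∀ j ∈ T, (e j).1 ∈ S ∧ (e j).2 ∈ S) : rk e T ≤ S.card - 1 := by
  classical
  let Q : Submodule ℚ (Fin u → ℚ) :=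
    { carrier := {w | ∀ v, v ∉ S → w v = 0}
      add_mem' := by
        intro a b ha hb v hv
        rw [Pi.add_apply, ha v hv, hb v hv, add_zero]
      zero_mem' := by intro v _; rfl
      smul_mem' := by
        intro r a ha v hv
        rw [Pi.smul_apply, ha v hv, smul_zero] }
  have hQ : Module.finrank ℚ Q ≤ S.card := by
    let ρ : Q →ₗ[ℚ] (S → ℚ) :=
      { toFun := fun w v => (w : Fin u → ℚ) v
        map_add' := by intro a b; rfl
        map_smul' := by intro r a; rfl }
    have hρ : Function.Injective ρ := by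
      intro w w' h
      ext v
      by_cases hv : v ∈ S
      · exact congrFun h ⟨v, hv⟩
      · rw [w.2 v hv, w'.2 v hv]
    have := LinearMap.finrank_le_finrank_of_injective hρ
    simpa using this
  obtain ⟨v0, hv0⟩ := hS
  have hlt : sp ℚ (xv e) T < Q := by
    refine lt_of_le_of_ne ?_ ?_
    · rw [sp, Submodule.span_le]
      rintro _ ⟨j, hj, rfl⟩ v hv
      obtain ⟨h1, h2⟩ := h j hj
      have n1 : v ≠ (e j).1 := fun h => hv (h ▸ h1)
      have n2 : v ≠ (e j).2 := fun h => hv (h ▸ h2)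
      simp [xv, n1, n2]
    · intro heq
      have h1 : (Pi.single v0 (1 : ℚ) : Fin u → ℚ) ∈ sp ℚ (xv e) T := by
        rw [heq]
        intro v hv
        have : v ≠ v0 := fun h => hv (h ▸ hv0)
        simp [this]
      let φ : (Fin u → ℚ) →ₗ[ℚ] ℚ := ∑ v, LinearMap.proj v
      have hφ : ∀ w, φ w = ∑ v, w v := by intro w; simp [φ]
      have h2 : sp ℚ (xv e) T ≤ LinearMap.ker φ := by
        rw [sp, Submodule.span_le]
        rintro _ ⟨j, _, rfl⟩
        change φ (xv e j) = 0
        rw [hφ, sum_xv]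
      have h3 : φ (Pi.single v0 (1 : ℚ)) = 0 := h2 h1
      rw [hφ] at h3
      simp at h3
  have := Submodule.finrank_lt_finrank_of_lt hlt
  unfold rk
  omega

/-- The separation theorem for sets of coordinates. -/
theorem separation_sub (ℓ u k : ℕ) :
    ∃ (a : Fin ℓ → Fin k → ℤ) (b : Fin ℓ → ℤ[X]), ∀ (D : ℕ)
      (x : Fin u → Fin k → Fin D → ℤ[X]) (s : Fin u → Fin D → ℤ[X]) (P : ℤ[X])
      (e : Fin ℓ → Fin u × Fin u) (T : Finset (Fin ℓ)), k * rk e T + 1 ≤ T.card →
      (∀ v, ∑ i, s v i ^ 2 = P) →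
      (∀ j ∈ T, ∀ i, ∑ c, C (a j c) * x (e j).1 c i + b j * s (e j).1 i =
        ∑ c, C (a j c) * x (e j).2 c i + b j * s (e j).2 i) →
      ∃ j ∈ T, x (e j).1 = x (e j).2 ∧ s (e j).1 = s (e j).2 := by
  classical
  obtain ⟨a, ha⟩ := exists_generic ℓ u k
  let I := {p : (Fin ℓ → Fin u × Fin u) × Finset (Fin ℓ) // Circ k p.1 p.2}
  have hdep : ∀ p : I, ∃ lam : Fin ℓ → ℚ, (∀ j ∈ p.1.2, lam j ≠ 0) ∧
      ∑ j ∈ p.1.2, lam j • tv k (fun i c => (a i c : ℚ)) p.1.1 j = 0 :=
    fun p => exists_dep p.2 (ha p.1.1 p.1.2 p.2)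
  choose lam hlam hdep using hdep
  have hsign := fun p : I => exists_sign p.2 (hlam p)
  choose v0 β hβ using hsign
  obtain ⟨b, τ, ρ, hρ, hb⟩ := exists_interp β
  refine ⟨a, b, ?_⟩
  intro D x s P e T hT hP heq
  obtain ⟨J, hJT, hJ⟩ := exists_circ_sub k e T hT
  let pe : I := ⟨(e, J), hJ⟩
  -- the open set of places
  let γ : Fin u → ℝ → ℝ := fun v t => ∑ j ∈ J, (lam pe j : ℝ) * aeval t (b j) *
    ((xv e j v : ℚ) : ℝ)
  have hγc : ∀ v, Continuous (γ v) := by
    intro v
    apply continuous_finsetSum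
    intro j _
    exact (continuous_const.mul (Polynomial.continuous_aeval (b j))).mul continuous_const
  let O : Set ℝ := ⋂ v : Fin u, {t | v ≠ v0 pe → (∃ j ∈ J, v = (e j).1 ∨ v = (e j).2) → 0 < γ v t}
  have hOopen : IsOpen O := by
    apply isOpen_iInter_of_finite
    intro v
    by_cases h1 : v ≠ v0 pe
    · by_cases h2 : ∃ j ∈ J, v = (e j).1 ∨ v = (e j).2
      · have : {t | v ≠ v0 pe → (∃ j ∈ J, v = (e j).1 ∨ v = (e j).2) → 0 < γ v t} =
            {t | 0 < γ v t} := by
          ext t; simp [h1, h2]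
        rw [this]
        exact isOpen_lt continuous_const (hγc v)
      · have : {t | v ≠ v0 pe → (∃ j ∈ J, v = (e j).1 ∨ v = (e j).2) → 0 < γ v t} =
            Set.univ := by
          ext t; simp only [Set.mem_ofPred_eq, Set.mem_univ, iff_true]
          intro _ h; exact absurd h h2
        rw [this]; exact isOpen_univ
    · have : {t | v ≠ v0 pe → (∃ j ∈ J, v = (e j).1 ∨ v = (e j).2) → 0 < γ v t} =
            Set.univ := by
          ext t; simp only [Set.mem_ofPred_eq, Set.mem_univ, iff_true]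
          intro h; exact absurd h h1
      rw [this]; exact isOpen_univ
  have hOmem : ((τ pe : ℤ) : ℝ) ∈ O := by
    rw [Set.mem_iInter]
    intro v hv ht
    have h1 := hβ pe v hv ht
    have h2 : γ v ((τ pe : ℤ) : ℝ) = (ρ pe : ℝ) *
        ((∑ j ∈ J, lam pe j * (β pe j : ℚ) * xv e j v : ℚ) : ℝ) := by
      push_cast
      rw [Finset.mul_sum]
      apply Finset.sum_congr rfl
      intro j _
      have h3 : aeval ((τ pe : ℤ) : ℝ) (b j) = (ρ pe : ℝ) * (β pe j : ℝ) := by
        have h4 := hb pe j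
        have h5 : aeval (algebraMap ℤ ℝ (τ pe)) (b j) = algebraMap ℤ ℝ (eval (τ pe) (b j)) := by
          rw [aeval_algebraMap_apply, coe_aeval_eq_eval]
        rw [eq_intCast, eq_intCast, h4] at h5
        rw [h5]; push_cast; ring
      rw [h3]; ring
    change 0 < γ v ((τ pe : ℤ) : ℝ)
    rw [h2]
    have h6 : (0 : ℝ) < ρ pe := by exact_mod_cast hρ pe
    have h7 : (0 : ℝ) < ((∑ j ∈ J, lam pe j * (β pe j : ℚ) * xv e j v : ℚ) : ℝ) := by
      exact_mod_cast h1
    positivity
  have hOinf : O.Infinite := infinite_of_mem_nhds _ (hOopen.mem_nhds hOmem)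
  have haev : ∀ (t : ℝ) (j : Fin ℓ) (_ : j ∈ T) (i : Fin D),
      ∑ c, (a j c : ℝ) * (aeval t (x (e j).1 c i) - aeval t (x (e j).2 c i))
      + aeval t (b j) * (aeval t (s (e j).1 i) - aeval t (s (e j).2 i)) = 0 := by
    intro t j hjT i
    have h1 := congrArg (aeval t) (heq j hjT i)
    simp only [map_add, map_sum, map_mul, aeval_C] at h1
    simp only [algebraMap_int_eq, eq_intCast] at h1
    simp_rw [mul_sub]
    rw [Finset.sum_sub_distrib]
    linarith
  -- the `s` agree
  have hs : ∀ v, (∃ j ∈ J, v = (e j).1 ∨ v = (e j).2) → ∀ i, s v i = s (v0 pe) i := by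
    intro v hv i
    apply poly_eq hOinf
    intro t ht
    rw [Set.mem_iInter] at ht
    exact place (hdep pe) (fun j => aeval t (b j)) (v0 pe) (fun v => ht v)
      (fun v c i => aeval t (x v c i)) (fun v i => aeval t (s v i)) (aeval t P)
      (by
        intro v
        rw [← hP v, map_sum]
        simp only [map_pow])
      (fun j hj i => haev t j (hJT hj) i) v hv i
  have hsj : ∀ j ∈ J, s (e j).1 = s (e j).2 := by
    intro j hj
    funext i
    rw [hs _ ⟨j, hj, Or.inl rfl⟩ i, hs _ ⟨j, hj, Or.inr rfl⟩ i]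
  have hpos : 0 < (J).card := by rw [(hJ).1]; omega
  obtain ⟨j, hj⟩ := Finset.card_pos.1 hpos
  refine ⟨j, hJT hj, ?_, hsj j hj⟩
  funext c i
  apply poly_eq (O := Set.univ) Set.infinite_univ
  intro t _
  refine rigid (hJ) (ha e (J) (hJ)) (fun v c => aeval t (x v c i)) ?_ j hj c
  intro j' hj'
  have h1 := haev t j' (hJT hj') i
  rw [hsj j' hj', sub_self, mul_zero, add_zero] at h1
  rw [← h1]
  apply Finset.sum_congr rfl
  intro c _
  push_cast
  rfl

end Pool.Agent.H230R2.IPP
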