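import Mathlib

set_option autoImplicit false

/-!
Sequential codes with the identifiable parent property: definitions.
-/

namespace Pool.Agent.H230R2.Seq

open Finset

variable {ℓ q : ℕ}

/-- A tracing algorithm for words of length `ℓ` over `Fin q` (it may depend on the code). In round
`i + 1` it receives the symbols `d_1, …, d_{i+1}` seen so far and the current set `U` of identified
codewords, and it outputs a set of codewords to be added to `U`. -/
abbrev Alg (ℓ q : ℕ) : Type :=
  (i : Fin ℓ) → (Fin (i.val + 1) → Fin q) → Finset (Fin ℓ → Fin q) → Finset (Fin ℓ → Fin q)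

/-- The set `U` of identified codewords after `i` rounds, when the symbols are `d`. -/
def ident (A : Alg ℓ q) (d : Fin ℓ → Fin q) : ℕ → Finset (Fin ℓ → Fin q)
  | 0 => ∅
  | i + 1 => ident A d i ∪
      if h : i < ℓ then
        A ⟨i, h⟩ (fun j => d ⟨j.val, lt_of_lt_of_le j.isLt (Nat.succ_le_of_lt h)⟩) (ident A d i)
      else ∅

/-- The symbols `d` are a possible behaviour of the set of traitors `X`: as long as `X \ U` is
nonempty, the next symbol is a symbol of a codeword of `X \ U` (round `i + 1` uses coordinate `i`). -/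
def Legit (A : Alg ℓ q) (X : Finset (Fin ℓ → Fin q)) (d : Fin ℓ → Fin q) : Prop :=
  ∀ i : Fin ℓ, (X \ ident A d i).Nonempty → ∃ x ∈ X \ ident A d i, x i = d i

/-- `C` is a sequential `k`-IPP code: some algorithm identifies, for every set `X` of at most `k`
codewords and every behaviour of `X`, exactly the set `X` after some round `i ≤ ℓ` (the sets
`ident A d i` increase with `i`, so up to that round every codeword added lies in `X`). -/
def IsSeqIPP (k : ℕ) (C : Finset (Fin ℓ → Fin q)) : Prop :=
  ∃ A : Alg ℓ q, ∀ X ⊆ C, X.card ≤ k → ∀ d, Legit A X d → ∃ i ≤ ℓ, ident A d i = X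

/-- `N(q,ℓ,k)`: the largest size of a sequential `k`-IPP code of length `ℓ` over `q` symbols. -/
noncomputable def maxSeq (q ℓ k : ℕ) : ℕ :=
  sSup {n | ∃ C : Finset (Fin ℓ → Fin q), C.card = n ∧ IsSeqIPP k C}

/-- `R(q,ℓ,k) = (1/ℓ) log_q N(q,ℓ,k)`. -/
noncomputable def rate (q ℓ k : ℕ) : ℝ := Real.logb q (maxSeq q ℓ k) / ℓ

end Pool.Agent.H230R2.Seq
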