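import Pool.Agent.H230R2.IPP.SeqUpper

set_option autoImplicit false

/-!
Fixed alphabet: at most `k` words if `q ≤ k`; exponentially many if `q > k`.
-/

namespace Pool.Agent.H230R2.Seq

open Finset

variable {ℓ q : ℕ}

theorem small_alphabet {C : Finset (Fin ℓ → Fin q)} {k : ℕ} (hk : 1 ≤ k) (hq : q ≤ k)
    (h : IsSeqIPP k C) : C.card ≤ k := by
  classical
  obtain ⟨A, hA⟩ := h
  by_contra hcon
  push Not at hcon
  obtain ⟨V, hVC, hVk⟩ := Finset.exists_subset_card_eq (show k + 1 ≤ C.card from hcon)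
  have hpig : ∀ j : Fin ℓ, ∃ v ∈ V, ∃ v' ∈ V, v ≠ v' ∧ v j = v' j := by
    intro j
    obtain ⟨v, hv, v', hv', h1, h2⟩ := Finset.exists_ne_map_eq_of_card_lt_of_maps_to
      (s := V) (t := (univ : Finset (Fin q))) (f := fun v => v j)
      (by rw [Finset.card_univ, Fintype.card_fin, hVk]; omega) (fun _ _ => Finset.mem_univ _)
    exact ⟨v, hv, v', hv', h1, h2⟩
  choose w hw w' hw' hne heq using hpig
  let d : Fin ℓ → Fin q := fun j => w j j
  have hmem : ∀ v ∈ V, ∀ t : Fin ℓ, ∃ x ∈ V.erase v, x t = d t := by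
    intro v _ t
    by_cases h1 : w t = v
    · refine ⟨w' t, Finset.mem_erase.2 ⟨?_, hw' t⟩, (heq t).symm⟩
      rw [← h1]; exact (hne t).symm
    · exact ⟨w t, Finset.mem_erase.2 ⟨h1, hw t⟩, rfl⟩
  have hcardV : ∀ v ∈ V, (V.erase v).card = k := by
    intro v hv
    rw [Finset.card_erase_of_mem hv, hVk]; rfl
  have claim : ∀ j ≤ ℓ, ident A d j = ∅ := by
    intro j
    induction j using Nat.strong_induction_on with
    | _ j ih =>
    intro hj
    have h1 : ∀ v ∈ V, ident A d j ⊆ V.erase v := by
      intro v hv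
      obtain ⟨d', hd1, hd2⟩ := exists_ext A (V.erase v) d j (by
        intro t ht
        rw [ih t ht (by omega), Finset.sdiff_empty]
        exact hmem v hv t)
      obtain ⟨i, _, hi⟩ := hA (V.erase v) ((Finset.erase_subset _ _).trans hVC)
        (hcardV v hv).le d' hd2
      have hcongr : ∀ i' ≤ j, ident A d' i' = ident A d i' := fun i' hi' =>
        ident_congr A d' d i' (fun t ht => hd1 t (by omega))
      by_cases hij : i < j
      · exfalso
        rw [hcongr i hij.le, ih i hij (by omega)] at hi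
        have := hcardV v hv
        rw [← hi] at this
        simp at this
        omega
      · rw [← hcongr j le_rfl, ← hi]
        exact ident_mono A d' (by omega)
    rw [Finset.eq_empty_iff_forall_notMem]
    intro c hc
    have hVne : V.Nonempty := Finset.card_pos.1 (by omega)
    obtain ⟨v, hv⟩ := hVne
    have hcV := Finset.mem_of_mem_erase (h1 v hv hc)
    have := h1 c hcV hc
    simp at this
  have hVne : V.Nonempty := Finset.card_pos.1 (by omega)
  obtain ⟨v, hv⟩ := hVne
  obtain ⟨i, hi, hid⟩ := hA (V.erase v) ((Finset.erase_subset _ _).trans hVC) (hcardV v hv).le d (by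
    intro t _
    rw [claim t t.2.le, Finset.sdiff_empty]
    exact hmem v hv t)
  rw [claim i hi] at hid
  have := hcardV v hv
  rw [← hid] at this
  simp at this
  omega

/-- separated codes are sequential IPP codes -/
theorem isSeqIPP_of_sep {C : Finset (Fin ℓ → Fin q)} {k l : ℕ} (hl : k * l ≤ ℓ)
    (hsep : ∀ X V : Finset (Fin ℓ → Fin q), X ⊆ V → V ⊆ C → X.card ≤ k → V.card ≤ k + k * k →
      ∀ i0, i0 + l ≤ ℓ → ∃ j : Fin ℓ, i0 ≤ j.val ∧ j.val < i0 + l ∧
        ∀ x ∈ X, ∀ v ∈ V, v ≠ x → v j ≠ x j) : IsSeqIPP k C := by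
  classical
  refine ⟨alg C k, ?_⟩
  intro X hXC hXk d hleg
  by_contra hcon
  push Not at hcon
  have hne : ∀ i ≤ ℓ, capU C k d i ≠ X := by
    intro i hi
    rw [← ident_alg C k d i hi]; exact hcon i hi
  have hmem : ∀ i ≤ ℓ, X ∈ hyp C k d i := by
    intro i
    induction i with
    | zero =>
      intro _
      rw [hyp, Finset.mem_filter, Finset.mem_powerset]
      exact ⟨hXC, hXk⟩
    | succ i ih =>
      intro hi
      have h1 := ih (by omega)
      rw [hyp, Finset.mem_filter]
      refine ⟨h1, ?_⟩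
      intro hil
      have hUX : capU C k d i ⊆ X := fun c hc => (mem_capU.1 hc).2 X h1
      have h2 := hleg ⟨i, hil⟩
      rw [ident_alg C k d i (by omega)] at h2
      obtain ⟨x, hx, hxd⟩ := h2 (by
        rw [Finset.sdiff_nonempty]
        intro h3
        exact hne i (by omega) (Finset.Subset.antisymm hUX h3))
      rw [Finset.mem_sdiff] at hx
      exact ⟨x, hx.1, hx.2, hxd⟩
  have hlt : ∀ i ≤ ℓ, (capU C k d i).card < k := by
    intro i hi
    have hUX : capU C k d i ⊆ X := fun c hc => (mem_capU.1 hc).2 X (hmem i hi)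
    exact (Finset.card_lt_card (Finset.ssubset_iff_subset_ne.2 ⟨hUX, hne i hi⟩)).trans_le hXk
  -- a long interval on which nothing is identified
  obtain ⟨i, hik, hieq⟩ : ∃ i < k, capU C k d (i * l) = capU C k d ((i + 1) * l) := by
    by_contra hno
    push Not at hno
    have h1 : ∀ i ≤ k, i ≤ (capU C k d (i * l)).card := by
      intro i
      induction i with
      | zero => intro _; exact Nat.zero_le _
      | succ i ih =>
        intro hi
        have h2 := ih (by omega)
        have h3 : (capU C k d (i * l)).card < (capU C k d ((i + 1) * l)).card := by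
          apply Finset.card_lt_card
          exact Finset.ssubset_iff_subset_ne.2 ⟨capU_mono C k d (Nat.mul_le_mul_right _ (by omega)),
            hno i (by omega)⟩
        omega
    have h2 := h1 k le_rfl
    have h3 := hlt (k * l) hl
    omega
  have hi1 : (i + 1) * l ≤ ℓ := (Nat.mul_le_mul_right _ (by omega)).trans hl
  set i1 := (i + 1) * l with hi1'
  have hi01 : i * l + l = i1 := by rw [hi1']; ring
  set U := capU C k d i1 with hU
  have hUj : ∀ j, i * l ≤ j → j ≤ i1 → capU C k d j = U := by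
    intro j h1 h2
    apply Finset.Subset.antisymm (capU_mono C k d h2)
    have h3 := capU_mono C k d h1
    rw [hieq] at h3
    exact h3
  have hHx : ∀ x : (Fin ℓ → Fin q), ∃ H, x ∈ X → x ∉ U → H ∈ hyp C k d i1 ∧ x ∉ H := by
    intro x
    by_cases hx : x ∈ X ∧ x ∉ U
    · by_contra hno
      push Not at hno
      apply hx.2
      rw [hU, mem_capU]
      refine ⟨hXC hx.1, ?_⟩
      intro H hH
      exact (hno H).2.2 hH
    · exact ⟨∅, fun h1 h2 => absurd ⟨h1, h2⟩ hx⟩
  choose Hx hHx using hHx
  set V := X ∪ (X \ U).biUnion Hx with hV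
  have hVC : V ⊆ C := by
    apply Finset.union_subset hXC
    intro v hv
    rw [Finset.mem_biUnion] at hv
    obtain ⟨x, hx, hvx⟩ := hv
    rw [Finset.mem_sdiff] at hx
    exact (hyp_sub (hHx x hx.1 hx.2).1).1 hvx
  have hVk : V.card ≤ k + k * k := by
    refine (Finset.card_union_le _ _).trans (Nat.add_le_add hXk ?_)
    refine (Finset.card_biUnion_le_card_mul _ _ k ?_).trans (Nat.mul_le_mul_right _ ?_)
    · intro x hx
      rw [Finset.mem_sdiff] at hx
      exact (hyp_sub (hHx x hx.1 hx.2).1).2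
    · exact (Finset.card_le_card Finset.sdiff_subset).trans hXk
  obtain ⟨j, hj0, hj1, hj⟩ := hsep X V Finset.subset_union_left hVC hXk hVk (i * l) (by omega)
  obtain ⟨x, hx, hxU, hxd⟩ := hyp_explain (hmem i1 hi1) j (by omega)
  rw [hUj j hj0 (by omega)] at hxU
  obtain ⟨hH1, hH2⟩ := hHx x hx hxU
  obtain ⟨h, hh, _, hhd⟩ := hyp_explain hH1 j (by omega)
  have hhV : h ∈ V := by
    apply Finset.mem_union_right
    rw [Finset.mem_biUnion]
    exact ⟨x, Finset.mem_sdiff.2 ⟨hx, hxU⟩, hh⟩
  refine hj x hx h hhV ?_ (by rw [hhd, hxd])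
  rintro rfl
  exact hH2 hh

section Random

open Classical in
/-- columns not separating `I` from `J` -/
noncomputable def badCol (n q : ℕ) (I J : Finset (Fin n)) : Finset (Fin n → Fin q) :=
  univ.filter (fun col => ∃ x ∈ I, ∃ v ∈ J, v ≠ x ∧ col v = col x)

lemma badCol_card {n q k m : ℕ} (I J : Finset (Fin n)) (hIJ : I ⊆ J) (hI : I.card ≤ k)
    (hJ : J.card ≤ m) (hq : k < q) (hmn : m ≤ n) :
    (badCol n q I J).card + q ^ (n - m) ≤ q ^ n := by
  classical
  -- a good pattern
  obtain ⟨f⟩ : Nonempty (I ↪ Fin (q - 1)) := by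
    rw [Function.Embedding.nonempty_iff_card_le]
    rw [Fintype.card_coe, Fintype.card_fin]; omega
  let g : Fin n → Fin q := fun v =>
    if h : v ∈ I then ⟨(f ⟨v, h⟩).val, by have := (f ⟨v, h⟩).2; omega⟩ else ⟨q - 1, by omega⟩
  set P : Finset (Fin n → Fin q) :=
    Fintype.piFinset (fun v => if v ∈ J then {g v} else (univ : Finset (Fin q))) with hP
  have hPc : q ^ (n - m) ≤ P.card := by
    rw [hP, Fintype.card_piFinset]
    have h1 : ∀ v : Fin n, (if v ∈ J then ({g v} : Finset (Fin q)) else univ).card =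
        if v ∈ J then 1 else q := by
      intro v; split_ifs <;> simp
    rw [Finset.prod_congr rfl (fun v _ => h1 v), Finset.prod_ite, Finset.prod_const_one, one_mul,
      Finset.prod_const]
    apply Nat.pow_le_pow_right (by omega)
    have h2 : (univ.filter (fun v => v ∈ J)).card + (univ.filter (fun v : Fin n => ¬ v ∈ J)).card = n := by
      rw [Finset.card_filter_add_card_filter_not, Finset.card_univ, Fintype.card_fin]
    have h3 : (univ.filter (fun v => v ∈ J)) = J := by ext; simp
    rw [h3] at h2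
    omega
  have hdisj : Disjoint (badCol n q I J) P := by
    rw [Finset.disjoint_left]
    intro col hcol hcP
    unfold badCol at hcol
    rw [Finset.mem_filter] at hcol
    obtain ⟨_, x, hx, v, hv, hne, heq⟩ := hcol
    rw [hP, Fintype.mem_piFinset] at hcP
    have h1 := hcP x
    have h2 := hcP v
    rw [if_pos (hIJ hx), Finset.mem_singleton] at h1
    rw [if_pos hv, Finset.mem_singleton] at h2
    rw [h1, h2] at heq
    simp only [g, hx, dite_true] at heq
    by_cases hvI : v ∈ I
    · simp only [hvI, dite_true, Fin.mk.injEq] at heq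
      have := f.injective (Fin.ext heq)
      exact hne (congrArg Subtype.val this)
    · simp only [hvI, dite_false, Fin.mk.injEq] at heq
      have := (f ⟨x, hx⟩).2
      omega
  have h1 := Finset.card_le_univ (badCol n q I J ∪ P)
  rw [Finset.card_union_of_disjoint hdisj, Fintype.card_fun, Fintype.card_fin, Fintype.card_fin] at h1
  omega

open Classical in
/-- bad column sequences -/
noncomputable def badSeq (n q ℓ l i0 : ℕ) (I J : Finset (Fin n)) : Finset (Fin ℓ → Fin n → Fin q) :=
  Fintype.piFinset (fun j : Fin ℓ => if i0 ≤ j.val ∧ j.val < i0 + l then badCol n q I J else univ)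

lemma badSeq_card {n q ℓ l i0 : ℕ} (hi : i0 + l ≤ ℓ) (I J : Finset (Fin n)) :
    (badSeq n q ℓ l i0 I J).card = (badCol n q I J).card ^ l * (q ^ n) ^ (ℓ - l) := by
  classical
  unfold badSeq
  rw [Fintype.card_piFinset]
  have h1 : ∀ j : Fin ℓ, (if i0 ≤ j.val ∧ j.val < i0 + l then badCol n q I J else
      (univ : Finset (Fin n → Fin q))).card =
      if i0 ≤ j.val ∧ j.val < i0 + l then (badCol n q I J).card else q ^ n := by
    intro j; split_ifs <;> simp
  rw [Finset.prod_congr rfl (fun j _ => h1 j), Finset.prod_ite, Finset.prod_const,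
    Finset.prod_const]
  have h2 : (univ.filter (fun j : Fin ℓ => i0 ≤ j.val ∧ j.val < i0 + l)).card = l := by
    have h3 : (univ.filter (fun j : Fin ℓ => i0 ≤ j.val ∧ j.val < i0 + l)).map Fin.valEmbedding =
        Finset.Ico i0 (i0 + l) := by
      ext t
      rw [Finset.mem_map, Finset.mem_Ico]
      constructor
      · rintro ⟨j, hj, rfl⟩
        rw [Finset.mem_filter] at hj
        exact hj.2
      · intro ht
        exact ⟨⟨t, by omega⟩, by rw [Finset.mem_filter]; exact ⟨Finset.mem_univ _, ht⟩, rfl⟩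
    rw [← Finset.card_map Fin.valEmbedding, h3, Nat.card_Ico]
    omega
  have h4 : (univ.filter (fun j : Fin ℓ => ¬ (i0 ≤ j.val ∧ j.val < i0 + l))).card = ℓ - l := by
    have h5 := Finset.card_filter_add_card_filter_not (s := (univ : Finset (Fin ℓ)))
      (fun j : Fin ℓ => i0 ≤ j.val ∧ j.val < i0 + l)
    rw [h2, Finset.card_univ, Fintype.card_fin] at h5
    omega
  rw [h2, h4]

/-- the probabilistic construction -/
theorem exists_sep_code (k m q ℓ l n : ℕ) (hk : 1 ≤ k) (hm : m = k + k * k) (hq : k < q)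
    (hl1 : 1 ≤ l) (hkl : k * l ≤ ℓ) (hmn : m ≤ n)
    (hn : 2 ^ m * n ^ m * (ℓ + 1) *
      ((q ^ n - q ^ (n - m)) ^ l * (q ^ n) ^ (ℓ - l)) < (q ^ n) ^ ℓ) :
    ∃ C : Finset (Fin ℓ → Fin q), C.card = n ∧ IsSeqIPP k C := by
  classical
  have hlℓ : l ≤ ℓ := by nlinarith
  have hm2 : 2 ≤ m := by
    have : 1 ≤ k * k := Nat.mul_pos hk hk
    omega
  let Idx := (Fin m → Fin n) × Finset (Fin m) × Fin (ℓ + 1)
  let good : Finset Idx := univ.filter (fun ω => ω.2.2.val + l ≤ ℓ ∧ (ω.2.1.image ω.1).card ≤ k)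
  set B : Finset (Fin ℓ → Fin n → Fin q) :=
    good.biUnion (fun ω => badSeq n q ℓ l ω.2.2.val (ω.2.1.image ω.1) (univ.image ω.1)) with hB
  have hBc : B.card < (q ^ n) ^ ℓ := by
    refine lt_of_le_of_lt ?_ hn
    refine (Finset.card_biUnion_le_card_mul _ _
      ((q ^ n - q ^ (n - m)) ^ l * (q ^ n) ^ (ℓ - l)) ?_).trans (Nat.mul_le_mul_right _ ?_)
    · intro ω hω
      rw [Finset.mem_filter] at hω
      rw [badSeq_card hω.2.1]
      apply Nat.mul_le_mul_right
      apply Nat.pow_le_pow_left
      have h1 := badCol_card (n := n) (q := q) (k := k) (m := m) (ω.2.1.image ω.1)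
        (univ.image ω.1) (Finset.image_subset_image (Finset.subset_univ _)) hω.2.2 (by
          have := Finset.card_image_le (s := (univ : Finset (Fin m))) (f := ω.1)
          rwa [Finset.card_univ, Fintype.card_fin] at this) hq hmn
      omega
    · refine (Finset.card_le_univ _).trans ?_
      simp only [Idx, Fintype.card_prod, Fintype.card_fun, Fintype.card_fin, Fintype.card_finset]
      rw [← mul_assoc, mul_comm (n ^ m)]
  obtain ⟨c, hc⟩ : ∃ c : Fin ℓ → Fin n → Fin q, c ∉ B := by
    by_contra hcon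
    push Not at hcon
    have h1 : B = univ := Finset.eq_univ_iff_forall.2 hcon
    rw [h1, Finset.card_univ, Fintype.card_fun, Fintype.card_fun, Fintype.card_fin,
      Fintype.card_fin, Fintype.card_fin] at hBc
    omega
  -- the separation property for indices
  have hsep : ∀ (f : Fin m → Fin n) (T : Finset (Fin m)), (T.image f).card ≤ k →
      ∀ i0, i0 + l ≤ ℓ → ∃ j : Fin ℓ, i0 ≤ j.val ∧ j.val < i0 + l ∧
        ∀ x ∈ T.image f, ∀ v ∈ univ.image f, v ≠ x → c j v ≠ c j x := by
    intro f T hT i0 hi0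
    by_contra hcon
    push Not at hcon
    apply hc
    rw [hB, Finset.mem_biUnion]
    refine ⟨(f, T, ⟨i0, by omega⟩), ?_, ?_⟩
    · rw [Finset.mem_filter]
      exact ⟨Finset.mem_univ _, hi0, hT⟩
    · unfold badSeq
      rw [Fintype.mem_piFinset]
      intro j
      by_cases hj : i0 ≤ j.val ∧ j.val < i0 + l
      · rw [if_pos hj]
        obtain ⟨x, hx, v, hv, h1, h2⟩ := hcon j hj.1 hj.2
        unfold badCol
        rw [Finset.mem_filter]
        exact ⟨Finset.mem_univ _, x, hx, v, hv, h1, h2⟩
      · rw [if_neg hj]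
        exact Finset.mem_univ _
  let wd : Fin n → (Fin ℓ → Fin q) := fun i j => c j i
  have hwd : Function.Injective wd := by
    intro i i' h
    by_contra hne
    let f : Fin m → Fin n := fun s => if s.val = 0 then i else i'
    obtain ⟨j, _, _, hj⟩ := hsep f {⟨0, by omega⟩} (by
      rw [Finset.image_singleton, Finset.card_singleton]; exact hk) 0 (by omega)
    have h1 := hj i (Finset.mem_image.2 ⟨⟨0, by omega⟩, by simp, by simp [f]⟩) i'
      (Finset.mem_image.2 ⟨⟨1, by omega⟩, Finset.mem_univ _, by simp [f]⟩) (Ne.symm hne)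
    exact h1 (congrFun h j).symm
  refine ⟨univ.image wd, ?_, ?_⟩
  · rw [Finset.card_image_of_injective _ hwd, Finset.card_univ, Fintype.card_fin]
  · apply isSeqIPP_of_sep hkl
    intro X V hXV hVC hXk hVm i0 hi0
    rw [← hm] at hVm
    by_cases hVe : V = ∅
    · refine ⟨⟨i0, by omega⟩, le_rfl, by simp only; omega, ?_⟩
      intro x hx
      have := hXV hx
      rw [hVe] at this
      simp at this
    obtain ⟨v0, hv0⟩ := Finset.nonempty_iff_ne_empty.2 hVe
    obtain ⟨φ⟩ : Nonempty (V ↪ Fin m) := by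
      rw [Function.Embedding.nonempty_iff_card_le]
      simpa using hVm
    have hidx : ∀ v : V, ∃ i, wd i = v := by
      intro v
      have := hVC v.2
      rw [Finset.mem_image] at this
      obtain ⟨i, _, hi⟩ := this
      exact ⟨i, hi⟩
    choose idx hidx using hidx
    let g : Fin m → V := fun s => if h : ∃ v : V, φ v = s then h.choose else ⟨v0, hv0⟩
    have hgφ : ∀ v : V, g (φ v) = v := by
      intro v
      have h : ∃ v' : V, φ v' = φ v := ⟨v, rfl⟩
      simp only [g, h, dite_true]
      exact φ.injective h.choose_spec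
    let f : Fin m → Fin n := fun s => idx (g s)
    let T : Finset (Fin m) := univ.filter (fun s => (g s : Fin ℓ → Fin q) ∈ X)
    have hwf : ∀ s, wd (f s) = g s := fun s => hidx (g s)
    have hTk : (T.image f).card ≤ k := by
      refine le_trans ?_ hXk
      rw [← Finset.card_image_of_injective _ hwd]
      apply Finset.card_le_card
      intro w hw
      rw [Finset.mem_image] at hw
      obtain ⟨i, hi, rfl⟩ := hw
      rw [Finset.mem_image] at hi
      obtain ⟨s, hs, rfl⟩ := hi
      rw [hwf]
      exact (Finset.mem_filter.1 hs).2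
    obtain ⟨j, hj0, hj1, hj⟩ := hsep f T hTk i0 hi0
    refine ⟨j, hj0, hj1, ?_⟩
    intro x hx v hv hne
    have hxs : wd (f (φ ⟨x, hXV hx⟩)) = x := by rw [hwf, hgφ]
    have hvs : wd (f (φ ⟨v, hv⟩)) = v := by rw [hwf, hgφ]
    have h1 := hj (f (φ ⟨x, hXV hx⟩)) (Finset.mem_image_of_mem _ (by
      rw [Finset.mem_filter]; refine ⟨Finset.mem_univ _, ?_⟩; rw [hgφ]; exact hx))
      (f (φ ⟨v, hv⟩)) (Finset.mem_image_of_mem _ (Finset.mem_univ _)) (by
        intro h
        apply hne
        rw [← hxs, ← hvs, h])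
    have h2 : c j (f (φ ⟨v, hv⟩)) = v j := congrFun hvs j
    have h3 : c j (f (φ ⟨x, hXV hx⟩)) = x j := congrFun hxs j
    rw [h2, h3] at h1
    exact h1

end Random

end Pool.Agent.H230R2.Seq
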