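import Pool.Agent.H230R2.IPP.SeqRate

set_option autoImplicit false

/-!
The rate for a fixed alphabet and long words.
-/

namespace Pool.Agent.H230R2.Seq

open Finset Filter Pool.Agent.H230R2.IPP

lemma maxSeq_small (k q ℓ : ℕ) (hk : 1 ≤ k) (hq : q ≤ k) : maxSeq q ℓ k ≤ k := by
  obtain ⟨C, hC, hC'⟩ := exists_max q ℓ k
  rw [← hC]
  exact small_alphabet hk hq hC'

lemma logb_le_of_le {q N k : ℕ} (hq : 2 ≤ q) (h : N ≤ k) (hk : 1 ≤ k) :
    Real.logb q N ≤ Real.logb q k := by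
  have hq1 : (1 : ℝ) < q := by exact_mod_cast hq
  rcases Nat.eq_zero_or_pos N with h3 | h3
  · rw [h3]
    simp only [Nat.cast_zero, Real.logb_zero]
    exact Real.logb_nonneg hq1 (by exact_mod_cast hk)
  · exact Real.logb_le_logb_of_le hq1 (by exact_mod_cast h3) (by exact_mod_cast h)

lemma logb_nonneg' {q N : ℕ} (hq : 2 ≤ q) : 0 ≤ Real.logb q N := by
  have hq1 : (1 : ℝ) < q := by exact_mod_cast hq
  rcases Nat.eq_zero_or_pos N with h3 | h3
  · rw [h3]; simp
  · exact Real.logb_nonneg hq1 (by exact_mod_cast h3)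

theorem rate_small (k q : ℕ) (hk : 1 ≤ k) (hq2 : 2 ≤ q) (hq : q ≤ k) :
    Tendsto (fun ℓ : ℕ => rate q ℓ k) atTop (nhds 0) := by
  have h1 : Tendsto (fun ℓ : ℕ => Real.logb q k / (ℓ : ℝ)) atTop (nhds 0) :=
    Tendsto.div_atTop tendsto_const_nhds tendsto_natCast_atTop_atTop
  refine tendsto_of_tendsto_of_tendsto_of_le_of_le tendsto_const_nhds h1 ?_ ?_
  · intro ℓ
    unfold rate
    exact div_nonneg (logb_nonneg' hq2) (Nat.cast_nonneg _)
  · intro ℓ
    unfold rate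
    exact div_le_div_of_nonneg_right (logb_le_of_le hq2 (maxSeq_small k q ℓ hk hq) hk)
      (Nat.cast_nonneg _)

theorem rate_one (q ℓ : ℕ) (hq : 2 ≤ q) (hℓ : 1 ≤ ℓ) : rate q ℓ 1 = 1 := by
  classical
  have h1 : IsSeqIPP 1 (univ : Finset (Fin ℓ → Fin q)) := by
    refine isSeqIPP_of_coll (K := ℓ - 1) ?_ (by simp; omega)
    intro V _ hV hV2
    have hpos := Finset.card_pos.2 hV
    by_cases hc : V.card = 1
    · rw [hc]
      have : coll V = ∅ := by
        rw [Finset.eq_empty_iff_forall_notMem]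
        intro j hj
        unfold coll at hj
        rw [Finset.mem_filter] at hj
        obtain ⟨_, c, hc1, c', hc2, hne, _⟩ := hj
        exact hne (Finset.card_le_one.1 hc.le c hc1 c' hc2)
      rw [this]; simp
    · have hc2 : V.card = 2 := by omega
      obtain ⟨a, b, hab, rfl⟩ := Finset.card_eq_two.1 hc2
      rw [hc2]
      have : coll ({a, b} : Finset (Fin ℓ → Fin q)) ⊆ univ.filter (fun j => a j = b j) := by
        intro j hj
        unfold coll at hj
        rw [Finset.mem_filter] at hj ⊢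
        obtain ⟨_, c, hc1, c', hc2, hne, heq⟩ := hj
        refine ⟨Finset.mem_univ _, ?_⟩
        rw [Finset.mem_insert, Finset.mem_singleton] at hc1 hc2
        rcases hc1 with rfl | rfl <;> rcases hc2 with rfl | rfl
        · exact absurd rfl hne
        · exact heq
        · exact heq.symm
        · exact absurd rfl hne
      have h2 : (univ.filter (fun j => a j = b j)).card < (univ : Finset (Fin ℓ)).card := by
        apply Finset.card_lt_card
        rw [Finset.ssubset_iff_of_subset (Finset.filter_subset _ _)]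
        by_contra hcon
        push Not at hcon
        apply hab
        funext j
        have := hcon j (Finset.mem_univ _)
        exact (Finset.mem_filter.1 this).2
      rw [Finset.card_univ, Fintype.card_fin] at h2
      have h3 := Finset.card_le_card this
      omega
  have h2 := le_maxSeq h1
  have h3 : maxSeq q ℓ 1 ≤ q ^ ℓ := by
    obtain ⟨C, hC, _⟩ := exists_max q ℓ 1
    rw [← hC]
    have := Finset.card_le_univ C
    simpa using this
  have h4 : maxSeq q ℓ 1 = q ^ ℓ := by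
    apply le_antisymm h3
    simpa using h2
  unfold rate
  rw [h4]
  have hq1 : (1 : ℝ) < q := by exact_mod_cast hq
  have hq0 : (0 : ℝ) < q := by linarith
  push_cast
  rw [← Real.rpow_natCast, Real.logb_rpow hq0 hq1.ne', div_self]
  have : (0 : ℝ) < ℓ := by exact_mod_cast hℓ
  exact this.ne'

theorem rate_large (k q : ℕ) (hk : 1 ≤ k) (hq : k < q) :
    ∃ c : ℝ, 0 < c ∧ ∀ᶠ ℓ : ℕ in atTop, c ≤ rate q ℓ k := by
  set m := k + k * k with hm
  have hq2 : 2 ≤ q := by omega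
  have hq1 : (1 : ℝ) < q := by exact_mod_cast hq2
  have hq0 : (0 : ℝ) < q := by linarith
  set ρ : ℝ := 1 - 1 / (q : ℝ) ^ m with hρ
  have hqm : (1 : ℝ) ≤ (q : ℝ) ^ m := one_le_pow₀ hq1.le
  have hqm' : (1 : ℝ) < (q : ℝ) ^ m := one_lt_pow₀ hq1 (by omega)
  have hρ1 : ρ < 1 := by
    rw [hρ]
    have : 0 < 1 / (q : ℝ) ^ m := by positivity
    linarith
  have hρ0 : 0 < ρ := by
    rw [hρ, sub_pos, div_lt_one (by positivity)]
    exact hqm'
  -- choose β
  obtain ⟨β, hβ1, hβ2⟩ : ∃ β : ℝ, 1 < β ∧ β ^ (m * k) * ρ < 1 := by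
    have hcont : ContinuousAt (fun β : ℝ => β ^ (m * k) * ρ) 1 := by fun_prop
    have h1 : ∀ᶠ β in nhds (1 : ℝ), β ^ (m * k) * ρ < 1 := by
      apply hcont.eventually_lt continuousAt_const
      simpa using hρ1
    have h2 : ∀ᶠ β in nhdsWithin (1 : ℝ) (Set.Ioi 1), β ^ (m * k) * ρ < 1 ∧ β ∈ Set.Ioi (1 : ℝ) :=
      (h1.filter_mono nhdsWithin_le_nhds).and self_mem_nhdsWithin
    obtain ⟨β, h3, h4⟩ := h2.exists
    exact ⟨β, h4, h3⟩
  have hβ0 : 0 < β := by linarith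
  set η : ℝ := β ^ (m * k) * ρ with hη
  have hη0 : 0 < η := by positivity
  -- limits
  have hlim : Tendsto (fun l : ℕ => (2 : ℝ) ^ m * β ^ (m * k) * k * ((l : ℝ) * η ^ l + η ^ l)) atTop
      (nhds 0) := by
    have h1 : Tendsto (fun l : ℕ => (l : ℝ) * η ^ l) atTop (nhds 0) :=
      tendsto_self_mul_const_pow_of_lt_one hη0.le hβ2
    have h2 : Tendsto (fun l : ℕ => η ^ l) atTop (nhds 0) :=
      tendsto_pow_atTop_nhds_zero_of_lt_one hη0.le hβ2
    have h3 := (h1.add h2).const_mul ((2 : ℝ) ^ m * β ^ (m * k) * k)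
    simpa using h3
  have hdiv : Tendsto (fun ℓ : ℕ => ℓ / k) atTop atTop := Nat.tendsto_div_const_atTop (by omega)
  have ev1 : ∀ᶠ ℓ : ℕ in atTop, (2 : ℝ) ^ m * β ^ (m * k) * k *
      (((ℓ / k : ℕ) : ℝ) * η ^ (ℓ / k) + η ^ (ℓ / k)) < 1 :=
    hdiv.eventually ((tendsto_order.1 hlim).2 1 one_pos)
  have hβpow : Tendsto (fun ℓ : ℕ => β ^ ℓ) atTop atTop := tendsto_pow_atTop_atTop_of_one_lt hβ1
  have ev2 : ∀ᶠ ℓ : ℕ in atTop, (m : ℝ) + 2 ≤ β ^ ℓ := hβpow.eventually_ge_atTop _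
  have hlogβ : 0 < Real.logb q β := Real.logb_pos hq1 hβ1
  have ev3 : ∀ᶠ ℓ : ℕ in atTop, 2 * Real.logb q 2 / Real.logb q β ≤ (ℓ : ℝ) :=
    tendsto_natCast_atTop_atTop.eventually_ge_atTop _
  refine ⟨Real.logb q β / 2, by positivity, ?_⟩
  filter_upwards [ev1, ev2, ev3, eventually_ge_atTop k] with ℓ h1 h2 h3 h4
  set l := ℓ / k with hl
  set n := ⌊β ^ ℓ⌋₊ with hn
  have hl1 : 1 ≤ l := by rw [hl]; exact Nat.div_pos h4 hk
  have hkl : k * l ≤ ℓ := Nat.mul_div_le ℓ k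
  have hℓk : ℓ + 1 ≤ k * l + k := by
    have h5 := Nat.div_add_mod ℓ k
    have h6 := Nat.mod_lt ℓ hk
    rw [← hl] at h5
    omega
  have hnle : (n : ℝ) ≤ β ^ ℓ := Nat.floor_le (by positivity)
  have hnge : β ^ ℓ < n + 1 := Nat.lt_floor_add_one _
  have hmn : m ≤ n := by
    have : (m : ℝ) < n := by linarith
    exact_mod_cast this.le
  have hnpos : 1 ≤ n := by
    have : (1 : ℝ) < n := by
      have : (0 : ℝ) ≤ m := Nat.cast_nonneg _
      linarith
    exact_mod_cast this.le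
  obtain ⟨C, hCn, hC⟩ := exists_sep_code k m q ℓ l n hk hm hq hl1 hkl hmn (by
    -- the counting inequality
    have hsub : ((q ^ n - q ^ (n - m) : ℕ) : ℝ) = (q : ℝ) ^ n * ρ := by
      rw [Nat.cast_sub (Nat.pow_le_pow_right (by omega) (Nat.sub_le _ _))]
      push_cast
      rw [hρ, mul_sub, mul_one]
      congr 1
      rw [mul_one_div, eq_div_iff (by positivity), ← pow_add]
      congr 1
      omega
    have hlℓ : l ≤ ℓ := by nlinarith
    have key : ((2 ^ m * n ^ m * (ℓ + 1) *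
      ((q ^ n - q ^ (n - m)) ^ l * (q ^ n) ^ (ℓ - l)) : ℕ) : ℝ) < (((q ^ n) ^ ℓ : ℕ) : ℝ) := by
      push_cast
      rw [hsub, mul_pow]
      have e1 : ((q : ℝ) ^ n) ^ ℓ = ((q : ℝ) ^ n) ^ l * ((q : ℝ) ^ n) ^ (ℓ - l) := by
        rw [← pow_add]; congr 1; omega
      rw [e1]
      have e2 : (2 : ℝ) ^ m * (n : ℝ) ^ m * ((ℓ : ℝ) + 1) *
          (((q : ℝ) ^ n) ^ l * ρ ^ l * ((q : ℝ) ^ n) ^ (ℓ - l)) =
          ((2 : ℝ) ^ m * (n : ℝ) ^ m * ((ℓ : ℝ) + 1) * ρ ^ l) *
          (((q : ℝ) ^ n) ^ l * ((q : ℝ) ^ n) ^ (ℓ - l)) := by ring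
      rw [e2]
      have hpos : 0 < ((q : ℝ) ^ n) ^ l * ((q : ℝ) ^ n) ^ (ℓ - l) := by positivity
      have hlt : (2 : ℝ) ^ m * (n : ℝ) ^ m * ((ℓ : ℝ) + 1) * ρ ^ l < 1 := by
        have f1 : (n : ℝ) ^ m ≤ β ^ (m * k) * (β ^ (m * k)) ^ l := by
          calc (n : ℝ) ^ m ≤ (β ^ ℓ) ^ m := pow_le_pow_left₀ (by positivity) hnle m
            _ = β ^ (ℓ * m) := by rw [← pow_mul]
            _ ≤ β ^ (m * k + m * k * l) := by
                apply pow_le_pow_right₀ hβ1.le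
                have : ℓ ≤ k * l + k := by omega
                calc ℓ * m ≤ (k * l + k) * m := Nat.mul_le_mul_right _ this
                  _ = m * k + m * k * l := by ring
            _ = _ := by rw [pow_add, pow_mul β (m * k) l]
        have f2 : ((ℓ : ℝ) + 1) ≤ k * ((l : ℝ) + 1) := by
          have : ((ℓ + 1 : ℕ) : ℝ) ≤ ((k * l + k : ℕ) : ℝ) := by exact_mod_cast hℓk
          push_cast at this
          linarith
        calc (2 : ℝ) ^ m * (n : ℝ) ^ m * ((ℓ : ℝ) + 1) * ρ ^ l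
            ≤ (2 : ℝ) ^ m * (β ^ (m * k) * (β ^ (m * k)) ^ l) * (k * ((l : ℝ) + 1)) * ρ ^ l := by
              gcongr
          _ = (2 : ℝ) ^ m * β ^ (m * k) * k * ((l : ℝ) * η ^ l + η ^ l) := by
              rw [hη, mul_pow]; ring
          _ < 1 := h1
      calc _ < 1 * (((q : ℝ) ^ n) ^ l * ((q : ℝ) ^ n) ^ (ℓ - l)) :=
            mul_lt_mul_of_pos_right hlt hpos
        _ = _ := one_mul _
    exact_mod_cast key)
  have hN : n ≤ maxSeq q ℓ k := by rw [← hCn]; exact le_maxSeq hC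
  have hℓpos : (0 : ℝ) < ℓ := by
    have : 0 < ℓ := by omega
    exact_mod_cast this
  unfold rate
  rw [le_div_iff₀ hℓpos]
  have hnr : (0 : ℝ) < n := by exact_mod_cast hnpos
  have h5 : Real.logb q (β ^ ℓ / 2) ≤ Real.logb q (maxSeq q ℓ k) := by
    apply Real.logb_le_logb_of_le hq1 (by positivity)
    have h6 : (1 : ℝ) ≤ n := by exact_mod_cast hnpos
    have h7 : β ^ ℓ / 2 ≤ n := by linarith
    exact h7.trans (by exact_mod_cast hN)
  refine le_trans ?_ h5
  rw [Real.logb_div (by positivity) (by norm_num), Real.logb_pow]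
  rw [div_le_iff₀ hlogβ] at h3
  linarith

end Pool.Agent.H230R2.Seq
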