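import Pool.Agent.H230R2.IPP.SeqDefs
import Pool.Agent.H230R2.IPP.Coll

set_option autoImplicit false

/-!
Codes with few collisions are sequential IPP codes.
-/

namespace Pool.Agent.H230R2.Seq

open Finset Pool.Agent.H230R2.IPP

variable {ℓ q : ℕ}

lemma ident_mono_succ (A : Alg ℓ q) (d : Fin ℓ → Fin q) (i : ℕ) :
    ident A d i ⊆ ident A d (i + 1) := Finset.subset_union_left

lemma ident_mono (A : Alg ℓ q) (d : Fin ℓ → Fin q) {i j : ℕ} (h : i ≤ j) :
    ident A d i ⊆ ident A d j := by
  induction h with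
  | refl => exact Finset.Subset.refl _
  | step _ ih => exact ih.trans (ident_mono_succ A d _)

open Classical in
/-- the words of `C` contained in all members of `F` -/
noncomputable def capF (C : Finset (Fin ℓ → Fin q)) (F : Finset (Finset (Fin ℓ → Fin q))) :
    Finset (Fin ℓ → Fin q) := C.filter (fun c => ∀ H ∈ F, c ∈ H)

open Classical in
/-- hypotheses consistent with the first `i` symbols -/
noncomputable def hyp (C : Finset (Fin ℓ → Fin q)) (k : ℕ) (d : Fin ℓ → Fin q) :
    ℕ → Finset (Finset (Fin ℓ → Fin q))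
  | 0 => C.powerset.filter (fun X => X.card ≤ k)
  | i + 1 => (hyp C k d i).filter
      (fun X => ∀ h : i < ℓ, ∃ x ∈ X, x ∉ capF C (hyp C k d i) ∧ x ⟨i, h⟩ = d ⟨i, h⟩)

/-- the words in all consistent hypotheses -/
noncomputable def capU (C : Finset (Fin ℓ → Fin q)) (k : ℕ) (d : Fin ℓ → Fin q) (i : ℕ) :
    Finset (Fin ℓ → Fin q) := capF C (hyp C k d i)

lemma mem_capU {C : Finset (Fin ℓ → Fin q)} {k : ℕ} {d : Fin ℓ → Fin q} {i : ℕ}
    {c : Fin ℓ → Fin q} : c ∈ capU C k d i ↔ c ∈ C ∧ ∀ H ∈ hyp C k d i, c ∈ H := by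
  unfold capU capF
  rw [Finset.mem_filter]

lemma hyp_succ_subset (C : Finset (Fin ℓ → Fin q)) (k : ℕ) (d : Fin ℓ → Fin q) (i : ℕ) :
    hyp C k d (i + 1) ⊆ hyp C k d i := Finset.filter_subset _ _

lemma hyp_anti (C : Finset (Fin ℓ → Fin q)) (k : ℕ) (d : Fin ℓ → Fin q) {i j : ℕ} (h : i ≤ j) :
    hyp C k d j ⊆ hyp C k d i := by
  induction h with
  | refl => exact Finset.Subset.refl _
  | step _ ih => exact (hyp_succ_subset C k d _).trans ih

lemma hyp_sub {C : Finset (Fin ℓ → Fin q)} {k : ℕ} {d : Fin ℓ → Fin q} {i : ℕ}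
    {H : Finset (Fin ℓ → Fin q)} (hH : H ∈ hyp C k d i) : H ⊆ C ∧ H.card ≤ k := by
  have := hyp_anti C k d (Nat.zero_le i) hH
  rw [hyp, Finset.mem_filter, Finset.mem_powerset] at this
  exact this

lemma capU_mono (C : Finset (Fin ℓ → Fin q)) (k : ℕ) (d : Fin ℓ → Fin q) {i j : ℕ} (h : i ≤ j) :
    capU C k d i ⊆ capU C k d j := by
  intro c hc
  rw [mem_capU] at hc ⊢
  exact ⟨hc.1, fun H hH => hc.2 H (hyp_anti C k d h hH)⟩

lemma capU_zero (C : Finset (Fin ℓ → Fin q)) (k : ℕ) (d : Fin ℓ → Fin q) : capU C k d 0 = ∅ := by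
  rw [Finset.eq_empty_iff_forall_notMem]
  intro c hc
  rw [mem_capU] at hc
  have := hc.2 ∅ (by
    rw [hyp, Finset.mem_filter, Finset.mem_powerset]
    exact ⟨Finset.empty_subset _, by simp⟩)
  simp at this

lemma hyp_congr (C : Finset (Fin ℓ → Fin q)) (k : ℕ) (d d' : Fin ℓ → Fin q) (i : ℕ)
    (h : ∀ j : Fin ℓ, j.val < i → d j = d' j) : hyp C k d i = hyp C k d' i := by
  induction i with
  | zero => rfl
  | succ i ih =>
    have h1 := ih (fun j hj => h j (by omega))
    rw [hyp, hyp, h1]
    apply Finset.filter_congr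
    intro X _
    constructor
    · intro h2 hi
      obtain ⟨x, hx1, hx2, hx3⟩ := h2 hi
      exact ⟨x, hx1, hx2, by rw [hx3]; exact h ⟨i, hi⟩ (by simp)⟩
    · intro h2 hi
      obtain ⟨x, hx1, hx2, hx3⟩ := h2 hi
      exact ⟨x, hx1, hx2, by rw [hx3]; exact (h ⟨i, hi⟩ (by simp)).symm⟩

lemma capU_congr (C : Finset (Fin ℓ → Fin q)) (k : ℕ) (d d' : Fin ℓ → Fin q) (i : ℕ)
    (h : ∀ j : Fin ℓ, j.val < i → d j = d' j) : capU C k d i = capU C k d' i := by
  unfold capU
  rw [hyp_congr C k d d' i h]

/-- the algorithm -/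
noncomputable def alg (C : Finset (Fin ℓ → Fin q)) (k : ℕ) : Alg ℓ q :=
  fun i p _ => capU C k (fun j => p ⟨min j.val i.val, by omega⟩) (i.val + 1)

lemma ident_alg (C : Finset (Fin ℓ → Fin q)) (k : ℕ) (d : Fin ℓ → Fin q) (i : ℕ) (hi : i ≤ ℓ) :
    ident (alg C k) d i = capU C k d i := by
  induction i with
  | zero => rw [capU_zero]; rfl
  | succ i ih =>
    have h1 : i < ℓ := by omega
    rw [ident, dif_pos h1, ih (by omega)]
    have h2 : alg C k ⟨i, h1⟩ (fun j => d ⟨j.val, lt_of_lt_of_le j.isLt (Nat.succ_le_of_lt h1)⟩)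
        (capU C k d i) = capU C k d (i + 1) := by
      unfold alg
      apply capU_congr
      intro j hj
      simp only at hj
      simp only
      congr 1
      apply Fin.ext
      simp only
      omega
    rw [h2]
    exact Finset.union_eq_right.2 (capU_mono C k d (Nat.le_succ i))

open Classical in
/-- rounds `j < i` explained by `S` and not by the words identified in between -/
noncomputable def RR (C : Finset (Fin ℓ → Fin q)) (k : ℕ) (d : Fin ℓ → Fin q) (i : ℕ)
    (S : Finset (Fin ℓ → Fin q)) : Finset (Fin ℓ) :=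
  univ.filter (fun j => j.val < i ∧ (∃ x ∈ S, x j = d j) ∧
    ∀ y ∈ capU C k d i, y ∉ capU C k d j → y j ≠ d j)

lemma hyp_explain {C : Finset (Fin ℓ → Fin q)} {k : ℕ} {d : Fin ℓ → Fin q} {i : ℕ}
    {H : Finset (Fin ℓ → Fin q)} (hH : H ∈ hyp C k d i) (j : Fin ℓ) (hj : j.val < i) :
    ∃ h ∈ H, h ∉ capU C k d j ∧ h j = d j := by
  have h1 := hyp_anti C k d (show j.val + 1 ≤ i from hj) hH
  rw [hyp, Finset.mem_filter] at h1
  exact h1.2 j.2

lemma RR_le {C : Finset (Fin ℓ → Fin q)} {k K : ℕ}
    (hC : ∀ V ⊆ C, V.Nonempty → V.card ≤ 2 * k → (coll V).card ≤ K * (V.card - 1))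
    (d : Fin ℓ → Fin q) (i : ℕ) (X : Finset (Fin ℓ → Fin q)) (hX : X ∈ hyp C k d i)
    (S : Finset (Fin ℓ → Fin q)) (hS : S ⊆ X \ capU C k d i) :
    (RR C k d i S).card ≤ K * ∑ r ∈ range S.card, (k - (capU C k d i).card - r) := by
  classical
  induction S using Finset.strongInduction with
  | H S ih =>
    by_cases hSe : S = ∅
    · subst hSe
      have : RR C k d i ∅ = ∅ := by
        rw [Finset.eq_empty_iff_forall_notMem]
        intro j hj
        unfold RR at hj
        rw [Finset.mem_filter] at hj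
        obtain ⟨_, _, ⟨x, hx, _⟩, _⟩ := hj
        simp at hx
      rw [this]; simp
    obtain ⟨x0, hx0⟩ := Finset.nonempty_iff_ne_empty.2 hSe
    have hXC := hyp_sub hX
    have hUX : capU C k d i ⊆ X := fun c hc => (mem_capU.1 hc).2 X hX
    have hx0' := hS hx0
    rw [Finset.mem_sdiff] at hx0'
    obtain ⟨H, hH, hx0H⟩ : ∃ H ∈ hyp C k d i, x0 ∉ H := by
      by_contra hcon
      push Not at hcon
      exact hx0'.2 (mem_capU.2 ⟨hXC.1 hx0'.1, hcon⟩)
    have hHC := hyp_sub hH
    have hUH : capU C k d i ⊆ H := fun c hc => (mem_capU.1 hc).2 H hH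
    set U := capU C k d i with hU
    set B := S ∩ H with hB
    set A := S \ H with hA
    have hBS : B ⊂ S := by
      rw [Finset.ssubset_iff_of_subset Finset.inter_subset_left]
      exact ⟨x0, hx0, fun h => hx0H (Finset.mem_inter.1 h).2⟩
    have hAne : x0 ∈ A := Finset.mem_sdiff.2 ⟨hx0, hx0H⟩
    have hcS : A.card + B.card = S.card := Finset.card_sdiff_add_card_inter S H
    have ihB := ih B hBS (hBS.1.trans hS)
    -- the set of explanations
    set V := A ∪ (H \ (U ∪ B)) with hV
    have hVC : V ⊆ C := by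
      intro v hv
      rw [hV, Finset.mem_union] at hv
      rcases hv with hv | hv
      · rw [hA, Finset.mem_sdiff] at hv
        exact hXC.1 (Finset.mem_sdiff.1 (hS hv.1)).1
      · exact hHC.1 (Finset.mem_sdiff.1 hv).1
    have hUBd : Disjoint U B := by
      rw [Finset.disjoint_left]
      intro c hc hcB
      exact (Finset.mem_sdiff.1 (hS (Finset.mem_inter.1 hcB).1)).2 hc
    have hUBH : U ∪ B ⊆ H := Finset.union_subset hUH Finset.inter_subset_right
    have hcUB : (U ∪ B).card = U.card + B.card := Finset.card_union_of_disjoint hUBd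
    have hcH : (H \ (U ∪ B)).card + (U.card + B.card) = H.card := by
      rw [← hcUB]
      exact Finset.card_sdiff_add_card_eq_card hUBH
    have hUS : U.card + S.card ≤ k := by
      have h1 : Disjoint U S := by
        rw [Finset.disjoint_left]
        intro c hc hcS
        exact (Finset.mem_sdiff.1 (hS hcS)).2 hc
      rw [← Finset.card_union_of_disjoint h1]
      refine (Finset.card_le_card (Finset.union_subset hUX ?_)).trans hXC.2
      exact hS.trans Finset.sdiff_subset
    have hVc : V.card ≤ A.card + (H \ (U ∪ B)).card := Finset.card_union_le _ _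
    have hVne : V.Nonempty := ⟨x0, Finset.mem_union_left _ hAne⟩
    have hcoll := hC V hVC hVne (by omega)
    -- covering
    have hcov : RR C k d i S ⊆ RR C k d i B ∪ coll V := by
      intro j hj
      unfold RR at hj
      rw [Finset.mem_filter] at hj
      obtain ⟨_, hji, ⟨x, hx, hxj⟩, hun⟩ := hj
      rw [Finset.mem_union]
      by_cases hBj : ∃ x ∈ B, x j = d j
      · left
        unfold RR
        rw [Finset.mem_filter]
        exact ⟨Finset.mem_univ _, hji, hBj, hun⟩
      · right
        push Not at hBj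
        obtain ⟨h, hhH, hhU, hhj⟩ := hyp_explain hH j hji
        have hhUi : h ∉ U := fun hc => hun h hc hhU hhj
        have hhB : h ∉ B := fun hc => hBj h hc hhj
        have hxH : x ∉ H := fun hc => hBj x (Finset.mem_inter.2 ⟨hx, hc⟩) hxj
        unfold coll
        rw [Finset.mem_filter]
        refine ⟨Finset.mem_univ _, x, Finset.mem_union_left _ (Finset.mem_sdiff.2 ⟨hx, hxH⟩), h,
          Finset.mem_union_right _ (Finset.mem_sdiff.2 ⟨hhH, ?_⟩), ?_, by rw [hxj, hhj]⟩
        · rw [Finset.mem_union]; push Not; exact ⟨hhUi, hhB⟩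
        · rintro rfl; exact hxH hhH
    have h1 := (Finset.card_le_card hcov).trans (Finset.card_union_le _ _)
    -- arithmetic
    have hApos : 1 ≤ A.card := Finset.card_pos.2 ⟨x0, hAne⟩
    have hsum : ∑ r ∈ range B.card, (k - U.card - r) + (V.card - 1) ≤
        ∑ r ∈ range S.card, (k - U.card - r) := by
      rw [← hcS, add_comm A.card B.card, Finset.sum_range_add]
      apply Nat.add_le_add_left
      obtain ⟨a, ha⟩ : ∃ a, A.card = a + 1 := ⟨A.card - 1, by omega⟩
      rw [ha, Finset.sum_range_succ']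
      have h2 : ∑ _r ∈ range a, 1 ≤ ∑ r ∈ range a, (k - U.card - (B.card + (r + 1))) := by
        apply Finset.sum_le_sum
        intro r hr
        rw [Finset.mem_range] at hr
        omega
      rw [Finset.sum_const, Finset.card_range, smul_eq_mul, mul_one] at h2
      omega
    calc (RR C k d i S).card ≤ (RR C k d i B).card + (coll V).card := h1
      _ ≤ K * ∑ r ∈ range B.card, (k - U.card - r) + K * (V.card - 1) := Nat.add_le_add ihB hcoll
      _ = K * (∑ r ∈ range B.card, (k - U.card - r) + (V.card - 1)) := by ring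
      _ ≤ _ := Nat.mul_le_mul_left _ hsum

open Classical in
/-- rounds explained by words identified later -/
noncomputable def DD (C : Finset (Fin ℓ → Fin q)) (k : ℕ) (d : Fin ℓ → Fin q) (i : ℕ) :
    Finset (Fin ℓ) :=
  univ.filter (fun j => j.val < i ∧ ∃ y ∈ capU C k d i, y ∉ capU C k d j ∧ y j = d j)

lemma DD_le {C : Finset (Fin ℓ → Fin q)} {k K : ℕ}
    (hC : ∀ V ⊆ C, V.Nonempty → V.card ≤ 2 * k → (coll V).card ≤ K * (V.card - 1))
    (d : Fin ℓ → Fin q) (X : Finset (Fin ℓ → Fin q)) (i : ℕ) (hi : i ≤ ℓ)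
    (hX : X ∈ hyp C k d i) :
    (DD C k d i).card ≤ K * ∑ r ∈ range (capU C k d i).card, (k - r) + (capU C k d i).card := by
  classical
  induction i with
  | zero =>
    have : DD C k d 0 = ∅ := by
      rw [Finset.eq_empty_iff_forall_notMem]
      intro j hj
      unfold DD at hj
      rw [Finset.mem_filter] at hj
      omega
    rw [this]; simp
  | succ i ih =>
    have hX' : X ∈ hyp C k d i := hyp_succ_subset C k d i hX
    have ih' := ih (by omega) hX'
    have hmono := capU_mono C k d (Nat.le_succ i)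
    set U := capU C k d i with hU
    set U' := capU C k d (i + 1) with hU'
    have hUX' : U' ⊆ X := fun c hc => (mem_capU.1 hc).2 X hX
    set S := U' \ U with hS
    have hSX : S ⊆ X \ U := Finset.sdiff_subset_sdiff hUX' (Finset.Subset.refl _)
    have hR := RR_le hC d i X hX' S hSX
    rw [← hU] at hR
    have hcard : S.card + U.card = U'.card := Finset.card_sdiff_add_card_eq_card hmono
    have hil : i < ℓ := hi
    by_cases hSe : S = ∅
    · have hUU : U' = U := by
        apply Finset.Subset.antisymm _ hmono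
        rw [← Finset.sdiff_eq_empty_iff_subset]; exact hSe
      have : DD C k d (i + 1) ⊆ DD C k d i := by
        intro j hj
        unfold DD at hj ⊢
        rw [Finset.mem_filter] at hj ⊢
        obtain ⟨_, hji, y, hy, hyj, hyd⟩ := hj
        have hy' : y ∈ U := by rw [← hUU]; exact hy
        refine ⟨Finset.mem_univ _, ?_, y, hy', hyj, hyd⟩
        by_contra hcon
        have : j.val = i := by omega
        rw [this] at hyj
        exact hyj hy'
      rw [hUU]
      exact (Finset.card_le_card this).trans ih'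
    · have hSpos : 1 ≤ S.card := Finset.card_pos.2 (Finset.nonempty_iff_ne_empty.2 hSe)
      have hcov : DD C k d (i + 1) ⊆ (DD C k d i ∪ RR C k d i S) ∪ {⟨i, hil⟩} := by
        intro j hj
        unfold DD at hj
        rw [Finset.mem_filter] at hj
        obtain ⟨_, hji, y, hy, hyj, hyd⟩ := hj
        rw [Finset.mem_union, Finset.mem_union, Finset.mem_singleton]
        by_cases hji' : j.val = i
        · right; exact Fin.ext hji'
        · left
          by_cases h1 : ∃ y' ∈ U, y' ∉ capU C k d j ∧ y' j = d j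
          · left
            unfold DD
            rw [Finset.mem_filter]
            exact ⟨Finset.mem_univ _, by omega, h1⟩
          · right
            push Not at h1
            unfold RR
            rw [Finset.mem_filter]
            refine ⟨Finset.mem_univ _, by omega, ⟨y, ?_, hyd⟩, h1⟩
            rw [hS, Finset.mem_sdiff]
            exact ⟨hy, fun hc => h1 y hc hyj hyd⟩
      have h2 := (Finset.card_le_card hcov).trans
        ((Finset.card_union_le _ _).trans (Nat.add_le_add_right (Finset.card_union_le _ _) _))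
      rw [Finset.card_singleton] at h2
      have h3 : ∑ r ∈ range U'.card, (k - r) =
          ∑ r ∈ range U.card, (k - r) + ∑ r ∈ range S.card, (k - U.card - r) := by
        rw [← hcard, add_comm S.card, Finset.sum_range_add]
        congr 1
        apply Finset.sum_congr rfl
        intro r _
        omega
      rw [h3, Nat.mul_add]
      omega

lemma sum_tri (k : ℕ) : ∑ r ∈ range k, (k - r) = k * (k + 1) / 2 := by
  have h1 : ∑ r ∈ range k, (k - r) = ∑ r ∈ range k, (r + 1) := by
    rw [← Finset.sum_range_reflect (fun r => r + 1) k]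
    apply Finset.sum_congr rfl
    intro r hr
    rw [Finset.mem_range] at hr
    omega
  have h2 : ∑ r ∈ range (k + 1), r = ∑ r ∈ range k, (r + 1) + 0 := Finset.sum_range_succ' _ _
  have h3 : ∑ r ∈ range (k + 1), r = (k + 1) * (k + 1 - 1) / 2 := Finset.sum_range_id (k + 1)
  rw [h1]
  rw [Nat.add_sub_cancel, Nat.mul_comm] at h3
  omega

/-- A code with few collisions is a sequential IPP code. -/
theorem isSeqIPP_of_coll {C : Finset (Fin ℓ → Fin q)} {k K : ℕ}
    (hC : ∀ V ⊆ C, V.Nonempty → V.card ≤ 2 * k → (coll V).card ≤ K * (V.card - 1))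
    (hℓ : K * (k * (k + 1) / 2) + k ≤ ℓ) : IsSeqIPP k C := by
  classical
  refine ⟨alg C k, ?_⟩
  intro X hXC hXk d hleg
  by_contra hcon
  push Not at hcon
  have hne : ∀ i ≤ ℓ, capU C k d i ≠ X := by
    intro i hi
    rw [← ident_alg C k d i hi]; exact hcon i hi
  have hmem : ∀ i ≤ ℓ, X ∈ hyp C k d i := by
    intro i
    induction i with
    | zero =>
      intro _
      rw [hyp, Finset.mem_filter, Finset.mem_powerset]
      exact ⟨hXC, hXk⟩
    | succ i ih =>
      intro hi
      have h1 := ih (by omega)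
      rw [hyp, Finset.mem_filter]
      refine ⟨h1, ?_⟩
      intro hil
      have hUX : capU C k d i ⊆ X := fun c hc => (mem_capU.1 hc).2 X h1
      have h2 := hleg ⟨i, hil⟩
      rw [ident_alg C k d i (by omega)] at h2
      obtain ⟨x, hx, hxd⟩ := h2 (by
        rw [Finset.sdiff_nonempty]
        intro h3
        exact hne i (by omega) (Finset.Subset.antisymm hUX h3))
      rw [Finset.mem_sdiff] at hx
      exact ⟨x, hx.1, hx.2, hxd⟩
  have hX := hmem ℓ le_rfl
  have hUX : capU C k d ℓ ⊆ X := fun c hc => (mem_capU.1 hc).2 X hX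
  have hD := DD_le hC d X ℓ le_rfl hX
  have hR := RR_le hC d ℓ X hX (X \ capU C k d ℓ) (Finset.Subset.refl _)
  set U := capU C k d ℓ with hU
  have hlt : U.card < X.card :=
    Finset.card_lt_card (Finset.ssubset_iff_subset_ne.2 ⟨hUX, hne ℓ le_rfl⟩)
  have hcov : (univ : Finset (Fin ℓ)) ⊆ DD C k d ℓ ∪ RR C k d ℓ (X \ U) := by
    intro j _
    rw [Finset.mem_union]
    by_cases h1 : ∃ y ∈ U, y ∉ capU C k d j ∧ y j = d j
    · left
      unfold DD
      rw [Finset.mem_filter]
      exact ⟨Finset.mem_univ _, j.2, h1⟩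
    · right
      push Not at h1
      obtain ⟨x, hx, hxU, hxd⟩ := hyp_explain hX j j.2
      unfold RR
      rw [Finset.mem_filter]
      refine ⟨Finset.mem_univ _, j.2, ⟨x, ?_, hxd⟩, h1⟩
      rw [Finset.mem_sdiff]
      exact ⟨hx, fun hc => h1 x hc hxU hxd⟩
  have h1 := (Finset.card_le_card hcov).trans (Finset.card_union_le _ _)
  rw [Finset.card_univ, Fintype.card_fin] at h1
  have hcard : (X \ U).card + U.card = X.card := Finset.card_sdiff_add_card_eq_card hUX
  have h3 : ∑ r ∈ range X.card, (k - r) =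
      ∑ r ∈ range U.card, (k - r) + ∑ r ∈ range (X \ U).card, (k - U.card - r) := by
    rw [← hcard, add_comm (X \ U).card, Finset.sum_range_add]
    congr 1
    apply Finset.sum_congr rfl
    intro r _
    omega
  have h4 : ∑ r ∈ range X.card, (k - r) ≤ k * (k + 1) / 2 := by
    have h5 : ∑ r ∈ range X.card, (k - r) ≤ ∑ r ∈ range k, (k - r) :=
      Finset.sum_le_sum_of_subset (Finset.range_subset_range.2 hXk)
    have h6 : ∑ r ∈ range k, (k - r) = k * (k + 1) / 2 := sum_tri k
    omega
  have h5 := Nat.mul_le_mul_left K h4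
  rw [h3, Nat.mul_add] at h5
  omega

end Pool.Agent.H230R2.Seq
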