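import Pool.Agent.H230R2.IPP.SeqFixed

set_option autoImplicit false

/-!
The limit of the rate for large alphabets.
-/

namespace Pool.Agent.H230R2.Seq

open Finset Filter

lemma bdd (q ℓ k : ℕ) :
    BddAbove {n | ∃ C : Finset (Fin ℓ → Fin q), C.card = n ∧ IsSeqIPP k C} := by
  refine ⟨q ^ ℓ, ?_⟩
  rintro n ⟨C, rfl, _⟩
  have := Finset.card_le_univ C
  simpa using this

lemma isSeqIPP_empty (q ℓ k : ℕ) : IsSeqIPP k (∅ : Finset (Fin ℓ → Fin q)) := by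
  refine ⟨fun _ _ _ => ∅, ?_⟩
  intro X hX _ d _
  refine ⟨0, Nat.zero_le _, ?_⟩
  rw [Finset.subset_empty.1 hX]
  rfl

lemma nonempty_set (q ℓ k : ℕ) :
    {n | ∃ C : Finset (Fin ℓ → Fin q), C.card = n ∧ IsSeqIPP k C}.Nonempty :=
  ⟨0, ∅, rfl, isSeqIPP_empty q ℓ k⟩

lemma le_maxSeq {q ℓ k : ℕ} {C : Finset (Fin ℓ → Fin q)} (h : IsSeqIPP k C) :
    C.card ≤ maxSeq q ℓ k := le_csSup (bdd q ℓ k) ⟨C, rfl, h⟩

lemma exists_max (q ℓ k : ℕ) : ∃ C : Finset (Fin ℓ → Fin q), C.card = maxSeq q ℓ k ∧ IsSeqIPP k C :=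
  Nat.sSup_mem (nonempty_set q ℓ k) (bdd q ℓ k)

/-- the exponent -/
def tstar (ℓ k : ℕ) : ℕ := if ℓ < k then 0 else (ℓ - k) / (k * (k + 1) / 2) + 1

lemma tri_pos {k : ℕ} (hk : 1 ≤ k) : 1 ≤ k * (k + 1) / 2 := by
  rw [Nat.le_div_iff_mul_le (by norm_num)]
  nlinarith

lemma upper_tstar {k ℓ : ℕ} (hk : 1 ≤ k) : ℓ ≤ tstar ℓ k * (k * (k + 1) / 2) + k - 1 := by
  unfold tstar
  split_ifs with h
  · omega
  · have h1 := Nat.div_add_mod (ℓ - k) (k * (k + 1) / 2)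
    have h2 := Nat.mod_lt (ℓ - k) (tri_pos hk)
    rw [Nat.add_mul, Nat.mul_comm ((ℓ - k) / (k * (k + 1) / 2))]
    omega

lemma maxSeq_upper {q ℓ k : ℕ} (hk : 1 ≤ k) (hq : 1 ≤ q) :
    maxSeq q ℓ k ≤ (2 ^ ℓ * k + k) * q ^ tstar ℓ k := by
  obtain ⟨C, hC, hC'⟩ := exists_max q ℓ k
  by_contra hcon
  push Not at hcon
  refine not_isSeqIPP hk hq (upper_tstar hk) ?_ hC'
  rw [hC]
  have h1 : 1 ≤ q ^ tstar ℓ k := Nat.one_le_pow _ _ hq
  have h2 : 2 ^ ℓ * (k * q ^ tstar ℓ k) + k ≤ (2 ^ ℓ * k + k) * q ^ tstar ℓ k := by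
    have h3 : k ≤ k * q ^ tstar ℓ k := Nat.le_mul_of_pos_right k h1
    calc 2 ^ ℓ * (k * q ^ tstar ℓ k) + k ≤ 2 ^ ℓ * (k * q ^ tstar ℓ k) + k * q ^ tstar ℓ k := by omega
      _ = _ := by ring
  omega

lemma maxSeq_lower {ℓ k : ℕ} (hk : 1 ≤ k) (hkℓ : k ≤ ℓ) (ε : ℝ) (hε : 0 < ε) :
    ∃ Q : ℕ, ∀ q : ℕ, Q ≤ q → (q : ℝ) ^ ((tstar ℓ k : ℝ) - ε) < maxSeq q ℓ k := by
  set K := (ℓ - k) / (k * (k + 1) / 2) with hK
  have h1 : K * (k * (k + 1) / 2) + k ≤ ℓ := by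
    have := Nat.div_mul_le_self (ℓ - k) (k * (k + 1) / 2)
    rw [← hK] at this
    omega
  have hT := tri_pos hk
  have h2 : K + 1 ≤ ℓ := by nlinarith
  obtain ⟨Q, hQ⟩ := Pool.Agent.H230R2.IPP.code_asymp_sub ℓ (2 * k) K (by omega) h2 ε hε
  refine ⟨Q, ?_⟩
  intro q hq
  obtain ⟨C, hC1, hC2⟩ := hQ q hq
  have h3 : tstar ℓ k = K + 1 := by
    unfold tstar
    rw [if_neg (by omega)]
  rw [h3]
  push_cast
  refine hC1.trans_le ?_
  exact_mod_cast le_maxSeq (isSeqIPP_of_coll hC2 h1)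

theorem rate_tendsto (k ℓ : ℕ) (hk : 1 ≤ k) (hℓ : 1 ≤ ℓ) :
    Tendsto (fun q : ℕ => rate q ℓ k) atTop (nhds ((tstar ℓ k : ℝ) / ℓ)) := by
  have hℓr : (0 : ℝ) < ℓ := by exact_mod_cast hℓ
  unfold rate
  apply Tendsto.div_const
  -- logb q N → tstar
  set c : ℝ := ((2 ^ ℓ * k + k : ℕ) : ℝ) with hc
  have hc1 : 0 < c := by
    rw [hc]
    have : 0 < 2 ^ ℓ * k + k := by omega
    exact_mod_cast this
  have hlog : Tendsto (fun q : ℕ => Real.log (q : ℝ)) atTop atTop :=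
    Real.tendsto_log_atTop.comp tendsto_natCast_atTop_atTop
  have hup : Tendsto (fun q : ℕ => (tstar ℓ k : ℝ) + Real.log c / Real.log (q : ℝ)) atTop
      (nhds (tstar ℓ k : ℝ)) := by
    have : Tendsto (fun q : ℕ => Real.log c / Real.log (q : ℝ)) atTop (nhds 0) :=
      Tendsto.div_atTop tendsto_const_nhds hlog
    simpa using this.const_add (tstar ℓ k : ℝ)
  rw [tendsto_order]
  constructor
  · -- lower
    intro a ha
    by_cases hkℓ : k ≤ ℓ
    · obtain ⟨Q, hQ⟩ := maxSeq_lower hk hkℓ (((tstar ℓ k : ℝ) - a) / 2) (by linarith)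
      filter_upwards [eventually_ge_atTop Q, eventually_ge_atTop 2] with q hq hq2
      have hq1 : (1 : ℝ) < q := by exact_mod_cast hq2
      have hq0 : (0 : ℝ) < q := by linarith
      have h1 := hQ q hq
      have h2 : 0 < (q : ℝ) ^ ((tstar ℓ k : ℝ) - ((tstar ℓ k : ℝ) - a) / 2) :=
        Real.rpow_pos_of_pos hq0 _
      have h3 := Real.logb_lt_logb hq1 h2 h1
      rw [Real.logb_rpow hq0 hq1.ne'] at h3
      linarith
    · have h0 : tstar ℓ k = 0 := by unfold tstar; rw [if_pos (by omega)]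
      filter_upwards [eventually_ge_atTop 2] with q hq2
      have hq1 : (1 : ℝ) < q := by exact_mod_cast hq2
      rw [h0] at ha
      push_cast at ha
      refine ha.trans_le ?_
      rcases Nat.eq_zero_or_pos (maxSeq q ℓ k) with h1 | h1
      · rw [h1]; simp
      · exact Real.logb_nonneg hq1 (by exact_mod_cast h1)
  · -- upper
    intro a ha
    have h1 := (tendsto_order.1 hup).2 a ha
    filter_upwards [h1, eventually_ge_atTop 2] with q h2 hq2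
    have hq1 : (1 : ℝ) < q := by exact_mod_cast hq2
    have hq0 : (0 : ℝ) < q := by linarith
    refine lt_of_le_of_lt ?_ h2
    have hlogq : 0 < Real.log q := Real.log_pos hq1
    rcases Nat.eq_zero_or_pos (maxSeq q ℓ k) with h3 | h3
    · rw [h3]
      simp only [Nat.cast_zero, Real.logb_zero]
      have : 1 ≤ c := by
        rw [hc]
        have : 1 ≤ 2 ^ ℓ * k + k := by omega
        exact_mod_cast this
      have : 0 ≤ Real.log c := Real.log_nonneg this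
      positivity
    · have h4 : ((maxSeq q ℓ k : ℕ) : ℝ) ≤ c * (q : ℝ) ^ (tstar ℓ k) := by
        have := maxSeq_upper (q := q) (ℓ := ℓ) hk (by omega)
        rw [hc]
        exact_mod_cast this
      have h5 : Real.logb q (maxSeq q ℓ k) ≤ Real.logb q (c * (q : ℝ) ^ (tstar ℓ k)) :=
        Real.logb_le_logb_of_le hq1 (by exact_mod_cast h3) h4
      refine h5.trans (le_of_eq ?_)
      rw [Real.logb, Real.log_mul hc1.ne' (by positivity), Real.log_pow]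
      field_simp
      ring

end Pool.Agent.H230R2.Seq
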