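import Pool.Agent.H230R2.IPP.SeqLower

set_option autoImplicit false

/-!
An adversary strategy: large codes are not sequential IPP codes.
-/

namespace Pool.Agent.H230R2.Seq

open Finset

variable {ℓ q : ℕ}

lemma ident_congr (A : Alg ℓ q) (d d' : Fin ℓ → Fin q) (i : ℕ)
    (h : ∀ j : Fin ℓ, j.val < i → d j = d' j) : ident A d i = ident A d' i := by
  induction i with
  | zero => rfl
  | succ i ih =>
    rw [ident, ident, ih (fun j hj => h j (by omega))]
    congr 1
    by_cases hi : i < ℓ
    · rw [dif_pos hi, dif_pos hi]
      congr 1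
      funext j
      exact h _ (by have := j.2; simpa using this)
    · rw [dif_neg hi, dif_neg hi]

/-- partial behaviours extend -/
lemma exists_ext (A : Alg ℓ q) (X : Finset (Fin ℓ → Fin q)) (d : Fin ℓ → Fin q) (j : ℕ)
    (h : ∀ t : Fin ℓ, t.val < j → ∃ x ∈ X \ ident A d t, x t = d t) :
    ∃ d', (∀ t : Fin ℓ, t.val < j → d' t = d t) ∧ Legit A X d' := by
  classical
  have key : ∀ n : ℕ, ∃ d' : Fin ℓ → Fin q, (∀ t : Fin ℓ, t.val < j → d' t = d t) ∧
      ∀ t : Fin ℓ, t.val < j + n → (X \ ident A d' t).Nonempty →
        ∃ x ∈ X \ ident A d' t, x t = d' t := by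
    intro n
    induction n with
    | zero => exact ⟨d, fun _ _ => rfl, fun t ht _ => h t ht⟩
    | succ n ih =>
      obtain ⟨d', h1, h2⟩ := ih
      by_cases hn : j + n < ℓ
      · by_cases hne : (X \ ident A d' (j + n)).Nonempty
        · obtain ⟨x, hx⟩ := hne
          let t0 : Fin ℓ := ⟨j + n, hn⟩
          have hcongr : ∀ i ≤ j + n, ident A (Function.update d' t0 (x t0)) i = ident A d' i := by
            intro i hi
            apply ident_congr
            intro t ht
            rw [Function.update_of_ne]
            intro h3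
            rw [h3] at ht
            simp only [t0] at ht
            omega
          refine ⟨Function.update d' t0 (x t0), ?_, ?_⟩
          · intro t ht
            rw [Function.update_of_ne, h1 t ht]
            intro h3
            rw [h3] at ht
            simp only [t0] at ht
            omega
          · intro t ht hne'
            by_cases ht0 : t = t0
            · subst ht0
              refine ⟨x, ?_, by rw [Function.update_self]⟩
              rw [hcongr _ (by simp [t0])]
              exact hx
            · have htv : t.val < j + n := by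
                have : t.val ≠ j + n := fun h => ht0 (Fin.ext h)
                omega
              rw [hcongr _ htv.le] at hne' ⊢
              rw [Function.update_of_ne ht0]
              exact h2 t htv hne'
        · refine ⟨d', h1, ?_⟩
          intro t ht hne'
          by_cases ht0 : t.val = j + n
          · rw [ht0] at hne'
            exact absurd hne' hne
          · exact h2 t (by omega) hne'
      · refine ⟨d', h1, ?_⟩
        intro t ht hne'
        exact h2 t (by have := t.2; omega) hne'
  obtain ⟨d', h1, h2⟩ := key ℓ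
  exact ⟨d', h1, fun t hne => h2 t (by have := t.2; omega) hne⟩

open Classical in
/-- words with few other words agreeing on `B` -/
noncomputable def bad (C : Finset (Fin ℓ → Fin q)) (k : ℕ) (B : Finset (Fin ℓ)) :
    Finset (Fin ℓ → Fin q) :=
  C.filter (fun x => (C.filter (fun y => ∀ j ∈ B, y j = x j)).card ≤ k)

lemma bad_card (C : Finset (Fin ℓ → Fin q)) (k : ℕ) (B : Finset (Fin ℓ)) :
    (bad C k B).card ≤ k * q ^ B.card := by
  classical
  have h1 := Finset.card_le_mul_card_image_of_maps_to (s := bad C k B)
    (t := (univ : Finset (B → Fin q))) (f := fun x (j : B) => x j) (fun _ _ => Finset.mem_univ _) k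
    (by
      intro b _
      by_cases hne : ((bad C k B).filter (fun x => (fun (j : B) => x j) = b)).Nonempty
      · obtain ⟨a, ha⟩ := hne
        rw [Finset.mem_filter] at ha
        obtain ⟨ha1, ha2⟩ := ha
        unfold bad at ha1
        rw [Finset.mem_filter] at ha1
        refine le_trans (Finset.card_le_card ?_) ha1.2
        intro y hy
        rw [Finset.mem_filter] at hy ⊢
        obtain ⟨hy1, hy2⟩ := hy
        unfold bad at hy1
        rw [Finset.mem_filter] at hy1
        refine ⟨hy1.1, ?_⟩
        intro j hj
        have h2 := congrFun (hy2.trans ha2.symm) ⟨j, hj⟩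
        exact h2
      · rw [Finset.not_nonempty_iff_eq_empty.1 hne]
        simp)
  rw [Finset.card_univ, Fintype.card_fun, Fintype.card_fin, Fintype.card_coe] at h1
  exact h1

lemma exists_good (C : Finset (Fin ℓ → Fin q)) (k K : ℕ) (hq : 1 ≤ q)
    (hC : 2 ^ ℓ * (k * q ^ K) + k ≤ C.card) :
    ∃ G ⊆ C, G.card = k ∧ ∀ x ∈ G, ∀ B : Finset (Fin ℓ), B.card ≤ K →
      k < (C.filter (fun y => ∀ j ∈ B, y j = x j)).card := by
  classical
  set Bad := (univ.filter (fun B : Finset (Fin ℓ) => B.card ≤ K)).biUnion (bad C k) with hBad
  have h1 : Bad.card ≤ 2 ^ ℓ * (k * q ^ K) := by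
    have h2 : Bad.card ≤ (univ.filter (fun B : Finset (Fin ℓ) => B.card ≤ K)).card * (k * q ^ K) := by
      apply Finset.card_biUnion_le_card_mul
      intro B hB
      rw [Finset.mem_filter] at hB
      exact (bad_card C k B).trans (Nat.mul_le_mul_left _ (Nat.pow_le_pow_right hq hB.2))
    refine h2.trans (Nat.mul_le_mul_right _ ?_)
    refine (Finset.card_filter_le _ _).trans ?_
    simp
  have h2 : k ≤ (C \ Bad).card := by
    have := Finset.le_card_sdiff Bad C
    omega
  obtain ⟨G, hG, hGk⟩ := Finset.exists_subset_card_eq h2
  refine ⟨G, hG.trans Finset.sdiff_subset, hGk, ?_⟩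
  intro x hx B hB
  have hx' := hG hx
  rw [Finset.mem_sdiff] at hx'
  by_contra hcon
  push Not at hcon
  apply hx'.2
  rw [hBad, Finset.mem_biUnion]
  refine ⟨B, ?_, ?_⟩
  · rw [Finset.mem_filter]; exact ⟨Finset.mem_univ _, hB⟩
  · unfold bad
    rw [Finset.mem_filter]
    exact ⟨hx'.1, by convert hcon⟩

/-- starting time of block `p` -/
def st (k K p : ℕ) : ℕ := ∑ r ∈ range p, ((k - r) * K + 1)

lemma st_last (k K : ℕ) (hk : 1 ≤ k) : st k K (k - 1) + K = K * (k * (k + 1) / 2) + k - 1 := by
  have h1 : st k K (k - 1) + (K + 1) = ∑ r ∈ range k, ((k - r) * K + 1) := by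
    unfold st
    obtain ⟨m, rfl⟩ : ∃ m, k = m + 1 := ⟨k - 1, by omega⟩
    rw [Nat.add_sub_cancel, Finset.sum_range_succ]
    congr 1
    have : m + 1 - m = 1 := by omega
    rw [this, one_mul]
  have h2 : ∑ r ∈ range k, ((k - r) * K + 1) = K * (k * (k + 1) / 2) + k := by
    rw [Finset.sum_add_distrib, ← Finset.sum_mul, sum_tri, Finset.sum_const, Finset.card_range,
      smul_eq_mul, mul_one, Nat.mul_comm]
  omega

/-- block of time `j` -/
def blk (k K j : ℕ) : ℕ := Nat.findGreatest (fun p => st k K p ≤ j) (k - 1)

lemma blk_le (k K j : ℕ) : blk k K j ≤ k - 1 := Nat.findGreatest_le _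

lemma st_blk (k K j : ℕ) : st k K (blk k K j) ≤ j :=
  Nat.findGreatest_spec (P := fun p => st k K p ≤ j) (Nat.zero_le _) (by simp [st])

lemma blk_mono (k K : ℕ) {i j : ℕ} (h : i ≤ j) : blk k K i ≤ blk k K j :=
  Nat.le_findGreatest (blk_le k K i) ((st_blk k K i).trans h)

lemma lt_of_blk (k K j ℓ : ℕ) (hk : 1 ≤ k) (hj : j ≤ ℓ) (hℓ : ℓ ≤ K * (k * (k + 1) / 2) + k - 1) :
    j ≤ st k K (blk k K j) + (k - blk k K j) * K := by
  by_cases h : blk k K j = k - 1
  · rw [h]
    have h1 := st_last k K hk
    have h2 : k - (k - 1) = 1 := by omega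
    rw [h2, one_mul]
    omega
  · have h1 := blk_le k K j
    by_contra hcon
    push Not at hcon
    have h2 : st k K (blk k K j + 1) ≤ j := by
      unfold st at hcon ⊢
      rw [Finset.sum_range_succ]
      omega
    have h3 : blk k K j + 1 ≤ blk k K j :=
      Nat.le_findGreatest (P := fun p => st k K p ≤ j) (by omega) h2
    omega

theorem not_isSeqIPP {C : Finset (Fin ℓ → Fin q)} {k K : ℕ} (hk : 1 ≤ k) (hq : 1 ≤ q)
    (hℓ : ℓ ≤ K * (k * (k + 1) / 2) + k - 1) (hC : 2 ^ ℓ * (k * q ^ K) + k ≤ C.card) :
    ¬ IsSeqIPP k C := by
  classical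
  rintro ⟨A, hA⟩
  obtain ⟨G, hGC, hGk, hG⟩ := exists_good C k K hq hC
  have eqv : Fin k ≃ G := (Finset.equivFinOfCardEq hGk).symm
  let x : ℕ → (Fin ℓ → Fin q) := fun r => if h : r < k then eqv ⟨r, h⟩ else eqv ⟨0, hk⟩
  have hxG : ∀ r, x r ∈ G := by
    intro r
    simp only [x]
    split_ifs
    · exact (eqv _).2
    · exact (eqv _).2
  have hxinj : ∀ r s, r < k → s < k → x r = x s → r = s := by
    intro r s hr hs h
    simp only [x, hr, hs, dite_true] at h
    have := eqv.injective (Subtype.ext h)
    exact congrArg Fin.val this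
  -- all words of `G` are `x r`
  set XX : Finset (Fin ℓ → Fin q) := (range k).image x with hXX
  have hXXC : XX ⊆ C := by
    intro c hc
    rw [hXX, Finset.mem_image] at hc
    obtain ⟨r, _, rfl⟩ := hc
    exact hGC (hxG r)
  have hXXk : XX.card = k := by
    rw [hXX, Finset.card_image_of_injOn, Finset.card_range]
    intro r hr s hs h
    exact hxinj r s (Finset.mem_range.1 (Finset.mem_coe.1 hr))
      (Finset.mem_range.1 (Finset.mem_coe.1 hs)) h
  let pre : ℕ → Finset (Fin ℓ → Fin q) := fun p => (range p).image x
  have hpre : ∀ p ≤ k, pre p ⊆ XX := fun p hp =>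
    Finset.image_subset_image (Finset.range_subset_range.2 hp)
  have hnot : ∀ p < k, x p ∉ pre p := by
    intro p hp h
    simp only [pre] at h
    rw [Finset.mem_image] at h
    obtain ⟨r, hr, h1⟩ := h
    rw [Finset.mem_range] at hr
    have := hxinj r p (by omega) hp h1
    omega
  -- words agreeing with `x p` on `B`
  have hY : ∀ p, ∀ B : Finset (Fin ℓ), B.card ≤ K → ∃ y ∈ C, y ∉ XX ∧ ∀ j ∈ B, y j = x p j := by
    intro p B hB
    have h1 := hG (x p) (hxG p) B hB
    by_contra hcon
    push Not at hcon
    have h2 : C.filter (fun y => ∀ j ∈ B, y j = x p j) ⊆ XX := by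
      intro y hy
      rw [Finset.mem_filter] at hy
      by_contra hyX
      obtain ⟨j, hj, hne⟩ := hcon y hy.1 hyX
      exact hne (hy.2 j hj)
    have := Finset.card_le_card h2
    omega
  have : Nonempty (Fin ℓ → Fin q) := ⟨x 0⟩
  choose! y hyC hyX hyB using hY
  let d : Fin ℓ → Fin q := fun j => x (blk k K j) j
  have hblk : ∀ j, blk k K j < k := fun j => by have := blk_le k K j; omega
  have claim : ∀ j ≤ ℓ, ident A d j ⊆ pre (blk k K j) := by
    intro j
    induction j using Nat.strong_induction_on with
    | _ j ih =>
    intro hj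
    set p := blk k K j with hp
    have hpk : p < k := hblk j
    -- the two hypotheses
    have hstep : ∀ t : Fin ℓ, t.val < j → x (blk k K t) ∉ ident A d t := by
      intro t ht h
      exact hnot _ (hblk t) (ih t ht (by omega) h)
    have hidXX : ∀ t : ℕ, t < j → ident A d t ⊆ XX := fun t ht =>
      (ih t ht (by omega)).trans (hpre _ (hblk t).le)
    -- first: XX
    have h1 : ident A d j ⊆ XX := by
      obtain ⟨d', hd1, hd2⟩ := exists_ext A XX d j (by
        intro t ht
        refine ⟨x (blk k K t), ?_, rfl⟩
        rw [Finset.mem_sdiff]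
        exact ⟨Finset.mem_image_of_mem _ (Finset.mem_range.2 (hblk t)), hstep t ht⟩)
      obtain ⟨i, _, hi⟩ := hA XX hXXC hXXk.le d' hd2
      have hcongr : ∀ i' ≤ j, ident A d' i' = ident A d i' := fun i' hi' =>
        ident_congr A d' d i' (fun t ht => hd1 t (by omega))
      by_cases hij : i < j
      · exfalso
        rw [hcongr i hij.le] at hi
        have h2 := ih i hij (by omega)
        rw [hi] at h2
        have h3 : x (k - 1) ∈ pre (blk k K i) := h2 (Finset.mem_image_of_mem _ (by
          rw [Finset.mem_range]; omega))
        simp only [pre] at h3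
        rw [Finset.mem_image] at h3
        obtain ⟨r, hr, h4⟩ := h3
        rw [Finset.mem_range] at hr
        have h5 := blk_le k K i
        have := hxinj r (k - 1) (by omega) (by omega) h4
        omega
      · rw [← hcongr j le_rfl, ← hi]
        exact ident_mono A d' (by omega)
    -- second
    let B : ℕ → Finset (Fin ℓ) := fun i =>
      univ.filter (fun t : Fin ℓ => st k K p + i * K ≤ t.val ∧ t.val < st k K p + (i + 1) * K)
    have hBK : ∀ i, (B i).card ≤ K := by
      intro i
      have h2 : ((B i).map Fin.valEmbedding) ⊆ Finset.Ico (st k K p + i * K)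
          (st k K p + (i + 1) * K) := by
        intro t ht
        rw [Finset.mem_map] at ht
        obtain ⟨t', ht', rfl⟩ := ht
        simp only [B] at ht'
        rw [Finset.mem_filter] at ht'
        rw [Finset.mem_Ico]
        exact ht'.2
      have h3 := Finset.card_le_card h2
      rw [Finset.card_map, Nat.card_Ico] at h3
      have h4 : (i + 1) * K = i * K + K := by ring
      omega
    set X' : Finset (Fin ℓ → Fin q) := pre p ∪ (range (k - p)).image (fun i => y p (B i)) with hX'
    have hX'C : X' ⊆ C := by
      apply Finset.union_subset ((hpre p hpk.le).trans hXXC)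
      intro c hc
      rw [Finset.mem_image] at hc
      obtain ⟨i, _, rfl⟩ := hc
      exact hyC p (B i) (hBK i)
    have hX'k : X'.card ≤ k := by
      refine (Finset.card_union_le _ _).trans ?_
      have h2 : (pre p).card ≤ p := by
        have := Finset.card_image_le (s := range p) (f := x)
        rwa [Finset.card_range] at this
      have h3 : ((range (k - p)).image (fun i => y p (B i))).card ≤ k - p := by
        have := Finset.card_image_le (s := range (k - p)) (f := fun i => y p (B i))
        rwa [Finset.card_range] at this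
      omega
    have hy0 : y p (B 0) ∈ X' := by
      apply Finset.mem_union_right
      exact Finset.mem_image.2 ⟨0, Finset.mem_range.2 (by omega), rfl⟩
    have h2 : ident A d j ⊆ X' := by
      obtain ⟨d', hd1, hd2⟩ := exists_ext A X' d j (by
        intro t ht
        by_cases hbt : blk k K t = p
        · -- in the current block
          have h3 := lt_of_blk k K j ℓ hk hj hℓ
          rw [← hp] at h3
          have h4 := st_blk k K t
          rw [hbt] at h4
          have hKpos : 0 < K := by
            rcases Nat.eq_zero_or_pos K with h0 | h0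
            · rw [h0, mul_zero] at h3
              rw [h0] at h4
              omega
            · exact h0
          set i := (t.val - st k K p) / K with hi
          have hik : i < k - p := by
            rw [hi, Nat.div_lt_iff_lt_mul hKpos]
            omega
          have htB : t ∈ B i := by
            simp only [B]
            rw [Finset.mem_filter]
            have h5 := Nat.div_add_mod (t.val - st k K p) K
            have h6 := Nat.mod_lt (t.val - st k K p) hKpos
            rw [← hi] at h5
            have h7 : K * i = i * K := Nat.mul_comm _ _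
            have h8 : (i + 1) * K = i * K + K := by ring
            refine ⟨Finset.mem_univ _, by omega, by omega⟩
          refine ⟨y p (B i), ?_, ?_⟩
          · rw [Finset.mem_sdiff]
            refine ⟨Finset.mem_union_right _ (Finset.mem_image.2 ⟨i, Finset.mem_range.2 hik, rfl⟩),
              ?_⟩
            intro h9
            exact hyX p (B i) (hBK i) (hidXX t ht h9)
          · rw [hyB p (B i) (hBK i) t htB]
            simp only [d]
            rw [hbt]
        · have h3 : blk k K t ≤ p := blk_mono k K ht.le
          refine ⟨x (blk k K t), ?_, rfl⟩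
          rw [Finset.mem_sdiff]
          exact ⟨Finset.mem_union_left _ (Finset.mem_image_of_mem _
            (Finset.mem_range.2 (by omega))), hstep t ht⟩)
      obtain ⟨i, _, hi⟩ := hA X' hX'C hX'k d' hd2
      have hcongr : ∀ i' ≤ j, ident A d' i' = ident A d i' := fun i' hi' =>
        ident_congr A d' d i' (fun t ht => hd1 t (by omega))
      by_cases hij : i < j
      · exfalso
        rw [hcongr i hij.le] at hi
        have h2 := hidXX i hij
        rw [hi] at h2
        exact hyX p (B 0) (hBK 0) (h2 hy0)
      · rw [← hcongr j le_rfl, ← hi]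
        exact ident_mono A d' (by omega)
    intro c hc
    have h3 := h1 hc
    have h4 := h2 hc
    rw [hX', Finset.mem_union] at h4
    rcases h4 with h4 | h4
    · exact h4
    · rw [Finset.mem_image] at h4
      obtain ⟨i, _, rfl⟩ := h4
      exact absurd h3 (hyX p (B i) (hBK i))
  -- conclusion
  have hleg : Legit A XX d := by
    intro t _
    refine ⟨x (blk k K t), ?_, rfl⟩
    rw [Finset.mem_sdiff]
    refine ⟨Finset.mem_image_of_mem _ (Finset.mem_range.2 (hblk t)), ?_⟩
    intro h
    exact hnot _ (hblk t) (claim t t.2.le h)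
  obtain ⟨i, hi, hid⟩ := hA XX hXXC hXXk.le d hleg
  have h2 := claim i hi
  rw [hid] at h2
  have h3 : x (k - 1) ∈ pre (blk k K i) := h2 (Finset.mem_image_of_mem _ (by
    rw [Finset.mem_range]; omega))
  simp only [pre] at h3
  rw [Finset.mem_image] at h3
  obtain ⟨r, hr, h4⟩ := h3
  rw [Finset.mem_range] at hr
  have h5 := blk_le k K i
  have := hxinj r (k - 1) (by omega) (by omega) h4
  omega

end Pool.Agent.H230R2.Seq
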