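import Pool.Agent.H230R2.IPP.Gen

set_option autoImplicit false

/-!
Connectivity of circuits, and the choice of the scalars with the right sign pattern.
-/

namespace Pool.Agent.H230R2.IPP

open Finset
open Pool.Agent.Helper879.ECD (sp Ind sp_mono mem_sp exists_coeff)

variable {ℓ u : ℕ}

lemma circ_connected {k : ℕ} {e : Fin ℓ → Fin u × Fin u} {J : Finset (Fin ℓ)} (h : Circ k e J)
    (S : Finset (Fin u)) (hS : ∀ j ∈ J, (e j).1 ∈ S ↔ (e j).2 ∈ S) {j1 : Fin ℓ} (hj1 : j1 ∈ J)
    (h1 : (e j1).1 ∈ S) : ∀ j ∈ J, (e j).1 ∈ S := by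
  classical
  by_contra hcon
  push Not at hcon
  obtain ⟨j2, hj2, h2⟩ := hcon
  set J1 := J.filter (fun j => (e j).1 ∈ S) with hJ1
  set J2 := J.filter (fun j => ¬ (e j).1 ∈ S) with hJ2
  have hc : J1.card + J2.card = J.card := by
    rw [hJ1, hJ2]
    exact Finset.card_filter_add_card_filter_not _
  have hs1 : J1 ⊂ J := by
    rw [Finset.ssubset_iff_of_subset (Finset.filter_subset _ _)]
    exact ⟨j2, hj2, fun h => h2 (Finset.mem_filter.1 h).2⟩
  have hs2 : J2 ⊂ J := by
    rw [Finset.ssubset_iff_of_subset (Finset.filter_subset _ _)]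
    exact ⟨j1, hj1, fun h => (Finset.mem_filter.1 h).2 h1⟩
  have hr : rk e J1 + rk e J2 ≤ rk e J := by
    have h3 := Submodule.finrank_sup_add_finrank_inf_eq (sp ℚ (xv e) J1) (sp ℚ (xv e) J2)
    have h4 : sp ℚ (xv e) J1 ⊓ sp ℚ (xv e) J2 = ⊥ := by
      rw [eq_bot_iff]
      intro w hw
      rw [Submodule.mem_inf] at hw
      let A : Submodule ℚ (Fin u → ℚ) :=
        { carrier := {w | ∀ v, v ∉ S → w v = 0}
          add_mem' := by
            intro a b ha hb v hv
            rw [Pi.add_apply, ha v hv, hb v hv, add_zero]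
          zero_mem' := by intro v _; rfl
          smul_mem' := by
            intro r a ha v hv
            rw [Pi.smul_apply, ha v hv, smul_zero] }
      let B : Submodule ℚ (Fin u → ℚ) :=
        { carrier := {w | ∀ v, v ∈ S → w v = 0}
          add_mem' := by
            intro a b ha hb v hv
            rw [Pi.add_apply, ha v hv, hb v hv, add_zero]
          zero_mem' := by intro v _; rfl
          smul_mem' := by
            intro r a ha v hv
            rw [Pi.smul_apply, ha v hv, smul_zero] }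
      have hA : sp ℚ (xv e) J1 ≤ A := by
        rw [sp, Submodule.span_le]
        rintro _ ⟨j, hj, rfl⟩
        rw [Finset.mem_coe, hJ1, Finset.mem_filter] at hj
        have hj' := (hS j hj.1).1 hj.2
        intro v hv
        have n1 : v ≠ (e j).1 := fun h => hv (h ▸ hj.2)
        have n2 : v ≠ (e j).2 := fun h => hv (h ▸ hj')
        simp [xv, n1, n2]
      have hB : sp ℚ (xv e) J2 ≤ B := by
        rw [sp, Submodule.span_le]
        rintro _ ⟨j, hj, rfl⟩
        rw [Finset.mem_coe, hJ2, Finset.mem_filter] at hj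
        have hj' : ¬ (e j).2 ∈ S := fun h => hj.2 ((hS j hj.1).2 h)
        intro v hv
        have n1 : v ≠ (e j).1 := fun h => hj.2 (h ▸ hv)
        have n2 : v ≠ (e j).2 := fun h => hj' (h ▸ hv)
        simp [xv, n1, n2]
      rw [Submodule.mem_bot]
      ext v
      by_cases hv : v ∈ S
      · exact hB hw.2 v hv
      · exact hA hw.1 v hv
    rw [h4, finrank_bot, add_zero] at h3
    have h5 : sp ℚ (xv e) J1 ⊔ sp ℚ (xv e) J2 ≤ sp ℚ (xv e) J :=
      sup_le (sp_mono hs1.1) (sp_mono hs2.1)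
    have h6 := Submodule.finrank_mono h5
    unfold rk
    omega
  have c1 := h.2 J1 hs1
  have c2 := h.2 J2 hs2
  have c3 := h.1
  have c4 := Nat.mul_le_mul_left k hr
  rw [Nat.mul_add] at c4
  omega

lemma exists_sign {k : ℕ} {e : Fin ℓ → Fin u × Fin u} {J : Finset (Fin ℓ)} (h : Circ k e J)
    {lam : Fin ℓ → ℚ} (hlam : ∀ j ∈ J, lam j ≠ 0) :
    ∃ v0 : Fin u, ∃ b : Fin ℓ → ℤ, ∀ v, v ≠ v0 → (∃ j ∈ J, v = (e j).1 ∨ v = (e j).2) →
      0 < ∑ j ∈ J, lam j * (b j : ℚ) * xv e j v := by
  classical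
  have hpos : 0 < J.card := by rw [h.1]; omega
  obtain ⟨j1, hj1⟩ := Finset.card_pos.1 hpos
  set v0 := (e j1).1 with hv0
  set S : Finset (Fin u) := univ.filter (fun v =>
    (Pi.single v (1 : ℚ) - Pi.single v0 (1 : ℚ) : Fin u → ℚ) ∈ sp ℚ (xv e) J) with hS
  have hmem : ∀ v, v ∈ S ↔
      (Pi.single v (1 : ℚ) - Pi.single v0 (1 : ℚ) : Fin u → ℚ) ∈ sp ℚ (xv e) J := by
    intro v; rw [hS, Finset.mem_filter]; simp
  have hclosed : ∀ j ∈ J, (e j).1 ∈ S ↔ (e j).2 ∈ S := by
    intro j hj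
    rw [hmem, hmem]
    have hx : xv e j ∈ sp ℚ (xv e) J := mem_sp hj
    constructor
    · intro h1
      have := Submodule.sub_mem _ h1 hx
      convert this using 1
      unfold xv; abel
    · intro h1
      have := Submodule.add_mem _ h1 hx
      convert this using 1
      unfold xv; abel
  have hv0S : v0 ∈ S := by
    rw [hmem, sub_self]; exact Submodule.zero_mem _
  have hall := circ_connected h S hclosed hj1 hv0S
  set Tch : Finset (Fin u) := univ.filter (fun v => ∃ j ∈ J, v = (e j).1 ∨ v = (e j).2) with hTch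
  have hTS : ∀ v ∈ Tch, v ∈ S := by
    intro v hv
    rw [hTch, Finset.mem_filter] at hv
    obtain ⟨_, j, hj, hv | hv⟩ := hv
    · rw [hv]; exact hall j hj
    · rw [hv]; exact (hclosed j hj).1 (hall j hj)
  set g : Fin u → ℚ := ∑ v ∈ Tch, (Pi.single v (1 : ℚ) - Pi.single v0 (1 : ℚ)) with hg
  have hgm : g ∈ sp ℚ (xv e) J := by
    rw [hg]
    apply Submodule.sum_mem
    intro v hv
    exact (hmem v).1 (hTS v hv)
  obtain ⟨c, hc⟩ := exists_coeff hgm
  set r : Fin ℓ → ℚ := fun j => c j / lam j with hr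
  set N : ℤ := ∏ j ∈ J, ((r j).den : ℤ) with hN
  have hNpos : 0 < N := by
    rw [hN]
    apply Finset.prod_pos
    intro j _
    exact_mod_cast (r j).pos
  refine ⟨v0, fun j => (∏ i ∈ J.erase j, ((r i).den : ℤ)) * (r j).num, ?_⟩
  intro v hv hvt
  have hb : ∀ j ∈ J, (((∏ i ∈ J.erase j, ((r i).den : ℤ)) * (r j).num : ℤ) : ℚ) = N * r j := by
    intro j hj
    have h1 : N = (r j).den * ∏ i ∈ J.erase j, ((r i).den : ℤ) := by
      rw [hN]
      exact (Finset.mul_prod_erase J (fun i => ((r i).den : ℤ)) hj).symm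
    rw [h1]
    push_cast
    have h2 : (r j) * (r j).den = (r j).num := Rat.mul_den_eq_num (r j)
    rw [← h2]
    ring
  have hgv : g v = 1 := by
    rw [hg, Finset.sum_apply]
    have hvT : v ∈ Tch := by rw [hTch, Finset.mem_filter]; exact ⟨Finset.mem_univ _, hvt⟩
    rw [Finset.sum_eq_single v]
    · simp [hv]
    · intro w _ hw
      simp [hv, Ne.symm hw]
    · intro h; exact absurd hvT h
  have hsum : ∑ j ∈ J, lam j * (((∏ i ∈ J.erase j, ((r i).den : ℤ)) * (r j).num : ℤ) : ℚ)
      * xv e j v = N := by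
    have h1 : ∀ j ∈ J, lam j * (((∏ i ∈ J.erase j, ((r i).den : ℤ)) * (r j).num : ℤ) : ℚ)
      * xv e j v = N * (c j * xv e j v) := by
      intro j hj
      rw [hb j hj, hr]
      have := hlam j hj
      field_simp
    rw [Finset.sum_congr rfl h1, ← Finset.mul_sum]
    have h2 : ∑ j ∈ J, c j * xv e j v = g v := by
      rw [← hc, Finset.sum_apply]
      apply Finset.sum_congr rfl
      intro j _
      simp
    rw [h2, hgv, mul_one]
  rw [hsum]
  exact_mod_cast hNpos

end Pool.Agent.H230R2.IPP
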